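import Pool.Agent.Grig.Targets

set_option autoImplicit false

/-!
# Structure of the Grigorchuk group, part one (job GRI-1)

Sections stay in `G`, the level sums, the class in the dihedral group, and the nucleus.
-/

namespace Pool.Agent.Grig

open Aut

namespace Struct1

/-- the generators -/
def Gen : Set Aut := {a, b, c, d}

/-- the nucleus -/
def Nuc : Set Aut := {1, a, b, c, d}

theorem gen_cases {P : Aut → Prop} (ha : P a) (hb : P b) (hc : P c) (hd : P d) :
    ∀ s ∈ ({a, b, c, d} : Set Aut), P s := by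
  intro s hs
  simp only [Set.mem_insert_iff, Set.mem_singleton_iff] at hs
  rcases hs with rfl | rfl | rfl | rfl
  exacts [ha, hb, hc, hd]

theorem nuc_cases {P : Aut → Prop} (h1 : P 1) (ha : P a) (hb : P b) (hc : P c) (hd : P d) :
    ∀ s ∈ Nuc, P s := by
  intro s hs
  simp only [Nuc, Set.mem_insert_iff, Set.mem_singleton_iff] at hs
  rcases hs with rfl | rfl | rfl | rfl | rfl
  exacts [h1, ha, hb, hc, hd]

theorem one_nuc : (1 : Aut) ∈ Nuc := by simp [Nuc]
theorem a_nuc : a ∈ Nuc := by simp [Nuc]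
theorem b_nuc : b ∈ Nuc := by simp [Nuc]
theorem c_nuc : c ∈ Nuc := by simp [Nuc]
theorem d_nuc : d ∈ Nuc := by simp [Nuc]

theorem gen_sec : ∀ s ∈ ({a, b, c, d} : Set Aut), ∀ x : Bool, s.sec x ∈ G := by
  apply gen_cases
  · intro x; rw [sec_a]; exact G.one_mem
  · intro x; cases x
    · exact a_mem
    · exact c_mem
  · intro x; cases x
    · exact a_mem
    · exact d_mem
  · intro x; cases x
    · exact G.one_mem
    · exact b_mem

theorem lam_a : ∀ j, lam (j + 1) a = false := by
  intro j
  rw [lam_succ, sec_a, sec_a, lam_one']; rfl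

theorem lam_b_succ (j : ℕ) : lam (j + 1) b = xor (lam j a) (lam j c) := rfl
theorem lam_c_succ (j : ℕ) : lam (j + 1) c = xor (lam j a) (lam j d) := rfl
theorem lam_d_succ (j : ℕ) : lam (j + 1) d = xor (lam j 1) (lam j b) := rfl

/-- sections of products of two elements of the nucleus -/
theorem nuc_sec_mul : ∀ s ∈ Nuc, ∀ t ∈ Nuc, ∀ x : Bool, (s * t).sec x ∈ Nuc := by
  apply nuc_cases
  · apply nuc_cases <;> intro x <;> cases x <;> simp [Nuc]
  · apply nuc_cases <;> intro x <;> cases x <;> simp [sec_mul, Nuc]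
  · apply nuc_cases <;> intro x <;> cases x <;>
      simp [sec_mul, Nuc, c_mul_d, c_mul_b]
  · apply nuc_cases <;> intro x <;> cases x <;>
      simp [sec_mul, Nuc, d_mul_c, d_mul_b]
  · apply nuc_cases <;> intro x <;> cases x <;>
      simp [sec_mul, Nuc, b_mul_c, b_mul_d]

theorem nuc_sec : ∀ s ∈ Nuc, ∀ x : Bool, s.sec x ∈ Nuc := by
  intro s hs x
  have h := nuc_sec_mul 1 one_nuc s hs x
  rwa [one_mul] at h

theorem nuc_secs (v : List Bool) : ∀ s ∈ Nuc, s.secs v ∈ Nuc := by
  induction v with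
  | nil => intro s hs; exact hs
  | cons x v ih => intro s hs; exact ih _ (nuc_sec s hs x)

theorem D_gen : ∀ s ∈ ({a, b, c, d} : Set Aut), D (s.sec true) = phi (D (s.sec false)) := by
  apply gen_cases <;> rfl

theorem D_gen' : ∀ s ∈ ({a, b, c, d} : Set Aut), D (s.sec false) = phi (D (s.sec true)) := by
  intro s hs
  rw [D_gen s hs, phi_phi]

end Struct1

open Struct1

theorem p_sec : T_sec := by
  refine G_induction (fun x => ?_) (fun s hs g _ ih x => ?_)
  · rw [sec_one]; exact G.one_mem
  · rw [sec_mul]; exact G.mul_mem (gen_sec s hs _) (ih x)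

theorem p_lam : T_lam := by
  refine G_induction ?_ (fun s hs g _ ih => ?_)
  · simp only [lam_one']; exact ⟨rfl, trivial⟩
  · have hs' : xor (lam 1 s) (xor (lam 2 s) (lam 3 s)) = false ∧ lam 4 s = lam 1 s := by
      revert s
      apply gen_cases <;> exact ⟨rfl, rfl⟩
    obtain ⟨h1, h2⟩ := hs'
    obtain ⟨h3, h4⟩ := ih
    simp only [lam_mul]
    rw [h2, h4]
    refine ⟨?_, rfl⟩
    revert h1 h3
    cases lam 1 s <;> cases lam 2 s <;> cases lam 3 s <;>
      cases lam 1 g <;> cases lam 2 g <;> cases lam 3 g <;> decide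

theorem p_D : T_D := by
  refine G_induction rfl (fun s hs g _ ih => ?_)
  rw [sec_mul, sec_mul, D_mul, D_mul, phi_Dmul, ih]
  congr 1
  cases g.act
  · exact D_gen s hs
  · exact D_gen' s hs

theorem p_nuc : T_nuc := by
  have key : ∀ g ∈ G, ∃ n : ℕ, ∀ v : List Bool, n ≤ v.length → g.secs v ∈ Nuc := by
    refine G_induction ⟨0, fun v _ => by rw [secs_one]; exact one_nuc⟩ (fun s hs g _ ih => ?_)
    obtain ⟨n, hn⟩ := ih
    have hsN : s ∈ Nuc := by
      revert s
      apply gen_cases
      exacts [a_nuc, b_nuc, c_nuc, d_nuc]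
    refine ⟨n + 1, fun v hv => ?_⟩
    rcases List.eq_nil_or_concat v with rfl | ⟨w, x, rfl⟩
    · simp at hv
    · have hw : n ≤ w.length := by
        rw [List.length_concat] at hv
        omega
      rw [List.concat_eq_append, secs_append, secs_mul, secs_cons, secs_nil]
      exact nuc_sec_mul _ (nuc_secs _ s hsN) _ (hn w hw) x
  exact key

end Pool.Agent.Grig
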