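import Pool.Agent.Grig.Targets

set_option autoImplicit false

/-!
# GRI-2: the Grigorchuk group is self-replicating and branch
-/

namespace Pool.Agent.Grig

open Aut

namespace Struct2

/-- every element of `G` is the section at `x` of an element of `G` which is inactive at the
root -/
theorem lift1 (x : Bool) : ∀ h ∈ G, ∃ g ∈ G, g.act = false ∧ g.sec x = h := by
  apply G_induction (P := fun h => ∃ g ∈ G, g.act = false ∧ g.sec x = h)
  · exact ⟨1, G.one_mem, rfl, rfl⟩
  · rintro s hs g _ ⟨g', hg', ha, hx⟩
    have key : ∃ t ∈ G, t.act = false ∧ t.sec x = s := by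
      simp only [Set.mem_insert_iff, Set.mem_singleton_iff] at hs
      cases x
      · rcases hs with rfl | rfl | rfl | rfl
        · exact ⟨b, b_mem, rfl, rfl⟩
        · exact ⟨a * d * a, G.mul_mem (G.mul_mem a_mem d_mem) a_mem, by simp, by simp [sec_mul]⟩
        · exact ⟨a * b * a, G.mul_mem (G.mul_mem a_mem b_mem) a_mem, by simp, by simp [sec_mul]⟩
        · exact ⟨a * c * a, G.mul_mem (G.mul_mem a_mem c_mem) a_mem, by simp, by simp [sec_mul]⟩
      · rcases hs with rfl | rfl | rfl | rfl
        · exact ⟨a * b * a, G.mul_mem (G.mul_mem a_mem b_mem) a_mem, by simp, by simp [sec_mul]⟩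
        · exact ⟨d, d_mem, rfl, rfl⟩
        · exact ⟨b, b_mem, rfl, rfl⟩
        · exact ⟨c, c_mem, rfl, rfl⟩
    obtain ⟨t, ht, ta, tx⟩ := key
    exact ⟨t * g', G.mul_mem ht hg', by simp [ta, ha],
      by rw [sec_mul, ha, Bool.xor_false, tx, hx]⟩

/-- `BB`: the elements `x` of `G` with `(1, x)` in `G` -/
def BB (x : Aut) : Prop := x ∈ G ∧ mk' false 1 x ∈ G

theorem BB_b : BB b := ⟨b_mem, by rw [← d_eq]; exact d_mem⟩

theorem BB_one : BB 1 := ⟨G.one_mem, by rw [mk'_one]; exact G.one_mem⟩

theorem BB_mul {x y : Aut} (hx : BB x) (hy : BB y) : BB (x * y) := by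
  refine ⟨G.mul_mem hx.1 hy.1, ?_⟩
  have h := G.mul_mem hx.2 hy.2
  rwa [mk'_false_mul, one_mul] at h

theorem BB_conj {x g : Aut} (hx : BB x) (hg : g ∈ G) : BB (g⁻¹ * x * g) := by
  refine ⟨G.mul_mem (G.mul_mem (G.inv_mem hg) hx.1) hg, ?_⟩
  obtain ⟨g', hg', ha, hs⟩ := lift1 true g hg
  have e : g'⁻¹ * mk' false 1 x * g' = mk' false 1 (g⁻¹ * x * g) := by
    have e1 : g' = mk' false (g'.sec false) g := by
      have h := eq_mk' g'
      rwa [ha, hs] at h
    rw [e1, mk'_false_inv, mk'_false_mul, mk'_false_mul]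
    simp
  rw [← e]
  exact G.mul_mem (G.mul_mem (G.inv_mem hg') hx.2) hg'

/-- `ada` to a Boolean power -/
def epow (s : Bool) : Aut := bif s then a * d * a else 1

/-- `d` to a Boolean power -/
def dpow (s : Bool) : Aut := bif s then d else 1

/-- representatives of the dihedral group of order eight -/
def rep (t : Bool × Bool × Bool) : Aut := apow t.1 * (epow t.2.1 * dpow t.2.2)

theorem rep_mem (t : Bool × Bool × Bool) : rep t ∈ G := by
  have h1 : ∀ s, apow s ∈ G := by
    intro s; cases s
    · exact G.one_mem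
    · exact a_mem
  have h2 : ∀ s, epow s ∈ G := by
    intro s; cases s
    · exact G.one_mem
    · exact G.mul_mem (G.mul_mem a_mem d_mem) a_mem
  have h3 : ∀ s, dpow s ∈ G := by
    intro s; cases s
    · exact G.one_mem
    · exact d_mem
  exact G.mul_mem (h1 _) (G.mul_mem (h2 _) (h3 _))

theorem D_rep (t : Bool × Bool × Bool) : D (rep t) = t := by
  obtain ⟨e, s, u⟩ := t
  cases e <;> cases s <;> cases u <;> rfl

theorem a_rep (e s u : Bool) : a * rep (e, s, u) = rep (!e, s, u) := by
  unfold rep
  rw [← mul_assoc]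
  congr 1
  cases e
  · simp [apow]
  · simp [apow]

theorem d_ada : d * (a * d * a) = a * d * a * d := by
  apply ext' <;> simp [sec_mul]

theorem d_rep_false (s u : Bool) : d * rep (false, s, u) = rep (false, s, !u) := by
  have h : d * epow s = epow s * d := by
    cases s
    · simp [epow]
    · exact d_ada
  have h2 : d * dpow u = dpow (!u) := by
    cases u <;> simp [dpow]
  change d * (1 * (epow s * dpow u)) = 1 * (epow s * dpow (!u))
  rw [one_mul, one_mul, ← mul_assoc, h, mul_assoc, h2]

theorem d_rep_true (s u : Bool) : d * rep (true, s, u) = rep (true, !s, u) := by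
  have h : d * a * epow s = a * epow (!s) := by
    cases s
    · simp only [epow, cond_false, Bool.not_false, cond_true, mul_one]
      rw [← mul_assoc, ← mul_assoc, a_mul_a, one_mul]
    · simp only [epow, cond_false, Bool.not_true, cond_true, mul_one]
      calc d * a * (a * d * a) = d * (a * a) * d * a := by group
        _ = a := by rw [a_mul_a, mul_one, d_mul_d, one_mul]
  change d * (a * (epow s * dpow u)) = a * (epow (!s) * dpow u)
  rw [← mul_assoc a (epow (!s)), ← h]
  group

/-- Every element of `G` is a representative times an element of `BB`. -/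
theorem decomp : ∀ x ∈ G, ∃ t : Bool × Bool × Bool, ∃ β : Aut, BB β ∧ x = rep t * β := by
  apply G_induction (P := fun x => ∃ t : Bool × Bool × Bool, ∃ β : Aut, BB β ∧ x = rep t * β)
  · exact ⟨(false, false, false), 1, BB_one, by simp [rep, apow, epow, dpow]⟩
  · have hb : ∀ x, (∃ t : Bool × Bool × Bool, ∃ β : Aut, BB β ∧ x = rep t * β) →
        ∃ t : Bool × Bool × Bool, ∃ β : Aut, BB β ∧ b * x = rep t * β := by
      rintro x ⟨t, β, hβ, rfl⟩
      refine ⟨t, (rep t)⁻¹ * b * rep t * β, BB_mul (BB_conj BB_b (rep_mem t)) hβ, by group⟩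
    have hd : ∀ x, (∃ t : Bool × Bool × Bool, ∃ β : Aut, BB β ∧ x = rep t * β) →
        ∃ t : Bool × Bool × Bool, ∃ β : Aut, BB β ∧ d * x = rep t * β := by
      rintro x ⟨⟨e, s, u⟩, β, hβ, rfl⟩
      cases e
      · exact ⟨(false, s, !u), β, hβ, by rw [← mul_assoc, d_rep_false]⟩
      · exact ⟨(true, !s, u), β, hβ, by rw [← mul_assoc, d_rep_true]⟩
    intro s hs g _ hP
    simp only [Set.mem_insert_iff, Set.mem_singleton_iff] at hs
    rcases hs with rfl | rfl | rfl | rfl
    · obtain ⟨⟨e, s, u⟩, β, hβ, rfl⟩ := hP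
      exact ⟨(!e, s, u), β, hβ, by rw [← mul_assoc, a_rep]⟩
    · exact hb g hP
    · have h := hd _ (hb g hP)
      rwa [← mul_assoc, d_mul_b] at h
    · exact hd g hP

theorem BB_of_D (h : T_D) {x : Aut} (hx : x ∈ G) (hD : D x = (false, false, false)) : BB x := by
  obtain ⟨t, β, hβ, rfl⟩ := decomp x hx
  have h1 : D β = (false, false, false) := by
    have := h _ hβ.2
    rw [sec_mk'_true, sec_mk'_false, D_one] at this
    rw [this]; rfl
  have h2 : t = (false, false, false) := by
    rw [D_mul, D_rep, h1] at hD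
    rw [← hD]
    obtain ⟨e, s, u⟩ := t
    cases e <;> cases s <;> cases u <;> rfl
  subst h2
  have h3 : rep (false, false, false) = 1 := by simp [rep, apow, epow, dpow]
  rw [h3, one_mul]
  exact hβ

theorem D_inv_mul {x y : Aut} (h : D x = D y) : D (x⁻¹ * y) = (false, false, false) := by
  have h1 : Dmul (D x) (D (x⁻¹ * y)) = D x := by
    rw [← D_mul, h]; congr 1; group
  have key : ∀ t u : Bool × Bool × Bool, Dmul t u = t → u = (false, false, false) := by decide
  exact key _ _ h1

end Struct2

open Struct2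

/-- GRI-2, first part: the Grigorchuk group is self-replicating. -/
theorem p_selfrep : T_selfrep := by
  intro v
  induction v with
  | nil =>
    intro w hw h hh
    have hw' : w = [] := List.length_eq_zero_iff.mp (by simpa using hw.symm)
    subst hw'
    exact ⟨h, hh, rfl, rfl⟩
  | cons x v ih =>
    intro w hw h hh
    match w with
    | [] => simp at hw
    | y :: w =>
      obtain ⟨g', hg', happ, hsec⟩ := ih w (by simpa using hw) h hh
      obtain ⟨g1, hg1, ha, hs⟩ := lift1 x g' hg'
      by_cases hxy : x = y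
      · subst hxy
        exact ⟨g1, hg1, by simp [ha, hs, happ], by simp [hs, hsec]⟩
      · refine ⟨a * g1, G.mul_mem a_mem hg1, ?_, ?_⟩
        · have e : (a * g1).sec x = g' := by rw [sec_mul, sec_a, one_mul, hs]
          rw [app_cons, e, happ, act_mul, ha, act_a]
          congr 1
          revert hxy
          cases x <;> cases y <;> simp
        · have e : (a * g1).sec x = g' := by rw [sec_mul, sec_a, one_mul, hs]
          rw [secs_cons, e, hsec]

/-- GRI-2, second part: the first level stabiliser. -/
theorem p_mk (h : T_D) (h' : T_sec) : T_mk := by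
  intro x hx y hy hD
  obtain ⟨g, hg, ha, hs⟩ := lift1 false x hx
  have hg1 : g.sec true ∈ G := h' g hg true
  have h1 : D (g.sec true) = D y := by rw [h g hg, hs, hD]
  have h2 : BB ((g.sec true)⁻¹ * y) :=
    BB_of_D h (G.mul_mem (G.inv_mem hg1) hy) (D_inv_mul h1)
  have e : g * mk' false 1 ((g.sec true)⁻¹ * y) = mk' false x y := by
    have e1 : g = mk' false x (g.sec true) := by
      have h0 := eq_mk' g
      rwa [ha, hs] at h0
    calc g * mk' false 1 ((g.sec true)⁻¹ * y)
        = mk' false x (g.sec true) * mk' false 1 ((g.sec true)⁻¹ * y) := by rw [← e1]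
      _ = mk' false x y := by rw [mk'_false_mul]; congr 1 <;> group
  rw [← e]
  exact G.mul_mem hg h2.2

/-- GRI-2, third part: the branching subgroup. -/
theorem p_K (h : T_mk) (_h' : T_sec) (h'' : T_lam) : T_K := by
  intro g hg v
  induction v with
  | nil => exact hg
  | cons x v ih =>
    obtain ⟨h1, h2, h3⟩ := ih
    set k := putAt v g with hk
    have hact : k.act = false := congrArg Prod.fst h2
    have hs0 : lam 2 (k.sec false) = false := congrArg (fun t => t.2.1) h2
    have hs1 : lam 2 (k.sec true) = false := congrArg (fun t => t.2.2) h2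
    have hl3 : lam 3 k = false := by rw [lam_succ, hs0, hs1]; rfl
    have hl2 : lam 2 k = false := by
      have := (h'' k h1).1
      rw [h3, hl3] at this
      simpa using this
    cases x
    · rw [putAt_false, ← hk]
      refine ⟨h k h1 1 G.one_mem (by rw [h2]; rfl), ?_, ?_⟩
      · simp only [D, act_mk', sec_mk'_false, sec_mk'_true, hl2, lam_one']
      · rw [lam_mk', lam_zero, lam_zero, hact, act_one]; rfl
    · rw [putAt_true, ← hk]
      refine ⟨h 1 G.one_mem k h1 (by rw [h2]; rfl), ?_, ?_⟩
      · simp only [D, act_mk', sec_mk'_false, sec_mk'_true, hl2, lam_one']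
      · rw [lam_mk', lam_zero, lam_zero, hact, act_one]; rfl

end Pool.Agent.Grig
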