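import Pool.Agent.Grig.Basic

set_option autoImplicit false

/-!
# Targets for the undecidability of equations over the Grigorchuk group (MP_cfea17_lc)

Every `T_*` is a `Prop`; each job delivers `theorem p_* : T_*`, possibly with other targets as
hypotheses.  The paper proof is in `Blueprint.lean.txt`.
-/

namespace Pool.Agent.Grig

open Aut

/-! ## Notation -/

/-- conjugate `u⁻¹ x u` -/
def cj {P : Type*} [Group P] (x u : P) : P := u⁻¹ * x * u

/-- commutator `x⁻¹ y⁻¹ x y` -/
def cm {P : Type*} [Group P] (x y : P) : P := x⁻¹ * y⁻¹ * x * y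

/-! ## Structure of `G` (jobs GRI-1, GRI-2) -/

def T_sec : Prop := ∀ g ∈ G, ∀ x : Bool, g.sec x ∈ G

def T_lam : Prop := ∀ g ∈ G, xor (lam 1 g) (xor (lam 2 g) (lam 3 g)) = false ∧ lam 4 g = lam 1 g

def T_D : Prop := ∀ g ∈ G, D (g.sec true) = phi (D (g.sec false))

def T_nuc : Prop := ∀ g ∈ G, ∃ n : ℕ, ∀ v : List Bool, n ≤ v.length →
  g.secs v ∈ ({1, a, b, c, d} : Set Aut)

/-- The action of `G` on each level is transitive and every vertex stabiliser projects onto `G`. -/
def T_selfrep : Prop := ∀ v w : List Bool, v.length = w.length → ∀ h ∈ G,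
  ∃ g ∈ G, g.app v = w ∧ g.secs v = h

def T_mk : Prop := ∀ x ∈ G, ∀ y ∈ G, D y = phi (D x) → mk' false x y ∈ G

/-- The subgroup `K`, as a set. -/
def KK : Set Aut := {g | g ∈ G ∧ D g = (false, false, false) ∧ lam 1 g = false}

def T_K : Prop := ∀ g ∈ KK, ∀ v : List Bool, putAt v g ∈ KK

/-! ## The ray systems (jobs GRI-3, GRI-4, GRI-5) -/

/-- the law -/
def T_law : Prop := ∀ w ∈ G, ∀ v ∈ G, ∀ y ∈ G, w * a = a * w → v * a = a * v →
  xor w.act v.act = true → y.act = false → lam 2 y = true → lam 3 y = false →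
  (w * v * y * a * y) ^ 4 = (w * v * a) ^ 4 →
  xor (lam 2 (w.sec false)) (lam 2 (v.sec false)) = true

def Sys (F V W : Aut) : Prop :=
  V * b = b * V ∧ W * c = c * W ∧ F * d = d * F ∧
  (W * V * F * c * F) ^ 4 = (W * V * c) ^ 4 ∧
  (V * F * W * b * W) ^ 4 = (V * F * b) ^ 4 ∧
  (F * W * V * d * V) ^ 4 = (F * W * d) ^ 4

def State (p : Bool) (F V W : Aut) : Prop :=
  (F.p [false] = false ∧ F.p [true, false] = p ∧ lam 2 (F.sec false) = true) ∧
  (V.p [false] = !p ∧ V.p [true, false] = !p) ∧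
  (W.p [false] = p ∧ W.p [true, false] = false)

/-- No solution in `G`. -/
def T_desc : Prop := ∀ (p : Bool) (F V W : Aut), F ∈ G → V ∈ G → W ∈ G →
  Sys F V W → State p F V W → False

/-- `a ^ p` -/
def apow (p : Bool) : Aut := bif p then a else 1

/-- The truncated intended solutions: `tr m p = (A_m^p, B_m^p, C_m^p)`. -/
def tr : ℕ → Bool → Aut × Aut × Aut
  | 0, p => (bif p then z else d * z, bif p then b else 1, bif p then c else 1)
  | m + 1, p => (mk' false b (tr m p).2.1, mk' false (apow p) (tr m p).2.2,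
      mk' false (apow p * z) (tr m (!p)).1)

def FF (n : ℕ) : Aut := (tr (3 * n) false).1
def VV (n : ℕ) : Aut := (tr (3 * n) true).2.1
def WW (n : ℕ) : Aut := (tr (3 * n) false).2.2

/-- the error: `(ab)^8` at the vertex `1^{3n} 0` -/
def rho (n : ℕ) : Aut := putAt (List.replicate (3 * n) true) (mk' false ((a * b) ^ 8) 1)

/-- constants used to fix the state: `(ab)^2` at the vertex `u` -/
def kap (u : List Bool) : Aut := putAt u (a * b * a * b)

/-- the initial condition -/
def Init (h X : Aut) : Prop := ∀ u : List Bool, u.length = 4 → u ≠ [true, true, true, true] →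
  (X * h⁻¹) * kap u = kap u * (X * h⁻¹)

/-- The initial condition fixes the portrait down to level three. -/
def T_init : Prop := ∀ h X : Aut, Init h X → ∀ v : List Bool, v.length ≤ 3 → X.p v = h.p v

/-- All that is needed about the truncated solutions. -/
def T_trunc : Prop :=
  State false (FF 2) (VV 2) (WW 2) ∧
  (∀ n, FF n ∈ G ∧ VV n ∈ G ∧ WW n ∈ G) ∧
  (∀ n, VV n * b = b * VV n ∧ WW n * c = c * WW n ∧ FF n * d = d * FF n) ∧
  (∀ n, (WW n * VV n * FF n * c * FF n) ^ 4 = rho n * (WW n * VV n * c) ^ 4 ∧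
    (VV n * FF n * WW n * b * WW n) ^ 4 = (VV n * FF n * b) ^ 4 ∧
    (FF n * WW n * VV n * d * VV n) ^ 4 = (FF n * WW n * d) ^ 4) ∧
  (∀ n, 2 ≤ n → Init (FF 2) (FF n) ∧ Init (VV 2) (VV n) ∧ Init (WW 2) (WW n))

/-- product of four double commutators with `w ^ g` in the middle -/
def prod4 (w g : Aut) (x y : Fin 4 → Aut) : Aut :=
  cm (cm (x 0) (cj w g)) (y 0) * cm (cm (x 1) (cj w g)) (y 1) *
  cm (cm (x 2) (cj w g)) (y 2) * cm (cm (x 3) (cj w g)) (y 3)

def T_prod : Prop := ∀ w ∈ G, w ≠ 1 → ∃ N : ℕ, ∀ n, N ≤ n → ∃ g ∈ G, ∃ x y : Fin 4 → Aut,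
  (∀ j, x j ∈ G ∧ y j ∈ G) ∧ rho n = prod4 w g x y

/-! ## Finite `2`-groups in `G`; residual nilpotency (jobs GRI-6, GRI-7) -/

def T_embed : Prop := ∀ (P : Type) [Group P] [Finite P], IsPGroup 2 P →
  ∃ θ : P →* Aut, Function.Injective θ ∧ ∀ x, θ x ∈ G

def T_resid : Prop := ∀ g : Aut, (∀ n, g ∈ (⊤ : Subgroup Aut).lowerCentralSeries n) → g = 1

/-! ## Two-counter machines (jobs GRI-8 to GRI-12) -/

/-- Instructions of a two-counter machine with `n` states; `false` is the first counter. -/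
inductive Instr (n : ℕ) where
  | halt : Instr n
  | inc (r : Bool) (j : Fin n) : Instr n
  | dec (r : Bool) (j k : Fin n) : Instr n

/-- One step: `inc r j` increments counter `r` and goes to `j`; `dec r j k` goes to `k` if counter
`r` is zero, and otherwise decrements it and goes to `j`. -/
def step {n : ℕ} (M : Fin n → Instr n) (x : Fin n × ℕ × ℕ) : Option (Fin n × ℕ × ℕ) :=
  match M x.1 with
  | .halt => none
  | .inc false j => some (j, x.2.1 + 1, x.2.2)
  | .inc true j => some (j, x.2.1, x.2.2 + 1)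
  | .dec false j k => if x.2.1 = 0 then some (k, x.2.1, x.2.2) else some (j, x.2.1 - 1, x.2.2)
  | .dec true j k => if x.2.2 = 0 then some (k, x.2.1, x.2.2) else some (j, x.2.1, x.2.2 - 1)

def run {n : ℕ} (M : Fin n → Instr n) (x : Fin n × ℕ × ℕ) : ℕ → Option (Fin n × ℕ × ℕ)
  | 0 => some x
  | k + 1 => (run M x k).bind (step M)

def Halts {n : ℕ} (M : Fin n → Instr n) (x : Fin n × ℕ × ℕ) : Prop := ∃ k, run M x k = none

/-- index of the direction of a counter -/
def dir (r : Bool) : Fin 3 := bif r then 1 else 0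

/-- the monomial `t₀^{u₀} t₁^{u₁} t₂^{u₂}` -/
def mono {P : Type*} [Group P] (t : Fin 3 → P) (u : Fin 3 → Fin 3) : P :=
  t 0 ^ (u 0 : ℕ) * t 1 ^ (u 1 : ℕ) * t 2 ^ (u 2 : ℕ)

/-- relation of one instruction -/
def InstrRel {n : ℕ} {P : Type*} [Group P] (q : Fin n → P) (t : Fin 3 → P) (e : Bool → P)
    (i : Fin n) : Instr n → Prop
  | .halt => True
  | .inc r j => q i = cm (cm (q j) (t (dir r))) (t 2)
  | .dec r j k => cm (q i) (t (dir r)) = cm (q j) (t 2) ∧
      ((q i)⁻¹ * cm (q k) (t 2)) * e r = e r * ((q i)⁻¹ * cm (q k) (t 2))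

/-- The group relations attached to a machine. -/
structure Rel {n : ℕ} (M : Fin n → Instr n) {P : Type*} [Group P] (q : Fin n → P)
    (t s : Fin 3 → P) (e : Bool → P) : Prop where
  tt : ∀ i j, t i * t j = t j * t i
  ts : ∀ i j, t i * s j = s j * t i
  e0 : ∀ i : Fin 3, i ≠ 0 → t i * e false = e false * t i
  e1 : ∀ i : Fin 3, i ≠ 1 → t i * e true = e true * t i
  ee : e false * e true = e true * e false
  bs : ∀ i r, cj (q i) (s r) = q i * cj (q i) (t r) * cj (q i) (t r ^ 2)
  qq : ∀ i j (u v : Fin 3 → Fin 3),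
    cj (q i) (mono t u) * cj (q j) (mono t v) = cj (q j) (mono t v) * cj (q i) (mono t u)
  ins : ∀ i, InstrRel q t e i (M i)

/-- the start vector `∂₀^N q` -/
def startVec {P : Type*} [Group P] (x t0 : P) : ℕ → P
  | 0 => x
  | k + 1 => cm (startVec x t0 k) t0

/-- the test element -/
def testEl {P : Type*} [Group P] (x t0 : P) (e : Bool → P) (N : ℕ) : P :=
  cm (cm (startVec x t0 N) (e false)) (e true)

/-- GRI-8: if the machine runs for ever, the test element is in all terms of the lower central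
series. -/
def T_run : Prop := ∀ (n : ℕ) (M : Fin n → Instr n) (P : Type) [Group P] (q : Fin n → P)
  (t s : Fin 3 → P) (e : Bool → P), Rel M q t s e → ∀ (i0 : Fin n) (N : ℕ),
  ¬ Halts M (i0, N, 0) → ∀ k, testEl (q i0) (t 0) e N ∈ (⊤ : Subgroup P).lowerCentralSeries k

/-- GRI-9: if the machine halts, a finite `2`-group satisfies the relations and the test element
is nontrivial in it. -/
def T_model : Prop := ∀ (n : ℕ) (M : Fin n → Instr n) (i0 : Fin n) (N : ℕ),
  Halts M (i0, N, 0) → ∃ (P : Type) (_ : Group P) (_ : Finite P) (q : Fin n → P)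
  (t s : Fin 3 → P) (e : Bool → P), IsPGroup 2 P ∧ Rel M q t s e ∧ testEl (q i0) (t 0) e N ≠ 1

/-! ### Programs -/

/-- `while`-programs on registers indexed by `ℕ` -/
inductive Prog where
  | inc (r : ℕ) : Prog
  | dec (r : ℕ) : Prog
  | seq (P Q : Prog) : Prog
  | loop (r : ℕ) (P : Prog) : Prog

/-- big-step semantics -/
inductive Exec : Prog → (ℕ → ℕ) → (ℕ → ℕ) → Prop
  | inc (r : ℕ) (s : ℕ → ℕ) : Exec (.inc r) s (Function.update s r (s r + 1))
  | dec (r : ℕ) (s : ℕ → ℕ) : Exec (.dec r) s (Function.update s r (s r - 1))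
  | seq {P Q : Prog} {s s' s'' : ℕ → ℕ} (h : Exec P s s') (h' : Exec Q s' s'') :
      Exec (.seq P Q) s s''
  | loop0 {r : ℕ} {P : Prog} {s : ℕ → ℕ} (h : s r = 0) : Exec (.loop r P) s s
  | loopS {r : ℕ} {P : Prog} {s s' s'' : ℕ → ℕ} (h : s r ≠ 0) (h' : Exec P s s')
      (h'' : Exec (.loop r P) s' s'') : Exec (.loop r P) s s''

/-- the state with `x` in register `0`, `y` in register `1` and zero elsewhere -/
def st2 (x y : ℕ) : ℕ → ℕ := fun r => if r = 0 then x else if r = 1 then y else 0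

def Prog.Halt (P : Prog) (s : ℕ → ℕ) : Prop := ∃ s', Exec P s s'

/-- the program only mentions the registers `0` and `1` -/
def Prog.Two : Prog → Prop
  | .inc r => r < 2
  | .dec r => r < 2
  | .seq P Q => P.Two ∧ Q.Two
  | .loop r P => r < 2 ∧ P.Two

/-- GRI-10: an undecidable program. -/
def T_prog : Prop := ∃ P : Prog, ¬ ComputablePred (fun x : ℕ => P.Halt (st2 x 0))

/-- GRI-12: from two-register programs to two-counter machines. -/
def T_flat : Prop := ∀ Q : Prog, Q.Two → ∃ (n : ℕ) (M : Fin n → Instr n) (i0 : Fin n),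
  ∀ x y : ℕ, (Q.Halt (st2 x y) ↔ Halts M (i0, x, y))

end Pool.Agent.Grig
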