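import Mathlib

set_option autoImplicit false

/-!
# The group of automorphisms of the rooted binary tree and the Grigorchuk group

An automorphism is given by its portrait `p : List Bool → Bool`: `p v` tells whether the section
at the vertex `v` swaps its two children.  The product `g * h` acts as `g` after `h`.
-/

namespace Pool.Agent.Grig

/-- Automorphisms of the rooted binary tree, given by their portraits. -/
@[ext] structure Aut where
  /-- the activity at each vertex -/
  p : List Bool → Bool

namespace Aut

/-- activity at the root -/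
def act (g : Aut) : Bool := g.p []

/-- section at the vertex `x` of level one -/
def sec (g : Aut) (x : Bool) : Aut := ⟨fun w => g.p (x :: w)⟩

/-- the automorphism with given activity at the root and given sections -/
def mk' (e : Bool) (g0 g1 : Aut) : Aut :=
  ⟨fun w => match w with
    | [] => e
    | false :: w => g0.p w
    | true :: w => g1.p w⟩

/-- action on words -/
def app : Aut → List Bool → List Bool
  | _, [] => []
  | g, x :: w => (xor x g.act) :: app (g.sec x) w

/-- action of the inverse on words -/
def appInv : Aut → List Bool → List Bool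
  | _, [] => []
  | g, x :: w => (xor x g.act) :: appInv (g.sec (xor x g.act)) w

instance : One Aut := ⟨⟨fun _ => false⟩⟩
instance : Mul Aut := ⟨fun g h => ⟨fun w => xor (g.p (h.app w)) (h.p w)⟩⟩
instance : Inv Aut := ⟨fun g => ⟨fun w => g.p (g.appInv w)⟩⟩

@[simp] theorem act_mk' (e : Bool) (g0 g1 : Aut) : (mk' e g0 g1).act = e := rfl
@[simp] theorem sec_mk'_false (e : Bool) (g0 g1 : Aut) : (mk' e g0 g1).sec false = g0 := rfl
@[simp] theorem sec_mk'_true (e : Bool) (g0 g1 : Aut) : (mk' e g0 g1).sec true = g1 := rfl
@[simp] theorem act_one : (1 : Aut).act = false := rfl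
@[simp] theorem sec_one (x : Bool) : (1 : Aut).sec x = 1 := rfl

theorem ext' {g h : Aut} (ha : g.act = h.act) (h0 : g.sec false = h.sec false)
    (h1 : g.sec true = h.sec true) : g = h := by
  apply Aut.ext
  funext w
  match w with
  | [] => exact ha
  | false :: w => exact congrFun (congrArg Aut.p h0) w
  | true :: w => exact congrFun (congrArg Aut.p h1) w

theorem eq_mk' (g : Aut) : g = mk' g.act (g.sec false) (g.sec true) :=
  ext' rfl rfl rfl

theorem mk'_inj {e e' : Bool} {g0 g1 h0 h1 : Aut} :
    mk' e g0 g1 = mk' e' h0 h1 ↔ e = e' ∧ g0 = h0 ∧ g1 = h1 := by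
  constructor
  · intro h
    exact ⟨congrArg Aut.act h, congrArg (fun g => Aut.sec g false) h,
      congrArg (fun g => Aut.sec g true) h⟩
  · rintro ⟨rfl, rfl, rfl⟩; rfl

@[simp] theorem app_nil (g : Aut) : g.app [] = [] := rfl
@[simp] theorem app_cons (g : Aut) (x : Bool) (w : List Bool) :
    g.app (x :: w) = (xor x g.act) :: (g.sec x).app w := rfl
@[simp] theorem appInv_nil (g : Aut) : g.appInv [] = [] := rfl
@[simp] theorem appInv_cons (g : Aut) (x : Bool) (w : List Bool) :
    g.appInv (x :: w) = (xor x g.act) :: (g.sec (xor x g.act)).appInv w := rfl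

@[simp] theorem length_app (g : Aut) (w : List Bool) : (g.app w).length = w.length := by
  induction w generalizing g with
  | nil => rfl
  | cons x w ih => simp [ih]

@[simp] theorem act_mul (g h : Aut) : (g * h).act = xor g.act h.act := rfl

theorem sec_mul (g h : Aut) (x : Bool) :
    (g * h).sec x = g.sec (xor x h.act) * h.sec x := rfl

@[simp] theorem app_one (w : List Bool) : (1 : Aut).app w = w := by
  induction w with
  | nil => rfl
  | cons x w ih => simp [ih]

theorem app_mul (g h : Aut) (w : List Bool) : (g * h).app w = g.app (h.app w) := by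
  induction w generalizing g h with
  | nil => rfl
  | cons x w ih =>
    simp only [app_cons, act_mul, sec_mul, ih]
    congr 1
    cases x <;> cases g.act <;> cases h.act <;> rfl

theorem appInv_app (g : Aut) (w : List Bool) : g.appInv (g.app w) = w := by
  induction w generalizing g with
  | nil => rfl
  | cons x w ih =>
    have e : xor (xor x g.act) g.act = x := by cases x <;> cases g.act <;> rfl
    simp only [app_cons, appInv_cons, e, ih]

theorem app_appInv (g : Aut) (w : List Bool) : g.app (g.appInv w) = w := by
  induction w generalizing g with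
  | nil => rfl
  | cons x w ih =>
    have e : xor (xor x g.act) g.act = x := by cases x <;> cases g.act <;> rfl
    simp only [app_cons, appInv_cons, e, ih]

theorem p_mul (g h : Aut) (w : List Bool) : (g * h).p w = xor (g.p (h.app w)) (h.p w) := rfl

instance : Group Aut where
  mul_assoc f g h := by
    apply Aut.ext
    funext w
    simp only [p_mul, app_mul, Bool.xor_assoc]
  one_mul g := by
    apply Aut.ext
    funext w
    simp only [p_mul]
    change xor false (g.p w) = g.p w
    simp
  mul_one g := by
    apply Aut.ext
    funext w
    simp only [p_mul, app_one]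
    change xor (g.p w) false = g.p w
    simp
  inv_mul_cancel g := by
    apply Aut.ext
    funext w
    simp only [p_mul]
    change xor (g.p (g.appInv (g.app w))) (g.p w) = false
    rw [appInv_app]
    simp

theorem p_inv (g : Aut) (w : List Bool) : (g⁻¹).p w = g.p (g.appInv w) := rfl

@[simp] theorem act_inv (g : Aut) : (g⁻¹).act = g.act := rfl

theorem sec_inv (g : Aut) (x : Bool) : (g⁻¹).sec x = (g.sec (xor x g.act))⁻¹ := by
  apply Aut.ext
  funext w
  rfl

theorem app_inv (g : Aut) (w : List Bool) : (g⁻¹).app w = g.appInv w := by
  have h : g.app ((g⁻¹).app w) = w := by rw [← app_mul]; simp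
  calc (g⁻¹).app w = g.appInv (g.app ((g⁻¹).app w)) := (appInv_app g _).symm
    _ = g.appInv w := by rw [h]

/-- The action on words as a homomorphism to permutations. -/
def toPerm : Aut →* Equiv.Perm (List Bool) where
  toFun g := ⟨g.app, (g⁻¹).app, fun w => by rw [← app_mul]; simp, fun w => by rw [← app_mul]; simp⟩
  map_one' := by ext w : 1; exact app_one w
  map_mul' g h := by ext w : 1; exact app_mul g h w

@[simp] theorem toPerm_apply (g : Aut) (w : List Bool) : toPerm g w = g.app w := rfl

theorem app_append (g : Aut) (v : List Bool) (x : Bool) :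
    g.app (v ++ [x]) = g.app v ++ [xor x (g.p v)] := by
  induction v generalizing g with
  | nil => simp [act]
  | cons y v ih =>
    simp only [List.cons_append, app_cons, ih]
    rfl

theorem toPerm_injective : Function.Injective toPerm := by
  intro g h hgh
  apply Aut.ext
  funext v
  have h1 : g.app (v ++ [false]) = h.app (v ++ [false]) :=
    congrArg (fun σ : Equiv.Perm (List Bool) => σ (v ++ [false])) hgh
  have h2 : g.app v = h.app v := congrArg (fun σ : Equiv.Perm (List Bool) => σ v) hgh
  rw [app_append, app_append, h2] at h1
  simpa using h1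

/-- section at a vertex of any level -/
def secs : Aut → List Bool → Aut
  | g, [] => g
  | g, x :: w => secs (g.sec x) w

@[simp] theorem secs_nil (g : Aut) : g.secs [] = g := rfl
@[simp] theorem secs_cons (g : Aut) (x : Bool) (w : List Bool) :
    g.secs (x :: w) = (g.sec x).secs w := rfl

theorem secs_append (g : Aut) (v w : List Bool) : g.secs (v ++ w) = (g.secs v).secs w := by
  induction v generalizing g with
  | nil => rfl
  | cons x v ih => simp [ih]

theorem secs_mul (g h : Aut) (v : List Bool) :
    (g * h).secs v = g.secs (h.app v) * h.secs v := by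
  induction v generalizing g h with
  | nil => rfl
  | cons x v ih => simp [sec_mul, ih]

theorem secs_act (g : Aut) (v : List Bool) : (g.secs v).act = g.p v := by
  induction v generalizing g with
  | nil => rfl
  | cons x v ih => simp only [secs_cons, ih]; rfl

@[simp] theorem secs_one (v : List Bool) : (1 : Aut).secs v = 1 := by
  induction v with
  | nil => rfl
  | cons x v ih => simp [ih]

/-- the automorphism acting as `g` below the vertex `v` and trivially elsewhere -/
def putAt : List Bool → Aut → Aut
  | [], g => g
  | false :: v, g => mk' false (putAt v g) 1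
  | true :: v, g => mk' false 1 (putAt v g)

theorem mk'_mul (e e' : Bool) (g0 g1 h0 h1 : Aut) :
    mk' e g0 g1 * mk' e' h0 h1 =
      mk' (xor e e') ((bif e' then g1 else g0) * h0) ((bif e' then g0 else g1) * h1) := by
  apply ext'
  · rfl
  · cases e' <;> rfl
  · cases e' <;> rfl

theorem mk'_one : mk' false 1 1 = 1 := ext' rfl rfl rfl

theorem mk'_false_mul (g0 g1 h0 h1 : Aut) :
    mk' false g0 g1 * mk' false h0 h1 = mk' false (g0 * h0) (g1 * h1) := by
  rw [mk'_mul]; rfl

theorem mk'_false_inv (g0 g1 : Aut) : (mk' false g0 g1)⁻¹ = mk' false g0⁻¹ g1⁻¹ := by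
  rw [inv_eq_iff_mul_eq_one, mk'_false_mul]; simp [mk'_one]

theorem mk'_false_pow (g0 g1 : Aut) (n : ℕ) : (mk' false g0 g1) ^ n = mk' false (g0 ^ n) (g1 ^ n) := by
  induction n with
  | zero => simp [mk'_one]
  | succ n ih => rw [pow_succ, ih, mk'_false_mul, pow_succ, pow_succ]

/-- `g ↦ mk' false g h` etc. as homomorphisms: `putAt v` is a homomorphism. -/
def putAtHom (v : List Bool) : Aut →* Aut where
  toFun := putAt v
  map_one' := by
    induction v with
    | nil => rfl
    | cons x v ih => cases x <;> simp [putAt, ih, mk'_one]
  map_mul' g h := by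
    induction v with
    | nil => rfl
    | cons x v ih => cases x <;> simp [putAt, ih, mk'_false_mul]

@[simp] theorem putAtHom_apply (v : List Bool) (g : Aut) : putAtHom v g = putAt v g := rfl

theorem putAt_mul (v : List Bool) (g h : Aut) : putAt v (g * h) = putAt v g * putAt v h :=
  map_mul (putAtHom v) g h

@[simp] theorem putAt_one (v : List Bool) : putAt v 1 = 1 := map_one (putAtHom v)

theorem putAt_inv (v : List Bool) (g : Aut) : putAt v g⁻¹ = (putAt v g)⁻¹ :=
  map_inv (putAtHom v) g

@[simp] theorem putAt_nil (g : Aut) : putAt [] g = g := rfl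
theorem putAt_false (v : List Bool) (g : Aut) : putAt (false :: v) g = mk' false (putAt v g) 1 := rfl
theorem putAt_true (v : List Bool) (g : Aut) : putAt (true :: v) g = mk' false 1 (putAt v g) := rfl

theorem putAt_injective (v : List Bool) : Function.Injective (putAt v) := by
  induction v with
  | nil => exact fun _ _ h => h
  | cons x v ih =>
    intro g h hgh
    cases x
    · exact ih (congrArg (fun g => Aut.sec g false) hgh)
    · exact ih (congrArg (fun g => Aut.sec g true) hgh)

/-! ### Level sums -/

/-- parity of the activities on level `j` -/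
def lam : ℕ → Aut → Bool
  | 0, g => g.act
  | j + 1, g => xor (lam j (g.sec false)) (lam j (g.sec true))

@[simp] theorem lam_zero (g : Aut) : lam 0 g = g.act := rfl
theorem lam_succ (j : ℕ) (g : Aut) :
    lam (j + 1) g = xor (lam j (g.sec false)) (lam j (g.sec true)) := rfl

@[simp] theorem lam_one' (j : ℕ) : lam j 1 = false := by
  induction j with
  | zero => rfl
  | succ j ih => simp [lam_succ, ih]

@[simp] theorem lam_mul (j : ℕ) (g h : Aut) : lam j (g * h) = xor (lam j g) (lam j h) := by
  induction j generalizing g h with
  | zero => rfl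
  | succ j ih =>
    simp only [lam_succ, sec_mul, ih]
    cases h.act <;> simp only [Bool.xor_false, Bool.xor_true, Bool.not_false, Bool.not_true] <;>
    cases lam j (g.sec false) <;> cases lam j (g.sec true) <;>
    cases lam j (h.sec false) <;> cases lam j (h.sec true) <;> rfl

@[simp] theorem lam_inv (j : ℕ) (g : Aut) : lam j g⁻¹ = lam j g := by
  have h := lam_mul j g g⁻¹
  rw [mul_inv_cancel, lam_one'] at h
  revert h
  cases lam j g <;> cases lam j g⁻¹ <;> simp

theorem lam_mk' (j : ℕ) (e : Bool) (g0 g1 : Aut) :
    lam (j + 1) (mk' e g0 g1) = xor (lam j g0) (lam j g1) := rfl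

/-- The class of `g` in the dihedral group of order eight: activity at the root and `lam 2` of the
two sections. -/
def D (g : Aut) : Bool × Bool × Bool := (g.act, lam 2 (g.sec false), lam 2 (g.sec true))

/-- The outer automorphism of the dihedral group exchanging the classes of `a` and `d`. -/
def phi (t : Bool × Bool × Bool) : Bool × Bool × Bool :=
  (xor t.2.1 t.2.2, xor t.2.1 (t.1 && xor t.2.1 t.2.2),
    xor (xor t.2.1 (t.1 && xor t.2.1 t.2.2)) t.1)

/-- multiplication of the dihedral group in the coordinates of `D` -/
def Dmul (t u : Bool × Bool × Bool) : Bool × Bool × Bool :=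
  (xor t.1 u.1, xor (bif u.1 then t.2.2 else t.2.1) u.2.1,
    xor (bif u.1 then t.2.1 else t.2.2) u.2.2)

theorem D_mul (g h : Aut) : D (g * h) = Dmul (D g) (D h) := by
  simp only [D, Dmul, act_mul, sec_mul, lam_mul]
  cases h.act <;> rfl

@[simp] theorem D_one : D 1 = (false, false, false) := rfl

theorem phi_Dmul : ∀ t u : Bool × Bool × Bool, phi (Dmul t u) = Dmul (phi t) (phi u) := by decide
theorem phi_phi : ∀ t : Bool × Bool × Bool, phi (phi t) = t := by decide

end Aut

open Aut

/-! ### The generators -/

/-- the automorphism exchanging the two subtrees -/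
def a : Aut := mk' true 1 1

/-- portraits of `b`, `c`, `d` (states `0`, `1`, `2`) -/
def gport : Fin 3 → List Bool → Bool
  | _, [] => false
  | s, false :: w => if s = 2 then false else a.p w
  | s, true :: w => gport (s + 1) w

def b : Aut := ⟨gport 0⟩
def c : Aut := ⟨gport 1⟩
def d : Aut := ⟨gport 2⟩

theorem b_eq : b = mk' false a c := by
  apply ext' <;> rfl
theorem c_eq : c = mk' false a d := by
  apply ext' <;> rfl
theorem d_eq : d = mk' false 1 b := by
  apply ext' <;> rfl

@[simp] theorem act_a : a.act = true := rfl
@[simp] theorem sec_a (x : Bool) : a.sec x = 1 := by cases x <;> rfl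
@[simp] theorem act_b : b.act = false := rfl
@[simp] theorem act_c : c.act = false := rfl
@[simp] theorem act_d : d.act = false := rfl
@[simp] theorem b_false : b.sec false = a := rfl
@[simp] theorem b_true : b.sec true = c := rfl
@[simp] theorem c_false : c.sec false = a := rfl
@[simp] theorem c_true : c.sec true = d := rfl
@[simp] theorem d_false : d.sec false = 1 := rfl
@[simp] theorem d_true : d.sec true = b := rfl

@[simp] theorem a_mul_a : a * a = 1 := by
  apply ext' <;> simp [sec_mul]

theorem bcd_sq (w : List Bool) : (b * b).p w = false ∧ (c * c).p w = false ∧ (d * d).p w = false := by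
  induction w with
  | nil => exact ⟨rfl, rfl, rfl⟩
  | cons x w ih =>
    cases x
    · refine ⟨?_, ?_, ?_⟩
      · change ((b * b).sec false).p w = false
        rw [sec_mul]; simp; rfl
      · change ((c * c).sec false).p w = false
        rw [sec_mul]; simp; rfl
      · change ((d * d).sec false).p w = false
        rw [sec_mul]; simp; rfl
    · refine ⟨?_, ?_, ?_⟩
      · change ((b * b).sec true).p w = false
        rw [sec_mul]; simpa using ih.2.1
      · change ((c * c).sec true).p w = false
        rw [sec_mul]; simpa using ih.2.2
      · change ((d * d).sec true).p w = false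
        rw [sec_mul]; simpa using ih.1

@[simp] theorem b_mul_b : b * b = 1 := Aut.ext (funext fun w => (bcd_sq w).1)
@[simp] theorem c_mul_c : c * c = 1 := Aut.ext (funext fun w => (bcd_sq w).2.1)
@[simp] theorem d_mul_d : d * d = 1 := Aut.ext (funext fun w => (bcd_sq w).2.2)

@[simp] theorem a_inv : a⁻¹ = a := inv_eq_of_mul_eq_one_left a_mul_a
@[simp] theorem b_inv : b⁻¹ = b := inv_eq_of_mul_eq_one_left b_mul_b
@[simp] theorem c_inv : c⁻¹ = c := inv_eq_of_mul_eq_one_left c_mul_c
@[simp] theorem d_inv : d⁻¹ = d := inv_eq_of_mul_eq_one_left d_mul_d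

theorem bcd_rel (w : List Bool) :
    (b * c).p w = d.p w ∧ (c * d).p w = b.p w ∧ (d * b).p w = c.p w := by
  induction w with
  | nil => exact ⟨rfl, rfl, rfl⟩
  | cons x w ih =>
    cases x
    · refine ⟨?_, ?_, ?_⟩
      · change ((b * c).sec false).p w = (d.sec false).p w
        rw [sec_mul]; simp
      · change ((c * d).sec false).p w = (b.sec false).p w
        rw [sec_mul]; simp
      · change ((d * b).sec false).p w = (c.sec false).p w
        rw [sec_mul]; simp
    · refine ⟨?_, ?_, ?_⟩
      · change ((b * c).sec true).p w = (d.sec true).p w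
        rw [sec_mul]; simpa using ih.2.1
      · change ((c * d).sec true).p w = (b.sec true).p w
        rw [sec_mul]; simpa using ih.2.2
      · change ((d * b).sec true).p w = (c.sec true).p w
        rw [sec_mul]; simpa using ih.1

theorem b_mul_c : b * c = d := Aut.ext (funext fun w => (bcd_rel w).1)
theorem c_mul_d : c * d = b := Aut.ext (funext fun w => (bcd_rel w).2.1)
theorem d_mul_b : d * b = c := Aut.ext (funext fun w => (bcd_rel w).2.2)
theorem c_mul_b : c * b = d := by
  have h := congrArg (·⁻¹) b_mul_c; simpa using h
theorem d_mul_c : d * c = b := by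
  have h := congrArg (·⁻¹) c_mul_d; simpa using h
theorem b_mul_d : b * d = c := by
  have h := congrArg (·⁻¹) d_mul_b; simpa using h

/-- `z = (ad)² = (b, b)` -/
def z : Aut := a * d * a * d

theorem z_eq : z = mk' false b b := by
  apply ext' <;> simp [z, sec_mul]

@[simp] theorem act_z : z.act = false := rfl
@[simp] theorem z_false : z.sec false = b := by rw [z_eq]; rfl
@[simp] theorem z_true : z.sec true = b := by rw [z_eq]; rfl
@[simp] theorem z_mul_z : z * z = 1 := by
  apply ext' <;> simp [sec_mul]
theorem a_mul_z : a * z = z * a := by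
  apply ext' <;> simp [sec_mul]
theorem d_mul_z : d * z = z * d := by
  apply ext' <;> simp [sec_mul]

/-- The Grigorchuk group. -/
def G : Subgroup Aut := Subgroup.closure {a, b, c, d}

theorem a_mem : a ∈ G := Subgroup.subset_closure (by simp)
theorem b_mem : b ∈ G := Subgroup.subset_closure (by simp)
theorem c_mem : c ∈ G := Subgroup.subset_closure (by simp)
theorem d_mem : d ∈ G := Subgroup.subset_closure (by simp)
theorem z_mem : z ∈ G :=
  G.mul_mem (G.mul_mem (G.mul_mem a_mem d_mem) a_mem) d_mem

/-- Induction principle: left multiplication by generators. -/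
theorem G_induction {P : Aut → Prop} (h1 : P 1)
    (hs : ∀ s ∈ ({a, b, c, d} : Set Aut), ∀ g ∈ G, P g → P (s * g)) :
    ∀ g ∈ G, P g := by
  intro g hg
  have hG : G = Subgroup.closure {a, b, c, d} := rfl
  rw [hG] at hg
  induction hg using Subgroup.closure_induction_left with
  | one => exact h1
  | mul_left x hx y hy ih => exact hs x hx y hy ih
  | inv_mul_cancel x hx y hy ih =>
    have hx' : x⁻¹ = x := by
      simp only [Set.mem_insert_iff, Set.mem_singleton_iff] at hx
      rcases hx with rfl | rfl | rfl | rfl <;> simp
    rw [hx']
    exact hs x hx y hy ih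

end Pool.Agent.Grig
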