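import Pool.Agent.Grig.Targets

/-!
# Compiling programs to two-counter machines (Goedel coding by primes)

`p_comp : T_comp` replaces the targets `T_godel` and `T_flat`.
-/

set_option autoImplicit false

namespace Pool.Agent.Grig

/-- Every program is simulated by a two-counter machine started with `2 ^ x` in the first
counter. -/
def T_comp : Prop := ∀ P : Prog, ∃ (n : ℕ) (M : Fin n → Instr n) (i0 : Fin n), ∀ x : ℕ,
  (P.Halt (st2 x 0) ↔ Halts M (i0, 2 ^ x, 0))

namespace Comp

/-- instructions with addresses in `ℕ` -/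
inductive NI where
  | inc (r : Bool) (j : ℕ) : NI
  | dec (r : Bool) (j k : ℕ) : NI

/-- one step; outside the list the state does not change -/
def stp (L : List NI) (c : ℕ × ℕ × ℕ) : ℕ × ℕ × ℕ :=
  match L[c.1]? with
  | none => c
  | some (.inc false j) => (j, c.2.1 + 1, c.2.2)
  | some (.inc true j) => (j, c.2.1, c.2.2 + 1)
  | some (.dec false j k) => if c.2.1 = 0 then (k, c.2.1, c.2.2) else (j, c.2.1 - 1, c.2.2)
  | some (.dec true j k) => if c.2.2 = 0 then (k, c.2.1, c.2.2) else (j, c.2.1, c.2.2 - 1)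

/-- reachable in a positive number of steps -/
def R (L : List NI) (c c' : ℕ × ℕ × ℕ) : Prop := ∃ k, 0 < k ∧ (stp L)^[k] c = c'

theorem R.trans {L : List NI} {c c' c'' : ℕ × ℕ × ℕ} (h : R L c c') (h' : R L c' c'') :
    R L c c'' := by
  obtain ⟨k, hk, h1⟩ := h
  obtain ⟨l, hl, h2⟩ := h'
  exact ⟨l + k, by omega, by rw [Function.iterate_add_apply, h1, h2]⟩

theorem R.one {L : List NI} {c c' : ℕ × ℕ × ℕ} (h : stp L c = c') : R L c c' :=
  ⟨1, one_pos, h⟩

theorem R.head {L : List NI} {c c' c'' : ℕ × ℕ × ℕ} (h : stp L c = c') (h' : R L c' c'') :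
    R L c c'' := (R.one h).trans h'

/-- the code `C` is placed at address `b` -/
def Placed (L : List NI) (b : ℕ) (C : List NI) : Prop := ∀ i, i < C.length → L[b + i]? = C[i]?

theorem Placed.left {L : List NI} {b : ℕ} {C D : List NI} (h : Placed L b (C ++ D)) :
    Placed L b C := by
  intro i hi
  rw [h i (by rw [List.length_append]; omega), List.getElem?_append_left hi]

theorem Placed.right {L : List NI} {b : ℕ} {C D : List NI} (h : Placed L b (C ++ D)) :
    Placed L (b + C.length) D := by
  intro i hi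
  rw [add_assoc, h (C.length + i) (by rw [List.length_append]; omega),
    List.getElem?_append_right (by omega)]
  congr 1
  omega

theorem Placed.get {L : List NI} {b : ℕ} {C : List NI} (h : Placed L b C) {i : ℕ} {x : NI}
    (hx : C[i]? = some x) : L[b + i]? = some x := by
  have hi : i < C.length := by
    by_contra hcon
    rw [List.getElem?_eq_none (by omega)] at hx
    exact absurd hx (by simp)
  rw [h i hi, hx]

theorem Placed.head {L : List NI} {b : ℕ} {x : NI} {C : List NI} (h : Placed L b (x :: C)) :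
    L[b]? = some x := h.get (i := 0) (by simp)

theorem Placed.tail {L : List NI} {b : ℕ} {x : NI} {C : List NI} (h : Placed L b (x :: C)) :
    Placed L (b + 1) C := by
  have h' : Placed L b ([x] ++ C) := h
  exact h'.right

/-- the configuration with `a` in register `r` and `m` in the other one -/
def cf (r : Bool) (pc a m : ℕ) : ℕ × ℕ × ℕ := if r then (pc, m, a) else (pc, a, m)

theorem stp_inc {L : List NI} {pc : ℕ} {r : Bool} {j : ℕ} (h : L[pc]? = some (.inc r j))
    (a m : ℕ) : stp L (cf r pc a m) = cf r j (a + 1) m := by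
  cases r <;> simp [cf, stp, h]

theorem stp_inc' {L : List NI} {pc : ℕ} {r : Bool} {j : ℕ} (h : L[pc]? = some (.inc (!r) j))
    (a m : ℕ) : stp L (cf r pc a m) = cf r j a (m + 1) := by
  cases r <;> simp [cf, stp] <;> simp_all

theorem stp_dec0 {L : List NI} {pc : ℕ} {r : Bool} {j k : ℕ} (h : L[pc]? = some (.dec r j k))
    (m : ℕ) : stp L (cf r pc 0 m) = cf r k 0 m := by
  cases r <;> simp [cf, stp, h]

theorem stp_decS {L : List NI} {pc : ℕ} {r : Bool} {j k : ℕ} (h : L[pc]? = some (.dec r j k))
    (a m : ℕ) : stp L (cf r pc (a + 1) m) = cf r j a m := by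
  cases r <;> simp [cf, stp, h]

/-- `p` increments of `r`, starting at address `c`, then jump to `e` -/
def incs (r : Bool) (c e : ℕ) : ℕ → List NI
  | 0 => []
  | 1 => [.inc r e]
  | p + 2 => .inc r (c + 1) :: incs r (c + 1) e (p + 1)

theorem length_incs (r : Bool) (c e p : ℕ) : (incs r c e p).length = p := by
  induction p using Nat.strong_induction_on generalizing c with
  | _ p ih =>
    match p with
    | 0 => rfl
    | 1 => rfl
    | p + 2 => rw [incs, List.length_cons, ih (p + 1) (by omega)]

theorem incs_spec {L : List NI} (r : Bool) (e : ℕ) (p : ℕ) :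
    ∀ (c a m : ℕ), Placed L c (incs (!r) c e (p + 1)) →
      R L (cf r c a m) (cf r e a (m + (p + 1))) := by
  induction p with
  | zero =>
    intro c a m h
    have h1 : L[c]? = some (.inc (!r) e) := h.head
    exact R.one (stp_inc' h1 a m)
  | succ p ih =>
    intro c a m h
    have h1 : L[c]? = some (.inc (!r) (c + 1)) := h.head
    refine R.head (stp_inc' h1 a m) ?_
    have h2 := ih (c + 1) a (m + 1) h.tail
    have h3 : m + 1 + (p + 1) = m + (p + 1 + 1) := by ring
    rw [h3] at h2
    exact h2

/-- empty register `r`, adding `p` to the other one for each unit; then jump to `k` -/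
def xfer (r : Bool) (c k p : ℕ) : List NI := .dec r (c + 1) k :: incs (!r) (c + 1) c p

theorem length_xfer (r : Bool) (c k p : ℕ) : (xfer r c k p).length = p + 1 := by
  rw [xfer, List.length_cons, length_incs]

theorem xfer_spec {L : List NI} (r : Bool) (c k p : ℕ) (hp : 0 < p)
    (h : Placed L c (xfer r c k p)) (a m : ℕ) :
    R L (cf r c a m) (cf r k 0 (m + p * a)) := by
  obtain ⟨q, rfl⟩ : ∃ q, p = q + 1 := ⟨p - 1, by omega⟩
  have h1 : L[c]? = some (.dec r (c + 1) k) := h.head
  induction a generalizing m with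
  | zero => exact R.one (stp_dec0 h1 m)
  | succ a ih =>
    refine R.head (stp_decS h1 a m) ?_
    refine (incs_spec r c q (c + 1) a m h.tail).trans ?_
    have h2 := ih (m + (q + 1))
    have h3 : m + (q + 1) + (q + 1) * a = m + (q + 1) * (a + 1) := by ring
    rw [h3] at h2
    exact h2

/-- multiply register `0` by `p` -/
def mul (p b : ℕ) : List NI :=
  xfer false b (b + p + 1) p ++ xfer true (b + p + 1) (b + p + 3) 1

theorem length_mul (p b : ℕ) : (mul p b).length = p + 3 := by
  rw [mul, List.length_append, length_xfer, length_xfer]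

theorem mul_spec {L : List NI} {p b : ℕ} (hp : 0 < p) (h : Placed L b (mul p b)) (N : ℕ) :
    R L (b, N, 0) (b + p + 3, p * N, 0) := by
  have h1 := xfer_spec false b (b + p + 1) p hp h.left N 0
  have h2 : Placed L (b + p + 1) (xfer true (b + p + 1) (b + p + 3) 1) := by
    have := h.right
    rwa [length_xfer, ← add_assoc] at this
  have h3 := xfer_spec true (b + p + 1) (b + p + 3) 1 one_pos h2 (p * N) 0
  simp only [cf, Bool.false_eq_true, if_false, if_true, zero_add, one_mul] at h1 h3
  exact h1.trans h3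

/-- divide register `0` by `p` and go to `e1` if this is possible; otherwise go to `e2` -/
def dv (p b e1 e2 : ℕ) : List NI :=
  (List.range p).map (fun i => NI.dec false (b + i + 1)
    (if i = 0 then b + 3 * p + 1 else b + p + i)) ++
  ([NI.inc true b] ++
  ((List.range (p - 1)).map (fun i => NI.inc false (if i = 0 then b + 2 * p else b + p + i)) ++
  (xfer true (b + 2 * p) e2 p ++ xfer true (b + 3 * p + 1) e1 1)))

theorem length_dv {p : ℕ} (hp : 0 < p) (b e1 e2 : ℕ) : (dv p b e1 e2).length = 3 * p + 3 := by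
  simp only [dv, List.length_append, List.length_map, List.length_range, List.length_singleton,
    length_xfer]
  omega

theorem dv_spec {L : List NI} {p b e1 e2 : ℕ} (hp : 0 < p) (h : Placed L b (dv p b e1 e2))
    (N : ℕ) :
    (p ∣ N → R L (b, N, 0) (e1, N / p, 0)) ∧ (¬ p ∣ N → R L (b, N, 0) (e2, N, 0)) := by
  -- the parts
  have hA : ∀ i, i < p → L[b + i]? = some (NI.dec false (b + i + 1)
      (if i = 0 then b + 3 * p + 1 else b + p + i)) := by
    intro i hi
    apply h.left.get
    rw [List.getElem?_map, List.getElem?_range hi]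
    rfl
  have h1 := h.right
  rw [List.length_map, List.length_range] at h1
  have hB : L[b + p]? = some (NI.inc true b) := h1.left.head
  have h2 := h1.right
  rw [List.length_singleton] at h2
  have hI : ∀ i, i < p - 1 → L[b + p + 1 + i]? = some (NI.inc false
      (if i = 0 then b + 2 * p else b + p + i)) := by
    intro i hi
    apply h2.left.get
    rw [List.getElem?_map, List.getElem?_range hi]
    rfl
  have h3 := h2.right
  rw [List.length_map, List.length_range] at h3
  have e3 : b + p + 1 + (p - 1) = b + 2 * p := by omega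
  rw [e3] at h3
  have hRe : Placed L (b + 2 * p) (xfer true (b + 2 * p) e2 p) := h3.left
  have h4 := h3.right
  rw [length_xfer] at h4
  have e4 : b + 2 * p + (p + 1) = b + 3 * p + 1 := by ring
  rw [e4] at h4
  -- the chain of decrements
  have hchain : ∀ i, i ≤ p → ∀ a m : ℕ, (stp L)^[i] (b, a + i, m) = (b + i, a, m) := by
    intro i
    induction i with
    | zero => intro _ a m; rfl
    | succ i ih =>
      intro hi a m
      have e5 : a + (i + 1) = (a + 1) + i := by ring
      rw [Function.iterate_succ_apply', e5, ih (by omega) (a + 1) m]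
      exact stp_decS (r := false) (hA i (by omega)) a m
  have hround : ∀ a m : ℕ, R L (b, a + p, m) (b, a, m + 1) := by
    intro a m
    have h5 : R L (b, a + p, m) (b + p, a, m) := ⟨p, hp, hchain p le_rfl a m⟩
    exact h5.trans (R.one (stp_inc' (r := false) hB a m))
  have hdiv : ∀ q i m : ℕ, i < p → R L (b, p * q + i, m)
      (if i = 0 then b + 3 * p + 1 else b + p + i, 0, m + q) := by
    intro q
    induction q with
    | zero =>
      intro i m hi
      have h5 := hchain i hi.le 0 m
      refine ⟨i + 1, by omega, ?_⟩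
      rw [mul_zero, Function.iterate_succ_apply', h5]
      exact stp_dec0 (r := false) (hA i hi) m
    | succ q ih =>
      intro i m hi
      have e6 : p * (q + 1) + i = (p * q + i) + p := by ring
      rw [e6]
      refine (hround _ m).trans ?_
      have h6 := ih i (m + 1) hi
      have e7 : m + 1 + q = m + (q + 1) := by ring
      rw [e7] at h6
      exact h6
  -- the chain of increments
  have hinc : ∀ i, i < p - 1 → ∀ z m : ℕ, R L (b + p + 1 + i, z, m) (b + 2 * p, z + (i + 1), m) := by
    intro i
    induction i with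
    | zero =>
      intro hi z m
      exact R.one (stp_inc (r := false) (hI 0 hi) z m)
    | succ i ih =>
      intro hi z m
      have h7 := stp_inc (r := false) (hI (i + 1) hi) z m
      rw [if_neg (by omega)] at h7
      refine R.head h7 ?_
      have h8 := ih (by omega) (z + 1) m
      have e8 : b + p + 1 + i = b + p + (i + 1) := by ring
      have e9 : z + 1 + (i + 1) = z + (i + 1 + 1) := by ring
      rw [e8, e9] at h8
      exact h8
  constructor
  · rintro ⟨q, rfl⟩
    have h5 := hdiv q 0 0 hp
    rw [if_pos rfl, add_zero, zero_add] at h5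
    have h6 := xfer_spec true (b + 3 * p + 1) e1 1 one_pos h4 q 0
    simp only [cf, if_true, zero_add, one_mul] at h6
    rw [Nat.mul_div_cancel_left q hp]
    exact h5.trans h6
  · intro hnd
    have hi : N % p < p := Nat.mod_lt _ hp
    have hi0 : N % p ≠ 0 := fun h0 => hnd (Nat.dvd_of_mod_eq_zero h0)
    have h5 := hdiv (N / p) (N % p) 0 hi
    rw [Nat.div_add_mod, if_neg hi0, zero_add] at h5
    obtain ⟨i, hi1⟩ : ∃ i, N % p = i + 1 := ⟨N % p - 1, by omega⟩
    have h6 := hinc i (by omega) 0 (N / p)
    have e10 : b + p + 1 + i = b + p + N % p := by omega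
    rw [e10, zero_add, ← hi1] at h6
    have h7 := xfer_spec true (b + 2 * p) e2 p hp hRe (N / p) (N % p)
    simp only [cf, if_true] at h7
    rw [Nat.mod_add_div] at h7
    exact (h5.trans h6).trans h7

/-! ### The compiler -/

/-- length of the code of a program -/
def len (pr : ℕ → ℕ) : Prog → ℕ
  | .inc r => pr r + 3
  | .dec r => 3 * pr r + 3
  | .seq P Q => len pr P + len pr Q
  | .loop r P => (3 * pr r + 3) + (pr r + 3) + len pr P + 1

/-- the code of a program at address `b` -/
def code (pr : ℕ → ℕ) : Prog → ℕ → List NI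
  | .inc r, b => mul (pr r) b
  | .dec r, b => dv (pr r) b (b + (3 * pr r + 3)) (b + (3 * pr r + 3))
  | .seq P Q, b => code pr P b ++ code pr Q (b + len pr P)
  | .loop r P, b =>
      dv (pr r) b (b + (3 * pr r + 3)) (b + ((3 * pr r + 3) + (pr r + 3) + len pr P + 1)) ++
      (mul (pr r) (b + (3 * pr r + 3)) ++
      (code pr P (b + (3 * pr r + 3) + (pr r + 3)) ++ [NI.dec true b b]))

theorem length_code {pr : ℕ → ℕ} (hpr : ∀ r, 0 < pr r) (P : Prog) :
    ∀ b, (code pr P b).length = len pr P := by
  induction P with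
  | inc r => intro b; exact length_mul _ _
  | dec r => intro b; exact length_dv (hpr r) _ _ _
  | seq P Q ih ih' => intro b; rw [code, List.length_append, ih, ih']; rfl
  | loop r P ih =>
    intro b
    rw [code, List.length_append, List.length_append, List.length_append, length_dv (hpr r),
      length_mul, ih, List.length_singleton, len]
    ring

theorem len_pos (pr : ℕ → ℕ) (P : Prog) : 0 < len pr P := by
  induction P with
  | inc r => simp [len]
  | dec r => simp [len]
  | seq P Q ih ih' => simp [len]; omega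
  | loop r P ih => simp [len]

/-- all registers of the program are below `R` -/
def Bdd (R : ℕ) : Prog → Prop
  | .inc r => r < R
  | .dec r => r < R
  | .seq P Q => Bdd R P ∧ Bdd R Q
  | .loop r P => r < R ∧ Bdd R P

theorem Bdd.mono {R R' : ℕ} (h : R ≤ R') {P : Prog} (hP : Bdd R P) : Bdd R' P := by
  induction P with
  | inc r => exact lt_of_lt_of_le hP h
  | dec r => exact lt_of_lt_of_le hP h
  | seq P Q ih ih' => exact ⟨ih hP.1, ih' hP.2⟩
  | loop r P ih => exact ⟨lt_of_lt_of_le hP.1 h, ih hP.2⟩

theorem exists_bdd (P : Prog) : ∃ R, Bdd R P := by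
  induction P with
  | inc r => exact ⟨r + 1, Nat.lt_succ_self r⟩
  | dec r => exact ⟨r + 1, Nat.lt_succ_self r⟩
  | seq P Q ih ih' =>
    obtain ⟨R, hR⟩ := ih
    obtain ⟨R', hR'⟩ := ih'
    exact ⟨max R R', hR.mono (le_max_left _ _), hR'.mono (le_max_right _ _)⟩
  | loop r P ih =>
    obtain ⟨R, hR⟩ := ih
    exact ⟨max R (r + 1), lt_of_lt_of_le (Nat.lt_succ_self r) (le_max_right _ _),
      hR.mono (le_max_left _ _)⟩

/-- a coding of states by numbers -/
structure Coding (Rg : ℕ) (pr : ℕ → ℕ) (cd : (ℕ → ℕ) → ℕ) : Prop where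
  pos : ∀ r, 0 < pr r
  dvd : ∀ r < Rg, ∀ s, pr r ∣ cd s ↔ s r ≠ 0
  inc : ∀ r < Rg, ∀ s, cd (Function.update s r (s r + 1)) = pr r * cd s
  dec : ∀ r < Rg, ∀ s, s r ≠ 0 → cd (Function.update s r (s r - 1)) = cd s / pr r

theorem forward {Rg : ℕ} {pr : ℕ → ℕ} {cd : (ℕ → ℕ) → ℕ} (hc : Coding Rg pr cd) {L : List NI}
    {P : Prog} {s s' : ℕ → ℕ} (h : Exec P s s') :
    ∀ b, Bdd Rg P → Placed L b (code pr P b) → R L (b, cd s, 0) (b + len pr P, cd s', 0) := by
  induction h with
  | inc r s =>
    intro b hb hL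
    have h1 := mul_spec (hc.pos r) hL (cd s)
    rw [hc.inc r hb s]
    exact h1
  | dec r s =>
    intro b hb hL
    have h1 := dv_spec (hc.pos r) hL (cd s)
    by_cases h0 : s r = 0
    · have h2 : Function.update s r (s r - 1) = s := by
        rw [h0]
        funext i
        by_cases hi : i = r
        · rw [hi, Function.update_self]; omega
        · rw [Function.update_of_ne hi]
      rw [h2]
      exact h1.2 (fun h3 => (hc.dvd r hb s).1 h3 h0)
    · rw [hc.dec r hb s h0]
      exact h1.1 ((hc.dvd r hb s).2 h0)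
  | @seq P Q s s' s'' h h' ih ih' =>
    intro b hb hL
    have h1 := ih b hb.1 hL.left
    have h2 := hL.right
    rw [length_code hc.pos] at h2
    have h3 := ih' (b + len pr P) hb.2 h2
    rw [add_assoc] at h3
    exact h1.trans h3
  | @loop0 r P s h0 =>
    intro b hb hL
    exact (dv_spec (hc.pos r) hL.left (cd s)).2 (fun h3 => (hc.dvd r hb.1 s).1 h3 h0)
  | @loopS r P s s' s'' h0 h h' ih ih' =>
    intro b hb hL
    have h1 := (dv_spec (hc.pos r) hL.left (cd s)).1 ((hc.dvd r hb.1 s).2 h0)
    have h2 := hL.right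
    rw [length_dv (hc.pos r)] at h2
    have h3 := mul_spec (hc.pos r) h2.left (cd s / pr r)
    rw [Nat.mul_div_cancel' ((hc.dvd r hb.1 s).2 h0)] at h3
    have h4 := h2.right
    rw [length_mul] at h4
    have h5 := ih _ hb.2 h4.left
    have h6 := h4.right
    rw [length_code hc.pos] at h6
    have h7 := stp_dec0 (r := true) h6.head (cd s')
    have h8 := ih' b hb hL
    exact (((h1.trans h3).trans h5).trans (R.one h7)).trans h8

/-! ### Halting -/

theorem stp_halted {L : List NI} {c : ℕ × ℕ × ℕ} (h : L.length ≤ c.1) : stp L c = c := by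
  rw [stp, List.getElem?_eq_none h]

theorem iterate_halted {L : List NI} {c : ℕ × ℕ × ℕ} (h : L.length ≤ c.1) (k : ℕ) :
    (stp L)^[k] c = c := by
  induction k with
  | zero => rfl
  | succ k ih => rw [Function.iterate_succ_apply', ih, stp_halted h]

/-- the machine has halted after `k` steps -/
def HIn (L : List NI) (c : ℕ × ℕ × ℕ) (k : ℕ) : Prop := L.length ≤ ((stp L)^[k] c).1

theorem HIn.step {L : List NI} {c c' : ℕ × ℕ × ℕ} {j k : ℕ} (h : HIn L c k)
    (hj : (stp L)^[j] c = c') (hc' : c'.1 < L.length) : j < k ∧ HIn L c' (k - j) := by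
  by_cases hjk : j < k
  · refine ⟨hjk, ?_⟩
    rw [HIn, ← hj, ← Function.iterate_add_apply]
    have : k - j + j = k := by omega
    rw [this]
    exact h
  · exfalso
    have h1 : j = (j - k) + k := by omega
    rw [h1, Function.iterate_add_apply, iterate_halted h] at hj
    rw [← hj] at hc'
    exact absurd h (not_le.2 hc')

theorem HIn.reach {L : List NI} {c c' : ℕ × ℕ × ℕ} {k : ℕ} (h : HIn L c k)
    (hj : R L c c') : ∃ k', HIn L c' k' := by
  obtain ⟨j, _, hj⟩ := hj
  by_cases hc' : c'.1 < L.length
  · exact ⟨_, (h.step hj hc').2⟩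
  · exact ⟨0, not_lt.1 hc'⟩

theorem backward {Rg : ℕ} {pr : ℕ → ℕ} {cd : (ℕ → ℕ) → ℕ} (hc : Coding Rg pr cd) {L : List NI}
    (P : Prog) : ∀ b, Bdd Rg P → Placed L b (code pr P b) → b + len pr P ≤ L.length →
    ∀ k s, HIn L (b, cd s, 0) k → ∃ s', Exec P s s' := by
  induction P with
  | inc r => intro b _ _ _ k s _; exact ⟨_, Exec.inc r s⟩
  | dec r => intro b _ _ _ k s _; exact ⟨_, Exec.dec r s⟩
  | seq P Q ih ih' =>
    intro b hb hL hle k s hk
    rw [len] at hle
    obtain ⟨s', h1⟩ := ih b hb.1 hL.left (by omega) k s hk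
    have h2 := forward hc h1 b hb.1 hL.left
    obtain ⟨k', hk'⟩ := hk.reach h2
    have h3 := hL.right
    rw [length_code hc.pos] at h3
    obtain ⟨s'', h4⟩ := ih' _ hb.2 h3 (by omega) k' s' hk'
    exact ⟨s'', Exec.seq h1 h4⟩
  | loop r P ih =>
    intro b hb hL hle k
    induction k using Nat.strong_induction_on with
    | _ k ihk =>
      intro s hk
      by_cases h0 : s r = 0
      · exact ⟨s, Exec.loop0 h0⟩
      rw [len] at hle
      have h1 := (dv_spec (hc.pos r) hL.left (cd s)).1 ((hc.dvd r hb.1 s).2 h0)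
      have h2 := hL.right
      rw [length_dv (hc.pos r)] at h2
      have h3 := mul_spec (hc.pos r) h2.left (cd s / pr r)
      rw [Nat.mul_div_cancel' ((hc.dvd r hb.1 s).2 h0)] at h3
      have h4 := h2.right
      rw [length_mul] at h4
      have h13 := h1.trans h3
      obtain ⟨k', hk'⟩ := hk.reach h13
      obtain ⟨s', h5⟩ := ih _ hb.2 h4.left (by omega) k' s hk'
      have h6 := forward hc h5 _ hb.2 h4.left
      have h7 := h4.right
      rw [length_code hc.pos] at h7
      have h8 := stp_dec0 (r := true) h7.head (cd s')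
      obtain ⟨j, hj, h9⟩ := (h13.trans h6).trans (R.one h8)
      have h10 := hk.step h9 (by
        simp only [cf, if_true]
        have := hc.pos r
        omega)
      obtain ⟨s'', h11⟩ := ihk (k - j) (by omega) s' h10.2
      exact ⟨s'', Exec.loopS h0 h5 h11⟩

/-! ### From lists to machines with states `Fin n` -/

/-- cut off addresses -/
def cl (n : ℕ) (j : ℕ) : Fin (n + 1) := ⟨min j n, by omega⟩

/-- convert an instruction -/
def cv (n : ℕ) : NI → Instr (n + 1)
  | .inc r j => .inc r (cl n j)
  | .dec r j k => .dec r (cl n j) (cl n k)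

/-- the machine of a list of instructions -/
def mach (L : List NI) (i : Fin (L.length + 1)) : Instr (L.length + 1) :=
  match L[(i : ℕ)]? with
  | none => .halt
  | some x => cv L.length x

/-- cut off the address of a configuration -/
def clc (n : ℕ) (c : ℕ × ℕ × ℕ) : Fin (n + 1) × ℕ × ℕ := (cl n c.1, c.2.1, c.2.2)

theorem step_mach (L : List NI) (c : ℕ × ℕ × ℕ) :
    step (mach L) (clc L.length c) =
      if c.1 < L.length then some (clc L.length (stp L c)) else none := by
  obtain ⟨pc, a, m⟩ := c
  by_cases h : pc < L.length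
  · rw [if_pos h]
    have h1 : L[((clc L.length (pc, a, m)).1 : ℕ)]? = some L[pc] := by
      change L[min pc L.length]? = _
      rw [min_eq_left h.le, List.getElem?_eq_getElem h]
    have h2 : mach L (clc L.length (pc, a, m)).1 = cv L.length L[pc] := by
      rw [mach, h1]
    rw [step, h2, stp]
    simp only [List.getElem?_eq_getElem h]
    cases hx : L[pc] with
    | inc r j => cases r <;> rfl
    | dec r j k =>
      cases r
      · by_cases ha : a = 0 <;> simp [cv, clc, ha]
      · by_cases ha : m = 0 <;> simp [cv, clc, ha]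
  · rw [if_neg h]
    have h1 : L[((clc L.length (pc, a, m)).1 : ℕ)]? = none := by
      change L[min pc L.length]? = _
      rw [min_eq_right (not_lt.1 h), List.getElem?_eq_none le_rfl]
    have h2 : mach L (clc L.length (pc, a, m)).1 = Instr.halt := by
      rw [mach, h1]
    rw [step, h2]

theorem run_mach (L : List NI) (c : ℕ × ℕ × ℕ) (k : ℕ) :
    (∀ j < k, ((stp L)^[j] c).1 < L.length) →
    run (mach L) (clc L.length c) k = some (clc L.length ((stp L)^[k] c)) := by
  induction k with
  | zero => intro _; rfl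
  | succ k ih =>
    intro h
    rw [run, ih (fun j hj => h j (by omega)), Option.bind_some, step_mach, if_pos (h k (by omega)),
      Function.iterate_succ_apply']

theorem halts_mach (L : List NI) (c : ℕ × ℕ × ℕ) :
    Halts (mach L) (clc L.length c) ↔ ∃ k, HIn L c k := by
  constructor
  · rintro ⟨k, hk⟩
    by_contra hcon
    push Not at hcon
    have h1 := run_mach L c k (fun j _ => not_le.1 (hcon j))
    rw [hk] at h1
    exact absurd h1 (by simp)
  · intro h
    classical
    have h1 := Nat.find_spec h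
    have h2 : ∀ j < Nat.find h, ((stp L)^[j] c).1 < L.length := fun j hj =>
      not_le.1 (Nat.find_min h hj)
    refine ⟨Nat.find h + 1, ?_⟩
    rw [run, run_mach L c _ h2, Option.bind_some, step_mach, if_neg (not_lt.2 h1)]

/-! ### Coding by primes -/

/-- the code of a state -/
noncomputable def cd (Rg : ℕ) (s : ℕ → ℕ) : ℕ :=
  ∏ i ∈ Finset.range Rg, (Nat.nth Nat.Prime i) ^ (s i)

theorem prime_nth (i : ℕ) : (Nat.nth Nat.Prime i).Prime := Nat.prime_nth_prime i

theorem cd_eq {Rg r : ℕ} (hr : r < Rg) (s : ℕ → ℕ) :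
    cd Rg s = (Nat.nth Nat.Prime r) ^ (s r) *
      ∏ i ∈ (Finset.range Rg).erase r, (Nat.nth Nat.Prime i) ^ (s i) := by
  rw [cd, ← Finset.mul_prod_erase _ _ (Finset.mem_range.2 hr)]

theorem cd_update {Rg r : ℕ} (hr : r < Rg) (s : ℕ → ℕ) (x : ℕ) :
    cd Rg (Function.update s r x) = (Nat.nth Nat.Prime r) ^ x *
      ∏ i ∈ (Finset.range Rg).erase r, (Nat.nth Nat.Prime i) ^ (s i) := by
  rw [cd_eq hr, Function.update_self]
  congr 1
  refine Finset.prod_congr rfl fun i hi => ?_
  rw [Function.update_of_ne (Finset.ne_of_mem_erase hi)]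

theorem coding (Rg : ℕ) : Coding Rg (Nat.nth Nat.Prime) (cd Rg) where
  pos r := (prime_nth r).pos
  dvd r hr s := by
    rw [cd_eq hr]
    constructor
    · intro h h0
      rw [h0, pow_zero, one_mul, (prime_nth r).prime.dvd_finsetProd_iff] at h
      obtain ⟨i, hi, h1⟩ := h
      have h2 := (Nat.prime_dvd_prime_iff_eq (prime_nth r) (prime_nth i)).1
        ((prime_nth r).dvd_of_dvd_pow h1)
      exact Finset.ne_of_mem_erase hi
        (Nat.nth_injective Nat.infinite_setOfPred_prime h2).symm
    · intro h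
      exact Dvd.dvd.mul_right (dvd_pow_self _ h) _
  inc r hr s := by
    rw [cd_update hr, cd_eq hr, pow_succ]; ring
  dec r hr s h := by
    rw [cd_update hr, cd_eq hr]
    obtain ⟨m, hm⟩ : ∃ m, s r = m + 1 := ⟨s r - 1, by omega⟩
    have e1 : ∀ z : ℕ, (Nat.nth Nat.Prime r) ^ (m + 1) * z =
        Nat.nth Nat.Prime r * ((Nat.nth Nat.Prime r) ^ m * z) := fun z => by
      rw [pow_succ]; ring
    rw [hm, Nat.add_sub_cancel, e1, Nat.mul_div_cancel_left _ (prime_nth r).pos]

theorem cd_st2 {Rg : ℕ} (hR : 0 < Rg) (x : ℕ) : cd Rg (st2 x 0) = 2 ^ x := by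
  rw [cd_eq hR]
  have h1 : Nat.nth Nat.Prime 0 = 2 := Nat.nth_prime_zero_eq_two
  rw [h1, Finset.prod_eq_one]
  · simp [st2]
  · intro i hi
    have h2 : i ≠ 0 := Finset.ne_of_mem_erase hi
    simp [st2, h2]

end Comp

open Pool.Agent.Grig.Comp in
theorem p_comp : T_comp := by
  intro P
  obtain ⟨R0, hR0⟩ := exists_bdd P
  obtain ⟨Rg, hRg, hP⟩ : ∃ Rg, 0 < Rg ∧ Bdd Rg P := ⟨R0 + 1, by omega, hR0.mono (by omega)⟩
  have hc := coding Rg
  obtain ⟨L, hL⟩ : ∃ L, L = code (Nat.nth Nat.Prime) P 0 := ⟨_, rfl⟩
  have hlen : L.length = len (Nat.nth Nat.Prime) P := by rw [hL, length_code hc.pos]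
  have hpl : Placed L 0 (code (Nat.nth Nat.Prime) P 0) := by
    intro i _
    rw [hL, zero_add]
  refine ⟨L.length + 1, mach L, cl L.length 0, fun x => ?_⟩
  have h1 := halts_mach L (0, 2 ^ x, 0)
  change Halts (mach L) (cl L.length 0, 2 ^ x, 0) ↔ _ at h1
  rw [h1, ← cd_st2 hRg x]
  constructor
  · rintro ⟨s', hs'⟩
    obtain ⟨k, _, hk⟩ := forward hc hs' 0 hP hpl
    refine ⟨k, ?_⟩
    rw [HIn, hk, hlen]
    change _ ≤ 0 + _
    omega
  · rintro ⟨k, hk⟩
    exact backward hc P 0 hP hpl (by omega) k _ hk

end Pool.Agent.Grig
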