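import Pool.Agent.Grig.Targets

set_option autoImplicit false

/-!
# Group-level form of the reduction

A solution of the system attached to a two-counter machine exists in `G` iff the machine halts.
-/

namespace Pool.Agent.Grig

open Aut

/-- The unknowns of the system and the equations they satisfy. -/
structure GSol {n : ℕ} (M : Fin n → Instr n) (i0 : Fin n) (N : ℕ) (hF hV hW : Aut)
    (q : Fin n → Aut) (t s : Fin 3 → Aut) (e : Bool → Aut) (F V W g : Aut)
    (x y : Fin 4 → Aut) : Prop where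
  rel : Rel M q t s e
  cV : V * b = b * V
  cW : W * c = c * W
  cF : F * d = d * F
  e1 : (W * V * F * c * F) ^ 4 = prod4 (testEl (q i0) (t 0) e N) g x y * (W * V * c) ^ 4
  e2 : (V * F * W * b * W) ^ 4 = (V * F * b) ^ 4
  e3 : (F * W * V * d * V) ^ 4 = (F * W * d) ^ 4
  iF : Init hF F
  iV : Init hV V
  iW : Init hW W

/-- all unknowns lie in `G` -/
def InG {n : ℕ} (q : Fin n → Aut) (t s : Fin 3 → Aut) (e : Bool → Aut) (F V W g : Aut)
    (x y : Fin 4 → Aut) : Prop :=
  (∀ i, q i ∈ G) ∧ (∀ i, t i ∈ G) ∧ (∀ i, s i ∈ G) ∧ (∀ r, e r ∈ G) ∧ F ∈ G ∧ V ∈ G ∧ W ∈ G ∧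
    g ∈ G ∧ (∀ j, x j ∈ G) ∧ ∀ j, y j ∈ G

theorem cm_one_left {P : Type*} [Group P] (y : P) : cm 1 y = 1 := by simp [cm]
theorem cm_one_right {P : Type*} [Group P] (x : P) : cm x 1 = 1 := by simp [cm]
theorem cj_one_left {P : Type*} [Group P] (u : P) : cj 1 u = 1 := by simp [cj]

theorem prod4_one (g : Aut) (x y : Fin 4 → Aut) : prod4 1 g x y = 1 := by
  simp [prod4, cj_one_left, cm_one_right, cm_one_left]

theorem lam_two_portrait (g : Aut) : lam 2 (g.sec false) =
    xor (xor (g.p [false, false, false]) (g.p [false, false, true]))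
      (xor (g.p [false, true, false]) (g.p [false, true, true])) := rfl

/-- Soundness: if the machine runs for ever there is no solution. -/
theorem sound (hrun : T_run) (hres : T_resid) (hdesc : T_desc) (hinit : T_init)
    {n : ℕ} {M : Fin n → Instr n} {i0 : Fin n} {N : ℕ} {hF hV hW : Aut} {q : Fin n → Aut}
    {t s : Fin 3 → Aut} {e : Bool → Aut} {F V W g : Aut} {x y : Fin 4 → Aut}
    (hst : State false hF hV hW)
    (hS : GSol M i0 N hF hV hW q t s e F V W g x y) (hG : InG q t s e F V W g x y) :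
    Halts M (i0, N, 0) := by
  by_contra hnh
  have h1 : testEl (q i0) (t 0) e N = 1 :=
    hres _ (hrun n M Aut q t s e hS.rel i0 N hnh)
  have e1 := hS.e1
  rw [h1, prod4_one, one_mul] at e1
  obtain ⟨-, -, -, -, GF, GV, GW, -⟩ := hG
  have pF := hinit hF F hS.iF
  have pV := hinit hV V hS.iV
  have pW := hinit hW W hS.iW
  refine hdesc false F V W GF GV GW ⟨hS.cV, hS.cW, hS.cF, e1, hS.e2, hS.e3⟩ ?_
  obtain ⟨⟨a1, a2, a3⟩, ⟨b1, b2⟩, ⟨c1, c2⟩⟩ := hst
  refine ⟨⟨?_, ?_, ?_⟩, ⟨?_, ?_⟩, ⟨?_, ?_⟩⟩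
  · rw [pF _ (by simp)]; exact a1
  · rw [pF _ (by simp)]; exact a2
  · rw [lam_two_portrait] at a3 ⊢
    rw [pF _ (by simp), pF _ (by simp), pF _ (by simp), pF _ (by simp)]; exact a3
  · rw [pV _ (by simp)]; exact b1
  · rw [pV _ (by simp)]; exact b2
  · rw [pW _ (by simp)]; exact c1
  · rw [pW _ (by simp)]; exact c2

theorem map_cj {P Q : Type*} [Group P] [Group Q] (θ : P →* Q) (x u : P) :
    θ (cj x u) = cj (θ x) (θ u) := by simp [cj]
theorem map_cm {P Q : Type*} [Group P] [Group Q] (θ : P →* Q) (x u : P) :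
    θ (cm x u) = cm (θ x) (θ u) := by simp [cm]
theorem map_mono {P Q : Type*} [Group P] [Group Q] (θ : P →* Q) (t : Fin 3 → P)
    (u : Fin 3 → Fin 3) : θ (mono t u) = mono (fun i => θ (t i)) u := by simp [mono]

theorem map_startVec {P Q : Type*} [Group P] [Group Q] (θ : P →* Q) (x t0 : P) (k : ℕ) :
    θ (startVec x t0 k) = startVec (θ x) (θ t0) k := by
  induction k with
  | zero => rfl
  | succ k ih => simp only [startVec, map_cm, ih]

theorem map_testEl {P Q : Type*} [Group P] [Group Q] (θ : P →* Q) (x t0 : P) (e : Bool → P)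
    (N : ℕ) : θ (testEl x t0 e N) = testEl (θ x) (θ t0) (fun r => θ (e r)) N := by
  simp only [testEl, map_cm, map_startVec]

theorem Rel.map {n : ℕ} {M : Fin n → Instr n} {P Q : Type*} [Group P] [Group Q] (θ : P →* Q)
    {q : Fin n → P} {t s : Fin 3 → P} {e : Bool → P} (h : Rel M q t s e) :
    Rel M (fun i => θ (q i)) (fun i => θ (t i)) (fun i => θ (s i)) (fun r => θ (e r)) where
  tt i j := by simpa using congrArg θ (h.tt i j)
  ts i j := by simpa using congrArg θ (h.ts i j)
  e0 i hi := by simpa using congrArg θ (h.e0 i hi)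
  e1 i hi := by simpa using congrArg θ (h.e1 i hi)
  ee := by simpa using congrArg θ h.ee
  bs i r := by simpa [map_cj] using congrArg θ (h.bs i r)
  qq i j u v := by simpa [map_cj, map_mono] using congrArg θ (h.qq i j u v)
  ins i := by
    have h1 := h.ins i
    revert h1
    cases M i with
    | halt => intro _; trivial
    | inc r j =>
      intro h1
      simp only [InstrRel] at h1 ⊢
      rw [h1]
      simp only [map_cm]
    | dec r j k =>
      intro h1
      simp only [InstrRel] at h1 ⊢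
      refine ⟨?_, ?_⟩
      · have := congrArg θ h1.1
        simpa only [map_cm] using this
      · have := congrArg θ h1.2
        simpa only [map_mul, map_inv, map_cm] using this

/-- Completeness: if the machine halts there is a solution in `G`. -/
theorem complete (hmodel : T_model) (hemb : T_embed) (htr : T_trunc) (hprod : T_prod)
    {n : ℕ} {M : Fin n → Instr n} {i0 : Fin n} {N : ℕ} (hh : Halts M (i0, N, 0)) :
    ∃ (q : Fin n → Aut) (t s : Fin 3 → Aut) (e : Bool → Aut) (F V W g : Aut)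
      (x y : Fin 4 → Aut), GSol M i0 N (FF 2) (VV 2) (WW 2) q t s e F V W g x y ∧
        InG q t s e F V W g x y := by
  obtain ⟨P, _, _, q, t, s, e, hP, hrel, hne⟩ := hmodel n M i0 N hh
  obtain ⟨θ, hinj, hθ⟩ := hemb P hP
  have hw : θ (testEl (q i0) (t 0) e N) ≠ 1 := fun h => hne (hinj (by rw [h, map_one]))
  obtain ⟨N0, hN0⟩ := hprod _ (hθ _) hw
  obtain ⟨g, hg, x, y, hxy, hrho⟩ := hN0 (max N0 2) (le_max_left _ _)
  obtain ⟨-, h2, h3, h4, h5⟩ := htr
  set m := max N0 2
  refine ⟨fun i => θ (q i), fun i => θ (t i), fun i => θ (s i), fun r => θ (e r), FF m, VV m,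
    WW m, g, x, y, ?_, ?_⟩
  · exact
      { rel := hrel.map θ
        cV := (h3 m).1
        cW := (h3 m).2.1
        cF := (h3 m).2.2
        e1 := by
          rw [(h4 m).1, hrho, map_testEl]
        e2 := (h4 m).2.1
        e3 := (h4 m).2.2
        iF := (h5 m (le_max_right _ _)).1
        iV := (h5 m (le_max_right _ _)).2.1
        iW := (h5 m (le_max_right _ _)).2.2 }
  · exact ⟨fun i => hθ _, fun i => hθ _, fun i => hθ _, fun i => hθ _, (h2 m).1, (h2 m).2.1,
      (h2 m).2.2, hg, fun j => (hxy j).1, fun j => (hxy j).2⟩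

end Pool.Agent.Grig
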