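import Pool.Agent.Grig.Law

set_option autoImplicit false

/-! # The descent: the ray system has no solution in `G` -/

namespace Pool.Agent.Grig
namespace DescAux

open Aut LawAux

/-- centraliser of `b` -/
theorem comm_b {g : Aut} (h : g * b = b * g) :
    g.act = false ∧ g.sec false * a = a * g.sec false ∧ g.sec true * c = c * g.sec true := by
  have h0 := congrArg (fun x => Aut.sec x false) h
  have h1 := congrArg (fun x => Aut.sec x true) h
  simp only [sec_mul, act_b, b_false, b_true, Bool.xor_false] at h0 h1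
  cases hg : g.act
  · rw [hg] at h0 h1
    exact ⟨rfl, h0, h1⟩
  · exfalso
    rw [hg] at h0
    have h2 := congrArg Aut.act h0
    simp only [act_mul, act_a] at h2
    change xor _ true = xor c.act _ at h2
    rw [act_c] at h2
    revert h2; cases (g.sec false).act <;> simp

/-- centraliser of `c` -/
theorem comm_c {g : Aut} (h : g * c = c * g) :
    g.act = false ∧ g.sec false * a = a * g.sec false ∧ g.sec true * d = d * g.sec true := by
  have h0 := congrArg (fun x => Aut.sec x false) h
  have h1 := congrArg (fun x => Aut.sec x true) h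
  simp only [sec_mul, act_c, c_false, c_true, Bool.xor_false] at h0 h1
  cases hg : g.act
  · rw [hg] at h0 h1
    exact ⟨rfl, h0, h1⟩
  · exfalso
    rw [hg] at h0
    have h2 := congrArg Aut.act h0
    simp only [act_mul, act_a] at h2
    change xor _ true = xor d.act _ at h2
    rw [act_d] at h2
    revert h2; cases (g.sec false).act <;> simp

/-- centraliser of `d` -/
theorem comm_d {g : Aut} (h : g * d = d * g) :
    g.act = false ∧ g.sec true * b = b * g.sec true := by
  have h0 := congrArg (fun x => Aut.sec x false) h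
  have h1 := congrArg (fun x => Aut.sec x true) h
  simp only [sec_mul, act_d, d_false, d_true, Bool.xor_false] at h0 h1
  cases hg : g.act
  · rw [hg] at h1
    exact ⟨rfl, h1⟩
  · exfalso
    rw [hg] at h0
    have h2 := congrArg (lam 1) h0
    simp only [lam_mul] at h2
    change xor _ (lam 1 1) = xor (lam 1 b) _ at h2
    have h3 : lam 1 b = true := rfl
    rw [h3, lam_one'] at h2
    revert h2; cases lam 1 (g.sec false) <;> simp

/-- `lam 2` vanishes on the centraliser of `a` -/
theorem lam_comm_a {g : Aut} (h : g * a = a * g) : lam 2 g = false := by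
  rw [lam_two, comm_a h]; simp

theorem phi_out : ∀ t u : Bool × Bool × Bool, u = phi t → u.1 = false →
    t.2.1 = t.2.2 ∧ u.2.1 = t.2.1 ∧ u.2.2 = xor t.2.1 t.1 := by decide

/-- The recursion along the ray for an element of `G` fixing `1111`. -/
theorem ray (hlam : T_lam) (hD : T_D) (hsec : T_sec) {X : Aut} (hX : X ∈ G)
    (h1 : (X.sec true).act = false) (h2 : ((X.sec true).sec true).act = false)
    (h3 : (((X.sec true).sec true).sec true).act = false) :
    lam 3 (X.sec false) = false ∧
    lam 2 ((X.sec true).sec false) = lam 2 ((X.sec false).sec false) ∧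
    lam 2 ((X.sec true).sec false) = xor (X.sec false).act
      (xor ((X.sec true).sec false).act (((X.sec true).sec true).sec false).act) := by
  obtain ⟨e1, e2, e3⟩ := phi_out _ _ (hD X hX) h1
  have hX1 : X.sec true ∈ G := hsec X hX true
  have hX11 : (X.sec true).sec true ∈ G := hsec _ hX1 true
  obtain ⟨f1, f2, f3⟩ := phi_out _ _ (hD _ hX1) h2
  have l11 := (hlam _ hX11).1
  have l1 : lam 1 ((X.sec true).sec true) = xor (((X.sec true).sec true).sec false).act
      (((X.sec true).sec true).sec true).act := rfl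
  have l3 : lam 3 ((X.sec true).sec true) = xor (lam 2 (((X.sec true).sec true).sec false))
      (lam 2 (((X.sec true).sec true).sec true)) := rfl
  simp only [D] at e1 e2 e3 f1 f2 f3
  refine ⟨?_, e2, ?_⟩
  · rw [lam_three, e1]; simp
  · rw [l1, l3, h3, f3, f2] at l11
    rw [e3] at l11
    rw [e2]
    generalize lam 2 ((X.sec false).sec false) = x1 at *
    generalize (X.sec false).act = x2 at *
    generalize (((X.sec true).sec true).sec false).act = x3 at *
    generalize ((X.sec true).sec false).act = x4 at *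
    generalize lam 2 (((X.sec true).sec false).sec false) = x5 at *
    revert l11
    cases x1 <;> cases x2 <;> cases x3 <;> cases x4 <;> cases x5 <;> simp

/-- for elements fixing the relevant vertices the section at `1` is multiplicative -/
theorem sec_mul_of_act {g h : Aut} (hh : h.act = false) (x : Bool) :
    (g * h).sec x = g.sec x * h.sec x := by
  rw [sec_mul, hh, Bool.xor_false]

theorem sec_pow_of_act {g : Aut} (hg : g.act = false) (x : Bool) (n : ℕ) :
    (g ^ n).act = false ∧ (g ^ n).sec x = (g.sec x) ^ n := by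
  induction n with
  | zero => exact ⟨rfl, rfl⟩
  | succ n ih =>
    refine ⟨by rw [pow_succ, act_mul, ih.1, hg]; rfl, ?_⟩
    rw [pow_succ, sec_mul_of_act hg, ih.2, pow_succ]

theorem five {g1 g2 g3 g4 g5 : Aut} (h1 : g1.act = false) (h2 : g2.act = false)
    (h3 : g3.act = false) (h4 : g4.act = false) (h5 : g5.act = false) (x : Bool) :
    (g1 * g2 * g3 * g4 * g5).act = false ∧
    (g1 * g2 * g3 * g4 * g5).sec x = g1.sec x * g2.sec x * g3.sec x * g4.sec x * g5.sec x := by
  refine ⟨by simp [h1, h2, h3, h4, h5], ?_⟩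
  rw [sec_mul_of_act h5, sec_mul_of_act h4, sec_mul_of_act h3, sec_mul_of_act h2]

theorem three {g1 g2 g3 : Aut} (h1 : g1.act = false) (h2 : g2.act = false)
    (h3 : g3.act = false) (x : Bool) :
    (g1 * g2 * g3).act = false ∧ (g1 * g2 * g3).sec x = g1.sec x * g2.sec x * g3.sec x := by
  refine ⟨by simp [h1, h2, h3], ?_⟩
  rw [sec_mul_of_act h3, sec_mul_of_act h2]

theorem sec_eq {g1 g2 g3 g4 g5 k1 k2 k3 : Aut} (h1 : g1.act = false) (h2 : g2.act = false)
    (h3 : g3.act = false) (h4 : g4.act = false) (h5 : g5.act = false)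
    (m1 : k1.act = false) (m2 : k2.act = false) (m3 : k3.act = false)
    (h : (g1 * g2 * g3 * g4 * g5) ^ 4 = (k1 * k2 * k3) ^ 4) (x : Bool) :
    (g1.sec x * g2.sec x * g3.sec x * g4.sec x * g5.sec x) ^ 4 =
      (k1.sec x * k2.sec x * k3.sec x) ^ 4 := by
  have e := congrArg (fun X => Aut.sec X x) h
  obtain ⟨f1, f2⟩ := five h1 h2 h3 h4 h5 x
  obtain ⟨f3, f4⟩ := three m1 m2 m3 x
  rw [(sec_pow_of_act f1 x 4).2, (sec_pow_of_act f3 x 4).2, f2, f4] at e
  exact e

/-- One step of the descent. -/
theorem step (hlaw : T_law) (hsec : T_sec) (hlam : T_lam) (hD : T_D) {p : Bool} {F V W : Aut}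
    (hF : F ∈ G) (hV : V ∈ G) (hW : W ∈ G) (hs : Sys F V W) (hst : State p F V W) :
    Sys (W.sec true) (F.sec true) (V.sec true) ∧
      State (!p) (W.sec true) (F.sec true) (V.sec true) := by
  obtain ⟨sV, sW, sF, s1, s2, s3⟩ := hs
  obtain ⟨⟨F0, F10, F2⟩, ⟨V0, V10⟩, ⟨W0, W10⟩⟩ := hst
  obtain ⟨Va, Va0, V1⟩ := comm_b sV
  obtain ⟨Wa, Wa0, W1⟩ := comm_c sW
  obtain ⟨Fa, F1⟩ := comm_d sF
  obtain ⟨V1a, V1a0, V11⟩ := comm_c V1
  obtain ⟨W1a, W11⟩ := comm_d W1
  obtain ⟨F1a, F1a0, F11⟩ := comm_b F1
  obtain ⟨V11a, V111⟩ := comm_d V11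
  obtain ⟨W11a, W11a0, W111⟩ := comm_b W11
  obtain ⟨F11a, F11a0, F111⟩ := comm_c F11
  have V111a := (comm_b V111).1
  have W111a := (comm_c W111).1
  have F111a := (comm_d F111).1
  obtain ⟨rF3, rF, rF'⟩ := ray hlam hD hsec hF F1a F11a F111a
  obtain ⟨-, rV, rV'⟩ := ray hlam hD hsec hV V1a V11a V111a
  obtain ⟨-, rW, rW'⟩ := ray hlam hD hsec hW W1a W11a W111a
  have q1F : lam 2 ((F.sec true).sec false) = false := lam_comm_a F1a0
  have q1V : lam 2 ((V.sec true).sec false) = false := lam_comm_a V1a0
  -- portraits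
  change (F.sec false).act = false at F0
  change ((F.sec true).sec false).act = p at F10
  change (V.sec false).act = !p at V0
  change ((V.sec true).sec false).act = !p at V10
  change (W.sec false).act = p at W0
  change ((W.sec true).sec false).act = false at W10
  -- the law at the vertex `0`
  have L := hlaw (W.sec false) (hsec W hW false) (V.sec false) (hsec V hV false) (F.sec false)
    (hsec F hF false) Wa0 Va0 (by rw [W0, V0]; cases p <;> rfl) F0 F2 rF3
    (sec_eq Wa Va Fa act_c Fa Wa Va act_c s1 false)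
  rw [← rW, ← rV, q1V, Bool.xor_false] at L
  have B2F : (((F.sec true).sec true).sec false).act = p := by
    rw [q1F, F0, F10] at rF'
    revert rF'; cases p <;> cases (((F.sec true).sec true).sec false).act <;> simp
  have B2V : (((V.sec true).sec true).sec false).act = false := by
    rw [q1V, V0, V10] at rV'
    revert rV'; cases p <;> cases (((V.sec true).sec true).sec false).act <;> simp
  have B2W : (((W.sec true).sec true).sec false).act = !p := by
    rw [L, W0, W10] at rW'
    revert rW'; cases p <;> cases (((W.sec true).sec true).sec false).act <;> simp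
  refine ⟨⟨F1, V1, W1, ?_, ?_, ?_⟩, ⟨W10, B2W, L⟩, ⟨?_, ?_⟩, ⟨V10, B2V⟩⟩
  · exact sec_eq Va Fa Wa act_b Wa Va Fa act_b s2 true
  · exact sec_eq Fa Wa Va act_d Va Fa Wa act_d s3 true
  · exact sec_eq Wa Va Fa act_c Fa Wa Va act_c s1 true
  · change ((F.sec true).sec false).act = !(!p)
    rw [F10]; simp
  · change (((F.sec true).sec true).sec false).act = !(!p)
    rw [B2F]; simp

theorem nuc_lam {x : Aut} (hx : x ∈ ({1, a, b, c, d} : Set Aut)) : lam 2 (x.sec false) = false := by
  simp only [Set.mem_insert_iff, Set.mem_singleton_iff] at hx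
  rcases hx with rfl | rfl | rfl | rfl | rfl <;> rfl

theorem iterate (hlaw : T_law) (hsec : T_sec) (hlam : T_lam) (hD : T_D) (N : ℕ) :
    ∀ (k : ℕ) (m : ℕ) (p : Bool) (F V W : Aut), F ∈ G → V ∈ G → W ∈ G → Sys F V W → State p F V W →
    (∀ X ∈ ({F, V, W} : Set Aut), ∀ v : List Bool, N ≤ m + v.length →
      X.secs v ∈ ({1, a, b, c, d} : Set Aut)) → N ≤ m + k → False := by
  intro k
  induction k with
  | zero =>
    intro m p F V W hF hV hW hs hst hN hm
    have h1 := hN F (by simp) [] (by simpa using hm)
    have h2 := nuc_lam h1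
    rw [secs_nil] at h2
    rw [hst.1.2.2] at h2
    exact absurd h2 (by simp)
  | succ k ih =>
    intro m p F V W hF hV hW hs hst hN hm
    obtain ⟨hs', hst'⟩ := step hlaw hsec hlam hD hF hV hW hs hst
    refine ih (m + 1) (!p) _ _ _ (hsec W hW true) (hsec F hF true) (hsec V hV true) hs' hst' ?_
      (by omega)
    intro X hX v hv
    simp only [Set.mem_insert_iff, Set.mem_singleton_iff] at hX
    rcases hX with rfl | rfl | rfl
    · exact hN W (by simp) (true :: v) (by simp only [List.length_cons]; omega)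
    · exact hN F (by simp) (true :: v) (by simp only [List.length_cons]; omega)
    · exact hN V (by simp) (true :: v) (by simp only [List.length_cons]; omega)

end DescAux

theorem p_desc (hlaw : T_law) (hsec : T_sec) (hlam : T_lam) (hD : T_D) (hnuc : T_nuc) :
    T_desc := by
  intro p F V W hF hV hW hs hst
  obtain ⟨n1, h1⟩ := hnuc F hF
  obtain ⟨n2, h2⟩ := hnuc V hV
  obtain ⟨n3, h3⟩ := hnuc W hW
  refine DescAux.iterate hlaw hsec hlam hD (n1 + n2 + n3) (n1 + n2 + n3) 0 p F V W hF hV hW hs hst
    ?_ (by omega)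
  intro X hX v hv
  simp only [Set.mem_insert_iff, Set.mem_singleton_iff] at hX
  rcases hX with rfl | rfl | rfl
  · exact h1 v (by omega)
  · exact h2 v (by omega)
  · exact h3 v (by omega)

end Pool.Agent.Grig
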