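import Pool.Agent.Grig.Targets

set_option autoImplicit false

/-!
# GRI-7: every finite 2-group embeds in the Grigorchuk group
-/

namespace Pool.Agent.Grig

open Aut

namespace Embed_

/-- the element `(ab)^8` -/
def tau : Aut := mk' false (mk' false z z) (mk' false z z)

lemma ab_eq : a * b = mk' true a c := by
  apply ext' <;> simp [sec_mul]

lemma ab2 : (a * b) * (a * b) = mk' false (c * a) (a * c) := by
  rw [ab_eq]
  apply ext' <;> simp [sec_mul]

lemma ac2 : (a * c) * (a * c) = mk' false (d * a) (a * d) := by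
  apply ext' <;> simp [sec_mul]

lemma ca2 : (c * a) * (c * a) = mk' false (a * d) (d * a) := by
  apply ext' <;> simp [sec_mul]

lemma ad2 : (a * d) * (a * d) = z := by
  simp only [z, mul_assoc]

lemma da2 : (d * a) * (d * a) = z := by
  have h1 : ((a * d) * (a * d))⁻¹ = (d * a) * (d * a) := by
    simp only [mul_inv_rev, a_inv, d_inv]
  rw [← h1, ad2]
  exact inv_eq_of_mul_eq_one_left z_mul_z

lemma tau_eq : tau = (a * b) ^ 8 := by
  have e8 : (a * b) ^ 8 = ((a * b) * (a * b)) ^ 4 := by
    rw [← pow_two, ← pow_mul]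
  have e4 : ∀ x : Aut, x ^ 4 = (x * x) * (x * x) := by
    intro x
    rw [← pow_two, ← pow_two, ← pow_mul]
  rw [e8, ab2, mk'_false_pow, e4, e4, ac2, ca2, mk'_false_mul, mk'_false_mul, ad2, da2]
  rfl

lemma tau_mem : tau ∈ G := by
  rw [tau_eq]
  exact G.pow_mem (G.mul_mem a_mem b_mem) _

lemma tau_mem_KK : tau ∈ KK := by
  refine ⟨tau_mem, ?_, ?_⟩
  · simp [D, tau, lam_succ]
  · simp [tau, lam_succ]

lemma tau_mul_tau : tau * tau = 1 := by
  simp [tau, mk'_false_mul, mk'_one]

lemma KK_mul {g h : Aut} (hg : g ∈ KK) (hh : h ∈ KK) : g * h ∈ KK := by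
  obtain ⟨g1, g2, g3⟩ := hg
  obtain ⟨h1, h2, h3⟩ := hh
  refine ⟨G.mul_mem g1 h1, ?_, ?_⟩
  · rw [D_mul, g2, h2]; rfl
  · rw [lam_mul, g3, h3]; rfl

lemma KK_one : (1 : Aut) ∈ KK := ⟨G.one_mem, rfl, lam_one' 1⟩

/-- the two vertices exchanged by `tau` -/
def u0 : List Bool := [false, false, false, false, false]
/-- the second vertex -/
def u1 : List Bool := [false, false, false, false, true]

lemma tau_put0 (g : Aut) : tau * putAt u0 g = putAt u1 g * tau := by
  have h1 : a * mk' false g 1 = mk' false 1 g * a := by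
    apply ext' <;> simp [sec_mul]
  simp only [u0, u1, putAt_false, putAt_true, putAt_nil, tau, mk'_false_mul, mul_one, one_mul, z_eq,
    b_eq, h1]

lemma tau_put1 (g : Aut) : tau * putAt u1 g = putAt u0 g * tau := by
  have h := tau_put0 g
  have h2 : tau * (tau * putAt u0 g) * tau = tau * (putAt u1 g * tau) * tau := by rw [h]
  rw [← mul_assoc, tau_mul_tau, one_mul, mul_assoc, mul_assoc, tau_mul_tau, mul_one] at h2
  exact h2.symm

lemma put_comm (g h : Aut) : putAt u0 g * putAt u1 h = putAt u1 h * putAt u0 g := by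
  simp only [u0, u1, putAt_false, putAt_true, putAt_nil, mk'_false_mul, mul_one, one_mul]

/-- the product of the two copies -/
lemma secs_put0 (g h : Aut) : (putAt u0 g * putAt u1 h).secs u0 = g := by
  simp only [u0, u1, putAt_false, putAt_true, putAt_nil, mk'_false_mul, mul_one, one_mul]
  rfl

lemma secs_put1 (g h : Aut) : (putAt u0 g * putAt u1 h).secs u1 = h := by
  simp only [u0, u1, putAt_false, putAt_true, putAt_nil, mk'_false_mul, mul_one, one_mul]
  rfl

lemma put_p (g h : Aut) : (putAt u0 g * putAt u1 h).p [false, false, false, false] = false := by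
  simp only [u0, u1, putAt_false, putAt_true, putAt_nil, mk'_false_mul, mul_one, one_mul]
  rfl

lemma put_app (g h : Aut) : (putAt u0 g * putAt u1 h).app [false, false, false, false] =
    [false, false, false, false] := by
  simp only [u0, u1, putAt_false, putAt_true, putAt_nil, mk'_false_mul, mul_one, one_mul]
  rfl

lemma tau_app : tau.app [false, false, false, false] = [false, false, false, false] := by
  simp [tau]

lemma tau_p : tau.p [false, false, false, false] = true := by
  simp only [tau, z_eq, b_eq]
  rfl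

/-- power of `tau` attached to a sign -/
noncomputable def tp (e : ℤˣ) : Aut := if e = 1 then 1 else tau

lemma tp_one : tp 1 = 1 := by simp [tp]

lemma tp_neg : tp (-1) = tau := by
  rw [tp, if_neg (by decide)]

/-- the map on the wreath product -/
noncomputable def Phi {D : Type} [Group D] (θ : D →* Aut) (w : RegularWreathProduct D ℤˣ) : Aut :=
  putAt u0 (θ (w.left 1)) * putAt u1 (θ (w.left (-1))) * tp w.right

lemma Phi_mul {D : Type} [Group D] (θ : D →* Aut) (v w : RegularWreathProduct D ℤˣ) :
    Phi θ (v * w) = Phi θ v * Phi θ w := by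
  have key : ∀ A B C E T : Aut, (∀ g h : Aut, putAt u0 g * putAt u1 h = putAt u1 h * putAt u0 g) →
      putAt u0 A * putAt u1 B * (putAt u0 C * putAt u1 E * T) =
      putAt u0 (A * C) * putAt u1 (B * E) * T := by
    intro A B C E T hc
    rw [putAt_mul, putAt_mul]
    calc putAt u0 A * putAt u1 B * (putAt u0 C * putAt u1 E * T)
        = putAt u0 A * (putAt u1 B * putAt u0 C) * putAt u1 E * T := by simp only [mul_assoc]
      _ = putAt u0 A * (putAt u0 C * putAt u1 B) * putAt u1 E * T := by rw [hc C B]
      _ = _ := by simp only [mul_assoc]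
  rcases Int.units_eq_one_or v.right with h | h
  · simp only [Phi, RegularWreathProduct.mul_left, RegularWreathProduct.mul_right, h, tp_one,
      Pi.mul_apply, inv_one, one_mul, map_mul, mul_one]
    rw [key _ _ _ _ _ put_comm]
  · have hn : (-1 : ℤˣ)⁻¹ = -1 := by decide
    simp only [Phi, RegularWreathProduct.mul_left, RegularWreathProduct.mul_right, h, tp_neg,
      Pi.mul_apply, hn, map_mul, mul_one, neg_mul_neg]
    have ht : tp (-w.right) = tau * tp w.right := by
      rcases Int.units_eq_one_or w.right with h' | h'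
      · rw [h', tp_neg, tp_one, mul_one]
      · rw [h', neg_neg, tp_neg, tp_one, tau_mul_tau]
    rw [neg_one_mul, ht]
    have e1 : ∀ C E T : Aut, tau * (putAt u0 C * putAt u1 E * T) =
        putAt u0 E * putAt u1 C * (tau * T) := by
      intro C E T
      calc tau * (putAt u0 C * putAt u1 E * T) = (tau * putAt u0 C) * putAt u1 E * T := by
            simp only [mul_assoc]
        _ = putAt u1 C * (tau * putAt u1 E) * T := by rw [tau_put0]; simp only [mul_assoc]
        _ = putAt u1 C * putAt u0 E * (tau * T) := by rw [tau_put1]; simp only [mul_assoc]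
        _ = _ := by rw [put_comm E C]
    rw [mul_assoc (putAt u0 (θ (v.left 1)) * putAt u1 (θ (v.left (-1)))) tau, e1,
      key _ _ _ _ _ put_comm]

lemma Phi_one {D : Type} [Group D] (θ : D →* Aut) : Phi θ 1 = 1 := by
  simp [Phi, tp_one]

lemma Phi_inj {D : Type} [Group D] (θ : D →* Aut) (hθ : Function.Injective θ) :
    Function.Injective (Phi θ) := by
  intro v w hvw
  have hr : v.right = w.right := by
    have h1 := congrArg (fun g : Aut => g.p [false, false, false, false]) hvw
    have e : ∀ x : RegularWreathProduct D ℤˣ,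
        (Phi θ x).p [false, false, false, false] = if x.right = 1 then false else true := by
      intro x
      rcases Int.units_eq_one_or x.right with h | h
      · rw [Phi, h, tp_one, mul_one, put_p, if_pos rfl]
      · rw [Phi, h, tp_neg, p_mul, tau_app, put_p, tau_p, if_neg (by decide)]
        rfl
    simp only [e] at h1
    rcases Int.units_eq_one_or v.right with h | h <;>
    rcases Int.units_eq_one_or w.right with h' | h'
    · rw [h, h']
    · rw [h, h', if_pos rfl, if_neg (by decide)] at h1; exact absurd h1 (by decide)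
    · rw [h, h', if_pos rfl, if_neg (by decide)] at h1; exact absurd h1 (by decide)
    · rw [h, h']
  have h2 : putAt u0 (θ (v.left 1)) * putAt u1 (θ (v.left (-1))) =
      putAt u0 (θ (w.left 1)) * putAt u1 (θ (w.left (-1))) := by
    have h3 := hvw
    rw [Phi, Phi, hr] at h3
    exact mul_right_cancel h3
  have h3 := congrArg (fun g : Aut => g.secs u0) h2
  have h4 := congrArg (fun g : Aut => g.secs u1) h2
  simp only [secs_put0, secs_put1] at h3 h4
  have h5 := hθ h3
  have h6 := hθ h4
  apply RegularWreathProduct.ext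
  · funext x
    rcases Int.units_eq_one_or x with rfl | rfl
    · exact h5
    · exact h6
  · exact hr

lemma Phi_mem (h : T_K) {D : Type} [Group D] (θ : D →* Aut) (hθ : ∀ x, θ x ∈ KK)
    (w : RegularWreathProduct D ℤˣ) : Phi θ w ∈ KK := by
  refine KK_mul (KK_mul (h _ (hθ _) _) (h _ (hθ _) _)) ?_
  rw [tp]
  split_ifs
  · exact KK_one
  · exact tau_mem_KK

lemma iter (h : T_K) (n : ℕ) : ∃ θ : IteratedWreathProduct ℤˣ n →* Aut,
    Function.Injective θ ∧ ∀ x, θ x ∈ KK := by
  induction n with
  | zero =>
    refine ⟨1, ?_, fun x => ?_⟩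
    · intro x y _
      exact (Subsingleton.elim (α := PUnit) x y)
    · exact KK_one
  | succ n ih =>
    obtain ⟨θ, h1, h2⟩ := ih
    exact ⟨⟨⟨fun w => Phi θ w, Phi_one θ⟩, fun v w => Phi_mul θ v w⟩, Phi_inj θ h1,
      fun w => Phi_mem h θ h2 w⟩

end Embed_

open Embed_

theorem p_embed (h : T_K) : T_embed := by
  intro P _ _ hP
  have : Fact (Nat.Prime 2) := ⟨Nat.prime_two⟩
  obtain ⟨n, hn⟩ := IsPGroup.iff_card.1 hP
  have hinj : Function.Injective (MulAction.toPermHom P P) := MulAction.toPerm_injective
  set H : Subgroup (Equiv.Perm P) := (MulAction.toPermHom P P).range with hH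
  have hHp : IsPGroup 2 H := hP.of_surjective (MulAction.toPermHom P P).rangeRestrict
    (MonoidHom.rangeRestrict_surjective _)
  obtain ⟨S, hS⟩ := hHp.exists_le_sylow
  obtain ⟨θ, h1, h2⟩ := iter h n
  have e : S ≃* IteratedWreathProduct ℤˣ n :=
    Sylow.mulEquivIteratedWreathProduct 2 n P hn ℤˣ (by
      rw [Nat.card_eq_fintype_card]; exact Fintype.card_units_int) S
  let f : P →* S := (Subgroup.inclusion hS).comp (MulAction.toPermHom P P).rangeRestrict
  have hf : Function.Injective f := by
    refine (Subgroup.inclusion_injective hS).comp ?_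
    intro x y hxy
    apply hinj
    exact congrArg Subtype.val hxy
  refine ⟨(θ.comp e.toMonoidHom).comp f, ?_, fun x => ?_⟩
  · exact (h1.comp e.injective).comp hf
  · exact (h2 _).1

end Pool.Agent.Grig
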