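import Pool.Agent.Grig.Words
import Pool.Agent.Grig.Comp

set_option autoImplicit false

/-!
# The reduction is computable
-/

namespace Pool.Agent.Grig

open Aut

/-! ### Renaming variables -/

def mapL {V V' : Type} (f : V → V') : Letter V → Letter V'
  | .inl (v, s) => .inl (f v, s)
  | .inr i => .inr i

theorem evL_mapL {V V' : Type} (f : V → V') (x : V' → Aut) (l : Letter V) :
    evL x (mapL f l) = evL (fun v => x (f v)) l := by
  rcases l with ⟨v, s⟩ | i
  · cases s <;> rfl
  · rfl

theorem evW_mapL {V V' : Type} (f : V → V') (x : V' → Aut) (w : List (Letter V)) :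
    evW x (w.map (mapL f)) = evW (fun v => x (f v)) w := by
  unfold evW
  rw [List.map_map]
  congr 1
  apply List.map_congr_left
  intro l _
  exact evL_mapL f x l

theorem solvV_map {V V' : Type} {f : V → V'} (hf : Function.Injective f)
    (S : List (List (Letter V))) : SolvV (S.map (List.map (mapL f))) ↔ SolvV S := by
  constructor
  · rintro ⟨x, hx, hS⟩
    refine ⟨fun v => x (f v), fun v => hx _, fun w hw => ?_⟩
    rw [← evW_mapL]
    exact hS _ (List.mem_map_of_mem hw)
  · rintro ⟨x, hx, hS⟩
    refine ⟨Function.extend f x (fun _ => 1), ?_, ?_⟩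
    · intro v
      by_cases hv : ∃ u, f u = v
      · obtain ⟨u, rfl⟩ := hv
        rw [hf.extend_apply]; exact hx u
      · rw [Function.extend_apply' _ _ _ hv]; exact G.one_mem
    · intro w hw
      rw [List.mem_map] at hw
      obtain ⟨w', hw', rfl⟩ := hw
      rw [evW_mapL]
      have : (fun v => Function.extend f x (fun _ => 1) (f v)) = x := by
        funext v; rw [hf.extend_apply]
      rw [this]
      exact hS w' hw'

/-! ### Numbering the variables -/

def Nm.code {n : ℕ} : Nm n → ℕ × ℕ
  | .q i => (0, i)
  | .t i => (1, i)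
  | .s i => (2, i)
  | .e r => (3, r.toNat)
  | .F => (4, 0)
  | .V => (5, 0)
  | .W => (6, 0)
  | .g => (7, 0)
  | .x j => (8, j)
  | .y j => (9, j)
  | .v => (10, 0)

theorem Nm.code_injective {n : ℕ} : Function.Injective (Nm.code (n := n)) := by
  intro o o' h
  cases o <;> cases o' <;> simp only [Nm.code, Prod.mk.injEq] at h <;>
    first
    | rfl
    | exact absurd h.1 (by decide)
    | exact congrArg _ (Fin.ext h.2)
    | (rename_i r r'; cases r <;> cases r' <;> first | rfl | exact absurd h.2 (by decide))

def enc {n : ℕ} : Vr n → ℕ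
  | .inl o => 2 * Nat.pair o.code.1 o.code.2 + 1
  | .inr k => 2 * k

theorem enc_injective {n : ℕ} : Function.Injective (enc (n := n)) := by
  intro u v h
  rcases u with o | k <;> rcases v with o' | k' <;> simp only [enc] at h
  · have h1 : Nat.pair o.code.1 o.code.2 = Nat.pair o'.code.1 o'.code.2 := by omega
    rw [Nat.pair_eq_pair] at h1
    rw [Nm.code_injective (Prod.ext h1.1 h1.2)]
  · omega
  · omega
  · congr 1; omega

/-! ### The chain part, explicitly -/

/-- letters with numbered variables -/
abbrev NL := Letter ℕ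

def chainWord (T : ℕ) (k : ℕ) : List NL :=
  [.inl (2 * (k + 1), false), .inl (T, true), .inl (2 * k, true), .inl (T, false),
    .inl (2 * k, false)]

def endWord (v E0 E1 : ℕ) (N : ℕ) : List NL :=
  [.inl (v, false), .inl (E1, true), .inl (E0, true), .inl (2 * N, true), .inl (E0, false),
    .inl (2 * N, false), .inl (E1, false), .inl (2 * N, true), .inl (E0, true),
    .inl (2 * N, false), .inl (E0, false)]

theorem chain_map {n : ℕ} (i0 : Fin n) (N : ℕ) :
    (eChain i0 N).map (List.map (mapL enc)) =
      (Ex.eq (ch 0) (nm (.q i0))).map (mapL enc) ::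
      ((List.range N).map (chainWord (enc (n := n) (.inl (.t 0)))) ++
      [endWord (enc (n := n) (.inl .v)) (enc (n := n) (.inl (.e false)))
        (enc (n := n) (.inl (.e true))) N]) := by
  unfold eChain
  simp only [List.map_cons, List.map_append, List.map_map, List.map_nil]
  congr 1

theorem primrec_letter {f : ℕ → ℕ} (hf : Primrec f) (s : Bool) :
    Primrec (fun k => (Sum.inl (f k, s) : NL)) :=
  Primrec.sumInl.comp (Primrec.pair hf (Primrec.const s))

theorem primrec_cons {f : ℕ → NL} {g : ℕ → List NL} (hf : Primrec f) (hg : Primrec g) :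
    Primrec (fun k => f k :: g k) :=
  Primrec.list_cons.comp hf hg

theorem primrec_two_mul : Primrec (fun k : ℕ => 2 * k) :=
  Primrec.nat_mul.comp (Primrec.const 2) Primrec.id

theorem primrec_chainWord (T : ℕ) : Primrec (chainWord T) := by
  unfold chainWord
  have h2 : Primrec (fun k : ℕ => 2 * (k + 1)) :=
    Primrec.nat_mul.comp (Primrec.const 2) (Primrec.succ)
  exact primrec_cons (primrec_letter h2 _) (primrec_cons (primrec_letter (Primrec.const T) _)
    (primrec_cons (primrec_letter primrec_two_mul _)
      (primrec_cons (primrec_letter (Primrec.const T) _)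
        (primrec_cons (primrec_letter primrec_two_mul _) (Primrec.const [])))))

theorem primrec_endWord (v E0 E1 : ℕ) : Primrec (endWord v E0 E1) := by
  unfold endWord
  have c : ∀ (m : ℕ) (s : Bool), Primrec (fun _ : ℕ => (Sum.inl (m, s) : NL)) :=
    fun m s => primrec_letter (Primrec.const m) s
  have l : ∀ s : Bool, Primrec (fun k : ℕ => (Sum.inl (2 * k, s) : NL)) :=
    fun s => primrec_letter primrec_two_mul s
  exact primrec_cons (c _ _) (primrec_cons (c _ _) (primrec_cons (c _ _) (primrec_cons (l _)
    (primrec_cons (c _ _) (primrec_cons (l _) (primrec_cons (c _ _) (primrec_cons (l _)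
      (primrec_cons (c _ _) (primrec_cons (l _) (primrec_cons (c _ _) (Primrec.const [])))))))))))

theorem primrec_sys (fixed : List (List NL)) (w0 : List NL) (T v E0 E1 : ℕ) :
    Primrec (fun N : ℕ => fixed ++ (w0 :: ((List.range N).map (chainWord T) ++
      [endWord v E0 E1 N]))) := by
  refine Primrec.list_append.comp (Primrec.const fixed) (Primrec.list_cons.comp
    (Primrec.const w0) (Primrec.list_append.comp ?_ ?_))
  · exact Primrec.list_map Primrec.list_range ((primrec_chainWord T).comp Primrec.snd).to₂
  · exact Primrec.list_cons.comp (primrec_endWord v E0 E1) (Primrec.const [])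

theorem primrec_two_pow : Primrec (fun x : ℕ => 2 ^ x) := by
  have h : Primrec₂ ((· ^ ·) : ℕ → ℕ → ℕ) := Primrec₂.unpaired'.1 Nat.Primrec.pow
  exact h.comp (Primrec.const 2) Primrec.id

theorem abab_mem : a * b * a * b ∈ KK := by
  refine ⟨G.mul_mem (G.mul_mem (G.mul_mem a_mem b_mem) a_mem) b_mem, ?_, ?_⟩
  · simp only [D_mul]; rfl
  · simp only [lam_mul]; rfl

/-- **Main theorem** (portrait form), from the targets. -/
theorem main_of (hK : T_K) (hdesc : T_desc) (hinit : T_init) (htr : T_trunc)
    (hprod : T_prod) (hemb : T_embed) (hres : T_resid) (hrun : T_run) (hmodel : T_model)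
    (hprog : T_prog) (hcmp : T_comp) :
    ¬ ComputablePred (fun S : List (List NL) => SolvV S) := by
  intro hcomp
  obtain ⟨P, hP⟩ := hprog
  obtain ⟨n, M, i0, hM⟩ := hcmp P
  apply hP
  -- words for the constants
  obtain ⟨hst, hmem, htr3, htr4, htr5⟩ := htr
  obtain ⟨wF, eF⟩ := exists_cst (hmem 2).1
  obtain ⟨wV, eV⟩ := exists_cst (hmem 2).2.1
  obtain ⟨wW, eW⟩ := exists_cst (hmem 2).2.2
  have hkap : ∀ u : List Bool, ∃ w : List (Fin 4), (w.map gens).prod = kap u := fun u =>
    exists_cst (hK _ abab_mem u).1
  choose kp hkp using hkap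
  -- the reduction
  let red : ℕ → List (List NL) := fun N =>
    (eSys M i0 wF wV wW kp N).map (List.map (mapL enc))
  have hred : Primrec red := by
    have h1 := primrec_sys ((eRel M ++ eRay wF wV wW kp).map (List.map (mapL enc)))
      ((Ex.eq (ch 0) (nm (.q i0)) : List (Letter (Vr n))).map (mapL enc))
      (enc (n := n) (.inl (.t 0))) (enc (n := n) (.inl .v)) (enc (n := n) (.inl (.e false)))
      (enc (n := n) (.inl (.e true)))
    refine h1.of_eq fun N => ?_
    change _ = (eSys M i0 wF wV wW kp N).map (List.map (mapL enc))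
    have e1 : eSys M i0 wF wV wW kp N = (eRel M ++ eRay wF wV wW kp) ++ eChain i0 N := rfl
    rw [e1, List.map_append (l₁ := eRel M ++ eRay wF wV wW kp), chain_map]
  have hiff : ∀ N : ℕ, SolvV (red N) ↔ Halts M (i0, N, 0) := by
    intro N
    change SolvV ((eSys M i0 wF wV wW kp N).map (List.map (mapL enc))) ↔ _
    rw [solvV_map enc_injective, eSys_iff M i0 N eF eV eW (fun u _ => hkp u)]
    constructor
    · rintro ⟨q, t, s, e, F, V, W, g, x, y, hS, hG⟩
      exact sound hrun hres hdesc hinit hst hS hG
    · intro hh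
      exact complete hmodel hemb ⟨hst, hmem, htr3, htr4, htr5⟩ hprod hh
  have hmo : (fun x : ℕ => P.Halt (st2 x 0)) ≤₀ (fun S : List (List NL) => SolvV S) := by
    refine ⟨fun x => red (2 ^ x), (hred.comp primrec_two_pow).to_comp, fun x => ?_⟩
    change P.Halt (st2 x 0) ↔ SolvV (red (2 ^ x))
    rw [hiff, hM]
  exact ComputablePred.computable_of_manyOneReducible hmo hcomp

end Pool.Agent.Grig
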