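import Pool.Agent.Grig.Targets

/-!
# From two-register while-programs to instruction tables
-/

set_option autoImplicit false

namespace Pool.Agent.Grig

namespace Flat

/-- Instructions of a fragment with states `S`; the state `none` is the exit. -/
inductive Ins (S : Type) where
  | inc (r : Bool) (j : Option S) : Ins S
  | dec (r : Bool) (j k : Option S) : Ins S

/-- Change of the state names. -/
def Ins.mp {S S' : Type} (f : Option S → Option S') : Ins S → Ins S'
  | .inc r j => .inc r (f j)
  | .dec r j k => .dec r (f j) (f k)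

/-- The effect of one instruction. -/
def eff {S : Type} (i : Ins S) (x y : ℕ) : Option S × ℕ × ℕ :=
  match i with
  | .inc false j => (j, x + 1, y)
  | .inc true j => (j, x, y + 1)
  | .dec false j k => if x = 0 then (k, x, y) else (j, x - 1, y)
  | .dec true j k => if y = 0 then (k, x, y) else (j, x, y - 1)

lemma eff_mp {S S' : Type} (f : Option S → Option S') (i : Ins S) (x y : ℕ) :
    eff (i.mp f) x y = (f (eff i x y).1, (eff i x y).2) := by
  cases i with
  | inc r j => cases r <;> rfl
  | dec r j k =>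
    cases r
    · simp only [eff, Ins.mp]; split_ifs <;> rfl
    · simp only [eff, Ins.mp]; split_ifs <;> rfl

/-- The fragment `T` leaves through the exit after exactly `n` steps. -/
inductive Ex {S : Type} (T : S → Ins S) : ℕ → Option S → ℕ → ℕ → ℕ → ℕ → Prop
  | done (x y : ℕ) : Ex T 0 none x y x y
  | next {n : ℕ} {s : S} {x y x' y' : ℕ}
      (h : Ex T n (eff (T s) x y).1 (eff (T s) x y).2.1 (eff (T s) x y).2.2 x' y') :
      Ex T (n + 1) (some s) x y x' y'

/-- Names of the states of a part of a bigger fragment. -/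
def lift {S S' : Type} (g : S → S') (o : Option S') : Option S → Option S'
  | none => o
  | some s => some (g s)

lemma sim_forward {S S' : Type} {T : S → Ins S} {T' : S' → Ins S'} (g : S → S') (o : Option S')
    (h : ∀ s, T' (g s) = (T s).mp (lift g o)) {n : ℕ} {q : Option S} {x y x' y' : ℕ}
    (h1 : Ex T n q x y x' y') {m x'' y'' : ℕ} (h2 : Ex T' m o x' y' x'' y'') :
    Ex T' (n + m) (lift g o q) x y x'' y'' := by
  induction h1 with
  | done x y => simpa [lift] using h2
  | @next n s x y x' y' h3 ih =>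
    have h4 := ih h2
    have h5 : n + 1 + m = (n + m) + 1 := by omega
    rw [h5]
    refine Ex.next ?_
    rw [h s, eff_mp]
    exact h4

lemma sim_backward {S S' : Type} {T : S → Ins S} {T' : S' → Ins S'} (g : S → S') (o : Option S')
    (h : ∀ s, T' (g s) = (T s).mp (lift g o)) :
    ∀ (N : ℕ) (q : Option S) (x y x'' y'' : ℕ), Ex T' N (lift g o q) x y x'' y'' →
      ∃ n m x' y', N = n + m ∧ Ex T n q x y x' y' ∧ Ex T' m o x' y' x'' y'' := by
  intro N
  induction N with
  | zero =>
    intro q x y x'' y'' h1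
    cases q with
    | none => exact ⟨0, 0, x, y, rfl, Ex.done x y, h1⟩
    | some s => exact absurd h1 (by intro h2; simp only [lift] at h2; cases h2)
  | succ N ih =>
    intro q x y x'' y'' h1
    cases q with
    | none => exact ⟨0, N + 1, x, y, (Nat.zero_add _).symm, Ex.done x y, h1⟩
    | some s =>
      simp only [lift] at h1
      cases h1 with
      | next h2 =>
        rw [h s, eff_mp] at h2
        obtain ⟨n, m, x', y', h3, h4, h5⟩ := ih _ _ _ _ _ h2
        exact ⟨n + 1, m, x', y', by omega, Ex.next h4, h5⟩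

lemma ex_none {S : Type} {T : S → Ins S} {n x y x' y' : ℕ} (h : Ex T n none x y x' y') :
    n = 0 ∧ x' = x ∧ y' = y := by
  cases h
  exact ⟨rfl, rfl, rfl⟩

lemma st2_inj {x y x' y' : ℕ} (h : st2 x y = st2 x' y') : x = x' ∧ y = y' :=
  ⟨by simpa [st2] using congrFun h 0, by simpa [st2] using congrFun h 1⟩

lemma update0 (x y v : ℕ) : Function.update (st2 x y) 0 v = st2 v y := by
  funext r
  by_cases h : r = 0
  · subst h; simp [st2]
  · simp [st2, h]

lemma update1 (x y v : ℕ) : Function.update (st2 x y) 1 v = st2 x v := by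
  funext r
  by_cases h : r = 1
  · subst h; simp [st2]
  · by_cases h0 : r = 0
    · subst h0; simp [st2]
    · simp [st2, h, h0]

lemma st2_0 (x y : ℕ) : st2 x y 0 = x := by simp [st2]

lemma st2_1 (x y : ℕ) : st2 x y 1 = y := by simp [st2]

/-- The registers other than `0` and `1` stay zero. -/
lemma exec_two {Q : Prog} {s s' : ℕ → ℕ} (h : Exec Q s s') (hQ : Q.Two) :
    ∀ x y, s = st2 x y → ∃ x' y', s' = st2 x' y' := by
  induction h with
  | inc r s =>
    rintro x y rfl
    have hr : r < 2 := hQ
    interval_cases r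
    · exact ⟨_, _, update0 _ _ _⟩
    · exact ⟨_, _, update1 _ _ _⟩
  | dec r s =>
    rintro x y rfl
    have hr : r < 2 := hQ
    interval_cases r
    · exact ⟨_, _, update0 _ _ _⟩
    · exact ⟨_, _, update1 _ _ _⟩
  | seq h h' ih ih' =>
    intro x y hs
    obtain ⟨x1, y1, h1⟩ := ih hQ.1 x y hs
    exact ih' hQ.2 x1 y1 h1
  | loop0 h => intro x y hs; exact ⟨x, y, hs⟩
  | loopS h h' h'' ih ih' =>
    intro x y hs
    obtain ⟨x1, y1, h1⟩ := ih hQ.2 x y hs
    exact ih' hQ x1 y1 h1

/-- The fragment `T` with entry `e` computes `Q`. -/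
def Spec {S : Type} (T : S → Ins S) (e : S) (Q : Prog) : Prop :=
  ∀ x y x' y' : ℕ, (∃ n, Ex T n (some e) x y x' y') ↔ Exec Q (st2 x y) (st2 x' y')

lemma single {i : Ins Unit} (hi : ∀ x y, (eff i x y).1 = none) (x y x' y' : ℕ) :
    (∃ n, Ex (fun _ : Unit => i) n (some ()) x y x' y') ↔ (eff i x y).2 = (x', y') := by
  constructor
  · rintro ⟨n, h⟩
    cases h with
    | next h1 =>
      rw [hi] at h1
      obtain ⟨-, h2, h3⟩ := ex_none h1
      exact Prod.ext h2.symm h3.symm
  · intro h
    refine ⟨1, Ex.next ?_⟩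
    rw [hi, h]
    exact Ex.done _ _

lemma exec_inc {r : ℕ} {s s' : ℕ → ℕ} :
    Exec (.inc r) s s' ↔ Function.update s r (s r + 1) = s' := by
  constructor
  · rintro ⟨⟩; rfl
  · rintro rfl; exact Exec.inc r s

lemma exec_dec {r : ℕ} {s s' : ℕ → ℕ} :
    Exec (.dec r) s s' ↔ Function.update s r (s r - 1) = s' := by
  constructor
  · rintro ⟨⟩; rfl
  · rintro rfl; exact Exec.dec r s

lemma pair_iff {x y x' y' : ℕ} : (x, y) = (x', y') ↔ st2 x y = st2 x' y' := by
  constructor
  · intro h
    rw [Prod.mk.injEq] at h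
    rw [h.1, h.2]
  · intro h
    obtain ⟨h1, h2⟩ := st2_inj h
    rw [h1, h2]

lemma spec_inc (r : ℕ) (hr : r < 2) : ∃ (S : Type) (_ : Finite S) (T : S → Ins S) (e : S),
    Spec T e (.inc r) := by
  refine ⟨Unit, inferInstance, fun _ => .inc (decide (r = 1)) none, (), fun x y x' y' => ?_⟩
  interval_cases r
  · rw [single (fun _ _ => rfl), exec_inc, update0, st2_0, ← pair_iff]
    rfl
  · rw [single (fun _ _ => rfl), exec_inc, update1, st2_1, ← pair_iff]
    rfl

lemma spec_dec (r : ℕ) (hr : r < 2) : ∃ (S : Type) (_ : Finite S) (T : S → Ins S) (e : S),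
    Spec T e (.dec r) := by
  refine ⟨Unit, inferInstance, fun _ => .dec (decide (r = 1)) none none, (), fun x y x' y' => ?_⟩
  interval_cases r
  · have h0 : decide (0 = 1) = false := rfl
    rw [h0, single (fun x y => by simp only [eff]; split_ifs <;> rfl), exec_dec, update0, st2_0,
      ← pair_iff]
    have h1 : (eff (.dec false none none : Ins Unit) x y).2 = (x - 1, y) := by
      simp only [eff]
      split_ifs with h
      · rw [h]
      · rfl
    rw [h1]
  · have h0 : decide (1 = 1) = true := rfl
    rw [h0, single (fun x y => by simp only [eff]; split_ifs <;> rfl), exec_dec, update1, st2_1,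
      ← pair_iff]
    have h1 : (eff (.dec true none none : Ins Unit) x y).2 = (x, y - 1) := by
      simp only [eff]
      split_ifs with h
      · rw [h]
      · rfl
    rw [h1]

lemma spec_seq {P Q : Prog} (hP : P.Two)
    (h1 : ∃ (S : Type) (_ : Finite S) (T : S → Ins S) (e : S), Spec T e P)
    (h2 : ∃ (S : Type) (_ : Finite S) (T : S → Ins S) (e : S), Spec T e Q) :
    ∃ (S : Type) (_ : Finite S) (T : S → Ins S) (e : S), Spec T e (.seq P Q) := by
  obtain ⟨S1, _, T1, e1, h1⟩ := h1
  obtain ⟨S2, _, T2, e2, h2⟩ := h2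
  set T : S1 ⊕ S2 → Ins (S1 ⊕ S2) := Sum.elim
    (fun s => (T1 s).mp (lift Sum.inl (some (Sum.inr e2))))
    (fun s => (T2 s).mp (lift Sum.inr none)) with hT
  have hs1 : ∀ s, T (Sum.inl s) = (T1 s).mp (lift Sum.inl (some (Sum.inr e2))) := fun s => rfl
  have hs2 : ∀ s, T (Sum.inr s) = (T2 s).mp (lift Sum.inr none) := fun s => rfl
  refine ⟨S1 ⊕ S2, inferInstance, T, Sum.inl e1, fun x y x' y' => ?_⟩
  constructor
  · rintro ⟨N, h⟩
    obtain ⟨n, m, a, b, -, h3, h4⟩ := sim_backward (T := T1) _ _ hs1 N (some e1) x y x' y' h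
    obtain ⟨n', m', a', b', -, h5, h6⟩ := sim_backward (T := T2) _ _ hs2 m (some e2) a b x' y' h4
    obtain ⟨-, rfl, rfl⟩ := ex_none h6
    exact Exec.seq ((h1 _ _ _ _).1 ⟨_, h3⟩) ((h2 _ _ _ _).1 ⟨_, h5⟩)
  · intro h
    generalize hs : st2 x y = s at h
    generalize hs' : st2 x' y' = s' at h
    cases h with
    | seq h3 h4 =>
      subst hs hs'
      obtain ⟨a, b, rfl⟩ := exec_two h3 hP x y rfl
      obtain ⟨n, h5⟩ := (h1 _ _ _ _).2 h3
      obtain ⟨m, h6⟩ := (h2 _ _ _ _).2 h4
      exact ⟨_, sim_forward Sum.inl _ hs1 h5 (sim_forward Sum.inr _ hs2 h6 (Ex.done _ _))⟩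

/-- The value of the register number `0` or `1`. -/
def reg (r : Bool) (x y : ℕ) : ℕ := bif r then y else x

lemma eff_test {S : Type} (r : Bool) (j k : Option S) (x y : ℕ) :
    (reg r x y = 0 → eff (.dec r j k) x y = (k, x, y)) ∧
    (reg r x y ≠ 0 → (eff (.dec r j k) x y).1 = j ∧
      ∀ l : Option S, eff (.inc r l) (eff (.dec r j k) x y).2.1 (eff (.dec r j k) x y).2.2
        = (l, x, y)) := by
  cases r
  · constructor
    · intro h
      have h : x = 0 := h
      simp [eff, h]
    · intro h
      have h : x ≠ 0 := h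
      simp only [eff, if_neg h]
      exact ⟨trivial, fun l => by rw [Nat.sub_add_cancel (Nat.pos_of_ne_zero h)]⟩
  · constructor
    · intro h
      have h : y = 0 := h
      simp [eff, h]
    · intro h
      have h : y ≠ 0 := h
      simp only [eff, if_neg h]
      exact ⟨trivial, fun l => by rw [Nat.sub_add_cancel (Nat.pos_of_ne_zero h)]⟩

lemma spec_loop {P : Prog} (hP : P.Two) (r : ℕ) (hr : r < 2)
    (h1 : ∃ (S : Type) (_ : Finite S) (T : S → Ins S) (e : S), Spec T e P) :
    ∃ (S : Type) (_ : Finite S) (T : S → Ins S) (e : S), Spec T e (.loop r P) := by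
  obtain ⟨S1, _, T1, e1, h1⟩ := h1
  set rb : Bool := decide (r = 1) with hrb
  have hreg : ∀ x y, st2 x y r = reg rb x y := by
    intro x y
    interval_cases r <;> simp [st2, reg, hrb]
  set T : Bool ⊕ S1 → Ins (Bool ⊕ S1) := Sum.elim
    (fun c => bif c then .inc rb (some (Sum.inr e1)) else .dec rb (some (Sum.inl true)) none)
    (fun s => (T1 s).mp (lift Sum.inr (some (Sum.inl false)))) with hT
  have ht : T (Sum.inl false) = .dec rb (some (Sum.inl true)) none := rfl
  have hi : T (Sum.inl true) = .inc rb (some (Sum.inr e1)) := rfl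
  have hs1 : ∀ s, T (Sum.inr s) = (T1 s).mp (lift Sum.inr (some (Sum.inl false))) := fun s => rfl
  refine ⟨Bool ⊕ S1, inferInstance, T, Sum.inl false, fun x y x' y' => ?_⟩
  constructor
  · rintro ⟨N, h⟩
    induction N using Nat.strong_induction_on generalizing x y with
    | _ N ih =>
      cases h with
      | @next N _ _ _ _ _ h =>
        rw [ht] at h
        by_cases h0 : reg rb x y = 0
        · rw [(eff_test rb (some (Sum.inl true)) none x y).1 h0] at h
          obtain ⟨-, rfl, rfl⟩ := ex_none h
          exact Exec.loop0 (by rw [hreg]; exact h0)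
        · obtain ⟨h2, h3⟩ := (eff_test rb (some (Sum.inl true : Bool ⊕ S1)) none x y).2 h0
          rw [h2] at h
          cases h with
          | @next N _ _ _ _ _ h =>
            rw [hi, h3] at h
            obtain ⟨n, m, a, b, h4, h5, h6⟩ :=
              sim_backward (T := T1) _ _ hs1 N (some e1) x y x' y' h
            refine Exec.loopS (by rw [hreg]; exact h0) ((h1 _ _ _ _).1 ⟨_, h5⟩) ?_
            exact ih m (by omega) a b h6
  · intro h
    generalize hQ : Prog.loop r P = Q at h
    generalize hs : st2 x y = s at h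
    generalize hs' : st2 x' y' = s' at h
    induction h generalizing x y with
    | inc r s => cases hQ
    | dec r s => cases hQ
    | seq h h' => cases hQ
    | @loop0 r' P' s h =>
      cases hQ
      subst hs
      obtain ⟨rfl, rfl⟩ := st2_inj hs'
      rw [hreg] at h
      refine ⟨1, Ex.next ?_⟩
      rw [ht, (eff_test rb (some (Sum.inl true)) none _ _).1 h]
      exact Ex.done _ _
    | @loopS r' P' s s1 s2 h h' h'' ih ih' =>
      cases hQ
      subst hs
      obtain ⟨a, b, rfl⟩ := exec_two h' hP x y rfl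
      rw [hreg] at h
      obtain ⟨h2, h3⟩ := (eff_test rb (some (Sum.inl true : Bool ⊕ S1)) none x y).2 h
      obtain ⟨n, h5⟩ := (h1 _ _ _ _).2 h'
      obtain ⟨m, h6⟩ := ih' a b rfl rfl hs'
      refine ⟨n + m + 1 + 1, Ex.next ?_⟩
      rw [ht, h2]
      refine Ex.next ?_
      rw [hi, h3]
      exact sim_forward Sum.inr _ hs1 h5 h6

lemma spec_all (Q : Prog) (hQ : Q.Two) :
    ∃ (S : Type) (_ : Finite S) (T : S → Ins S) (e : S), Spec T e Q := by
  induction Q with
  | inc r => exact spec_inc r hQ
  | dec r => exact spec_dec r hQ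
  | seq P Q ihP ihQ => exact spec_seq hQ.1 (ihP hQ.1) (ihQ hQ.2)
  | loop r P ih => exact spec_loop hQ.2 r hQ.1 (ih hQ.2)

/-- The instruction table of a fragment. -/
def table {S : Type} {n : ℕ} (T : S → Ins S) (f : Option S ≃ Fin n) (i : Fin n) : Instr n :=
  match f.symm i with
  | none => .halt
  | some s => match T s with
    | .inc r j => .inc r (f j)
    | .dec r j k => .dec r (f j) (f k)

lemma step_none {S : Type} {n : ℕ} (T : S → Ins S) (f : Option S ≃ Fin n) (x y : ℕ) :
    step (table T f) (f none, x, y) = none := by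
  simp [step, table]

lemma step_some {S : Type} {n : ℕ} (T : S → Ins S) (f : Option S ≃ Fin n) (s : S) (x y : ℕ) :
    step (table T f) (f (some s), x, y) =
      some (f (eff (T s) x y).1, (eff (T s) x y).2) := by
  simp only [step, table, Equiv.symm_apply_apply]
  cases T s with
  | inc r j => cases r <;> rfl
  | dec r j k =>
    cases r
    · simp only [eff]; split_ifs <;> rfl
    · simp only [eff]; split_ifs <;> rfl

lemma run_succ {n : ℕ} (M : Fin n → Instr n) (x : Fin n × ℕ × ℕ) (k : ℕ) :
    run M x (k + 1) = (step M x).bind (fun y => run M y k) := by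
  induction k with
  | zero =>
    simp only [run, Option.bind_some]
    cases step M x <;> rfl
  | succ k ih =>
    rw [run, ih]
    cases step M x with
    | none => rfl
    | some y => rfl

end Flat

open Flat in
theorem p_flat : T_flat := by
  intro Q hQ
  obtain ⟨S, _, T, e, hS⟩ := spec_all Q hQ
  set f : Option S ≃ Fin (Nat.card (Option S)) := Finite.equivFin _ with hf
  refine ⟨_, table T f, f (some e), fun x y => ?_⟩
  have h1 : Q.Halt (st2 x y) ↔ ∃ x' y' n, Ex T n (some e) x y x' y' := by
    constructor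
    · rintro ⟨s', h⟩
      obtain ⟨x', y', rfl⟩ := exec_two h hQ x y rfl
      exact ⟨x', y', (hS _ _ _ _).2 h⟩
    · rintro ⟨x', y', h⟩
      exact ⟨_, (hS _ _ _ _).1 h⟩
  rw [h1]
  clear h1 hS
  constructor
  · rintro ⟨x', y', n, h⟩
    generalize some e = q at h ⊢
    unfold Halts
    induction h with
    | done x y => exact ⟨1, by rw [run_succ, step_none]; rfl⟩
    | next h ih =>
      obtain ⟨k, hk⟩ := ih
      exact ⟨k + 1, by rw [run_succ, step_some]; exact hk⟩
  · rintro ⟨k, hk⟩
    generalize some e = q at hk ⊢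
    induction k generalizing q x y with
    | zero => simp [run] at hk
    | succ k ih =>
      cases q with
      | none => exact ⟨x, y, 0, Ex.done x y⟩
      | some s =>
        rw [run_succ, step_some, Option.bind_some] at hk
        obtain ⟨x', y', n, h⟩ := ih _ _ _ hk
        exact ⟨x', y', n + 1, Ex.next h⟩

end Pool.Agent.Grig
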