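import Pool.Agent.Grig.Targets

set_option autoImplicit false

/-! # The law -/

namespace Pool.Agent.Grig
namespace LawAux

open Aut

/-- an automorphism commuting with `a` has equal sections -/
theorem comm_a {g : Aut} (h : g * a = a * g) : g.sec false = g.sec true := by
  have h1 := congrArg (fun x => Aut.sec x true) h
  simp only [sec_mul, act_a, sec_a, mul_one, one_mul, Bool.xor_true, Bool.not_true] at h1
  exact h1

theorem phi_fix : ∀ t : Bool × Bool × Bool, t = phi t → t.1 = false ∧ t.2.1 = t.2.2 := by decide

theorem lam_two (g : Aut) : lam 2 g = xor (lam 1 (g.sec false)) (lam 1 (g.sec true)) := rfl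
theorem lam_three (g : Aut) : lam 3 g = xor (lam 2 (g.sec false)) (lam 2 (g.sec true)) := rfl
theorem lam_four (g : Aut) : lam 4 g = xor (lam 3 (g.sec false)) (lam 3 (g.sec true)) := rfl
theorem lam_one (g : Aut) : lam 1 g = xor ((g.sec false).act) ((g.sec true).act) := rfl

theorem lam_sq (j : ℕ) (g : Aut) : lam j (g ^ 2) = false := by
  rw [pow_two, lam_mul]; cases lam j g <;> rfl

/-- if `g ∈ G` acts at the root and `lam 1 g = true` then the level two sections of `g ^ 4` are
not killed by `lam 2` -/
theorem pow_four_active {g : Aut} (hg : lam 4 g = lam 1 g) (ha : g.act = true)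
    (h1 : lam 1 g = true) : lam 2 ((((g ^ 4).sec false)).sec false) = true := by
  set h := g.sec true * g.sec false with hh
  have e1 : (g ^ 2).act = false := by rw [pow_two]; simp [ha]
  have e2 : (g ^ 2).sec false = h := by
    rw [pow_two, sec_mul, ha]; rfl
  have e3 : (g ^ 4).sec false = h * h := by
    have : g ^ 4 = g ^ 2 * g ^ 2 := by rw [← pow_add]
    rw [this, sec_mul, e1, Bool.xor_false, e2]
  have e4 : h.act = true := by
    rw [hh, act_mul]
    rw [lam_one] at h1
    revert h1; cases (g.sec false).act <;> cases (g.sec true).act <;> simp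
  have e5 : (h * h).sec false = h.sec true * h.sec false := by
    rw [sec_mul, e4]; rfl
  rw [e3, e5, lam_mul]
  have e6 : lam 3 h = true := by
    rw [hh, lam_mul]
    rw [← hg, lam_four] at h1
    revert h1; cases lam 3 (g.sec false) <;> cases lam 3 (g.sec true) <;> simp
  rw [lam_three] at e6
  revert e6; cases lam 2 (h.sec false) <;> cases lam 2 (h.sec true) <;> simp

/-- if `x` does not act at the root then the level two sections of `x ^ 4` are killed -/
theorem pow_four_inactive {x : Aut} (ha : x.act = false) :
    lam 2 ((((x ^ 4).sec false)).sec false) = false := by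
  have pw : ∀ n : ℕ, (x ^ n).act = false ∧ (x ^ n).sec false = (x.sec false) ^ n := by
    intro n
    induction n with
    | zero => exact ⟨rfl, rfl⟩
    | succ n ih =>
      refine ⟨by rw [pow_succ, act_mul, ih.1, ha]; rfl, ?_⟩
      rw [pow_succ, sec_mul, ha, Bool.xor_false, ih.2, pow_succ]
  rw [(pw 4).2]
  set y := x.sec false
  have e1 : (y ^ 2).act = false := by rw [pow_two]; simp
  have e2 : (y ^ 4).sec false = ((y ^ 2).sec false) ^ 2 := by
    have : y ^ 4 = y ^ 2 * y ^ 2 := by rw [← pow_add]
    rw [this, sec_mul, e1, Bool.xor_false, ← pow_two]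
  rw [e2, lam_sq]

end LawAux

open Aut LawAux

theorem p_law (hlam : T_lam) (hD : T_D) (hsec : T_sec) : T_law := by
  intro w hw v hv y hy hwa hva hact hya hy2 hy3 heq
  set M := w * v * a with hM
  have hMG : M ∈ G := G.mul_mem (G.mul_mem hw hv) a_mem
  have hw0 := comm_a hwa
  have hv0 := comm_a hva
  have hMa : M * a = a * M := by
    rw [hM, mul_assoc w v a, hva, ← mul_assoc w a v, hwa, mul_assoc a w v,
      mul_assoc a (w * v) a, mul_assoc w v a, hva, ← mul_assoc w a v, hwa, mul_assoc a w v]
  have hM0 := comm_a hMa
  set x := M.sec false with hx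
  have hxG : x ∈ G := hsec M hMG false
  have hMact : M.act = false := by
    rw [hM]; simp only [act_mul, act_a]
    revert hact; cases w.act <;> cases v.act <;> simp
  have hphi : D x = phi (D x) := by
    have h1 := hD M hMG
    rw [← hM0] at h1
    exact h1
  obtain ⟨hxact, hx3⟩ := phi_fix _ hphi
  have hxact' : x.act = false := hxact
  have hx3' : lam 3 x = false := by
    rw [lam_three]
    have : lam 2 (x.sec false) = lam 2 (x.sec true) := hx3
    rw [this]; simp
  have hx12 : lam 1 x = lam 2 x := by
    have h1 := (hlam x hxG).1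
    rw [hx3'] at h1
    revert h1; cases lam 1 x <;> cases lam 2 x <;> simp
  -- section of `M` at `0`
  have hMsec : x = w.sec true * v.sec true := by
    rw [hx, hM]
    simp only [sec_mul, act_a, sec_a, mul_one, Bool.xor_true, Bool.not_false]
    cases hva' : v.act
    · simp
    · simp [hw0]
  have hgoal : lam 2 x = xor (lam 2 (w.sec false)) (lam 2 (v.sec false)) := by
    rw [hMsec, lam_mul, hw0, hv0]
  rw [← hgoal]
  by_contra hcon
  have hx2 : lam 2 x = false := by simpa using hcon
  set N := w * v * y * a * y with hN
  have hNM : N = M * (a * y * a) * y := by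
    rw [hN, hM]
    have : a * a = 1 := a_mul_a
    calc w * v * y * a * y = w * v * (1 * y) * a * y := by rw [one_mul]
      _ = w * v * (a * a * y) * a * y := by rw [this]
      _ = w * v * a * (a * y * a) * y := by simp only [mul_assoc]
  have hNact : N.act = false := by
    rw [hNM]; simp [hMact, hya]
  set g := x * y.sec true * y.sec false with hg
  have hN0 : N.sec false = g := by
    rw [hNM]
    simp only [sec_mul, hya, act_mul, act_a, sec_a, mul_one, one_mul, Bool.xor_false,
      Bool.xor_true, Bool.not_false, Bool.not_true]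
    rw [hg, hx]
  have hgG : g ∈ G := G.mul_mem (G.mul_mem hxG (hsec y hy true)) (hsec y hy false)
  have hy1 : lam 1 y = true := by
    have h1 := (hlam y hy).1
    rw [hy2, hy3] at h1
    revert h1; cases lam 1 y <;> simp
  have hgact : g.act = true := by
    rw [hg]; simp only [act_mul, hxact']
    rw [lam_one] at hy1
    revert hy1; cases (y.sec false).act <;> cases (y.sec true).act <;> simp
  have hg1 : lam 1 g = true := by
    rw [hg]; simp only [lam_mul, hx12, hx2]
    rw [lam_two] at hy2
    revert hy2; cases lam 1 (y.sec false) <;> cases lam 1 (y.sec true) <;> simp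
  have pw : ∀ (X : Aut), X.act = false → ∀ n : ℕ, (X ^ n).act = false ∧
      (X ^ n).sec false = (X.sec false) ^ n := by
    intro X hX n
    induction n with
    | zero => exact ⟨rfl, rfl⟩
    | succ n ih =>
      refine ⟨by rw [pow_succ, act_mul, ih.1, hX]; rfl, ?_⟩
      rw [pow_succ, sec_mul, hX, Bool.xor_false, ih.2, pow_succ]
  have heq4 : g ^ 4 = x ^ 4 := by
    have h1 := congrArg (fun X => Aut.sec X false) heq
    rw [(pw N hNact 4).2, (pw M hMact 4).2, hN0] at h1
    exact h1
  have h1 := pow_four_active (hlam g hgG).2 hgact hg1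
  rw [heq4, pow_four_inactive hxact'] at h1
  exact Bool.false_ne_true h1

end Pool.Agent.Grig
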