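import Pool.Agent.Grig.Targets

set_option autoImplicit false

/-! GRI-10: a halting machine gives a finite `2`-group. -/

namespace Pool.Agent.Grig

namespace Model_

/-! ### The space -/

/-- functions on `ℕ³` vanishing outside a box -/
def MB (B : ℕ) : AddSubgroup (ℕ → ℕ → ℕ → ZMod 2) where
  carrier := {f | ∀ x y z, (B ≤ x ∨ B ≤ y ∨ B ≤ z) → f x y z = 0}
  zero_mem' := fun _ _ _ _ => rfl
  add_mem' := by
    intro f g hf hg x y z h
    show f x y z + g x y z = 0
    rw [hf x y z h, hg x y z h, add_zero]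
  neg_mem' := by
    intro f hf x y z h
    show - f x y z = 0
    rw [hf x y z h, neg_zero]

variable {B : ℕ}

instance : Finite (MB B) := by
  apply Finite.of_injective
    (fun (f : MB B) (p : Fin B × Fin B × Fin B) => f.1 p.1 p.2.1 p.2.2)
  intro f g hfg
  apply Subtype.ext
  funext x y z
  by_cases h : B ≤ x ∨ B ≤ y ∨ B ≤ z
  · rw [f.2 x y z h, g.2 x y z h]
  · push Not at h
    exact congrFun hfg (⟨x, h.1⟩, ⟨y, h.2.1⟩, ⟨z, h.2.2⟩)

/-- `f` vanishes in degrees at least `d` -/
def FF (d : ℕ) (f : MB B) : Prop := ∀ x y z, d ≤ x + y + z → f.1 x y z = 0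

theorem FF_all (f : MB B) : FF (3 * B) f := by
  intro x y z h
  apply f.2
  omega

theorem FF_zero {f : MB B} (h : FF 0 f) : f = 0 := by
  apply Subtype.ext
  funext x y z
  exact h x y z (Nat.zero_le _)

theorem FF_mono {d e : ℕ} (hde : d ≤ e) {f : MB B} (h : FF d f) : FF e f :=
  fun x y z hx => h x y z (hde.trans hx)

theorem FF_add {d : ℕ} {f g : MB B} (hf : FF d f) (hg : FF d g) : FF d (f + g) := by
  intro x y z h
  show f.1 x y z + g.1 x y z = 0
  rw [hf x y z h, hg x y z h, add_zero]

theorem FF_neg {d : ℕ} {f : MB B} (hf : FF d f) : FF d (-f) := by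
  intro x y z h
  show - f.1 x y z = 0
  rw [hf x y z h, neg_zero]

theorem FF_sub {d : ℕ} {f g : MB B} (hf : FF d f) (hg : FF d g) : FF d (f - g) := by
  rw [sub_eq_add_neg]; exact FF_add hf (FF_neg hg)

theorem add_self (f : MB B) : f + f = 0 := by
  apply Subtype.ext
  funext x y z
  exact CharTwo.add_self_eq_zero _

/-- triangular permutations -/
def Tri (σ : Equiv.Perm (MB B)) : Prop :=
  ∀ d f g, FF (d + 1) (f - g) → FF d ((σ f - σ g) - (f - g))

theorem Tri_keep {σ : Equiv.Perm (MB B)} (h : Tri σ) {d : ℕ} {f g : MB B}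
    (hfg : FF (d + 1) (f - g)) : FF (d + 1) (σ f - σ g) := by
  have h1 := FF_mono (Nat.le_succ d) (h d f g hfg)
  have h2 := FF_add h1 hfg
  have e : σ f - σ g - (f - g) + (f - g) = σ f - σ g := by abel
  rwa [e] at h2

theorem Tri_inv_keep {σ : Equiv.Perm (MB B)} (h : Tri σ) {d : ℕ} {f g : MB B}
    (hfg : FF (d + 1) (σ f - σ g)) : FF (d + 1) (f - g) := by
  by_contra hne
  have h1 : ∀ k, FF (3 * B - k) (f - g) ∨ 3 * B - k < d + 1 := by
    intro k
    induction k with
    | zero => exact Or.inl (FF_all _)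
    | succ k ih =>
      by_cases hk : 3 * B - (k + 1) < d + 1
      · exact Or.inr hk
      · left
        rcases ih with ih | ih
        · have e1 : 3 * B - k = (3 * B - (k + 1)) + 1 := by omega
          rw [e1] at ih
          have h2 := h _ f g ih
          have h3 : FF (3 * B - (k + 1)) (σ f - σ g) := FF_mono (by omega) hfg
          have h4 := FF_sub h3 h2
          have e : σ f - σ g - (σ f - σ g - (f - g)) = f - g := by abel
          rwa [e] at h4
        · omega
  by_cases hd : d + 1 ≤ 3 * B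
  · rcases h1 (3 * B - (d + 1)) with h2 | h2
    · apply hne
      have : 3 * B - (3 * B - (d + 1)) = d + 1 := by omega
      rwa [this] at h2
    · omega
  · exact hne (FF_mono (by omega) (FF_all _))

/-- the group of triangular permutations -/
def PP (B : ℕ) : Subgroup (Equiv.Perm (MB B)) where
  carrier := {σ | Tri σ}
  one_mem' := by
    intro d f g _
    show FF d (f - g - (f - g))
    rw [sub_self]
    intro x y z _; rfl
  mul_mem' := by
    intro σ τ hσ hτ d f g h
    have h1 := hτ d f g h
    have h2 := hσ d (τ f) (τ g) (Tri_keep hτ h)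
    have h3 := FF_add h2 h1
    have e : σ (τ f) - σ (τ g) - (τ f - τ g) + (τ f - τ g - (f - g)) =
      σ (τ f) - σ (τ g) - (f - g) := by abel
    rw [e] at h3
    exact h3
  inv_mem' := by
    intro σ hσ d f g h
    have hi : ∀ f, σ (σ⁻¹ f) = f := fun f => σ.apply_symm_apply f
    have h0 : FF (d + 1) (σ (σ⁻¹ f) - σ (σ⁻¹ g)) := by
      rw [hi, hi]; exact h
    have h1 := Tri_inv_keep hσ h0
    have h2 := hσ d _ _ h1
    rw [hi, hi] at h2
    have h3 := FF_neg h2
    have e : -(f - g - (σ⁻¹ f - σ⁻¹ g)) = σ⁻¹ f - σ⁻¹ g - (f - g) := by abel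
    rwa [e] at h3

theorem isPGroup_PP (B : ℕ) : IsPGroup 2 (PP B) := by
  intro σ
  have h : ∀ k, ∀ f, FF (3 * B - k) ((σ ^ (2 ^ k)).1 f - f) := by
    intro k
    induction k with
    | zero => intro f; exact FF_all _
    | succ k ih =>
      intro f
      by_cases hk : 3 * B ≤ k
      · have h0 : ∀ f, (σ ^ (2 ^ k)).1 f = f := by
          intro f
          have := ih f
          rw [Nat.sub_eq_zero_of_le hk] at this
          exact sub_eq_zero.mp (FF_zero this)
        have h1 : (σ ^ (2 ^ (k + 1))).1 f = f := by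
          have e : σ ^ (2 ^ (k + 1)) = σ ^ (2 ^ k) * σ ^ (2 ^ k) := by
            rw [pow_succ, mul_two, pow_add]
          rw [e]
          show (σ ^ (2 ^ k)).1 ((σ ^ (2 ^ k)).1 f) = f
          rw [h0, h0]
        rw [h1, sub_self]
        intro x y z _; rfl
      · have hd : 3 * B - k = (3 * B - (k + 1)) + 1 := by omega
        have h1 := ih f
        rw [hd] at h1
        have h2 := (σ ^ (2 ^ k)).2 _ _ _ h1
        have e : σ ^ (2 ^ (k + 1)) = σ ^ (2 ^ k) * σ ^ (2 ^ k) := by
          rw [pow_succ, mul_two, pow_add]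
        rw [e]
        show FF _ ((σ ^ (2 ^ k)).1 ((σ ^ (2 ^ k)).1 f) - f)
        set g := (σ ^ (2 ^ k)).1 f with hg
        have e2 : (σ ^ (2 ^ k)).1 g - f = (σ ^ (2 ^ k)).1 g - g - (g - f) + ((g - f) + (g - f)) := by
          abel
        rw [e2, add_self, add_zero]
        exact h2
  refine ⟨3 * B, ?_⟩
  apply Subtype.ext
  apply Equiv.ext
  intro f
  have := h (3 * B) f
  rw [Nat.sub_self] at this
  exact sub_eq_zero.mp (FF_zero this)

/-! ### Operators -/

/-- additive operators lowering the degree filtration -/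
structure Op (B : ℕ) where
  T : MB B →+ MB B
  low : ∀ d f, FF (d + 1) f → FF d (T f)

/-- the permutation `1 + T` -/
noncomputable def lin (T : Op B) : PP B :=
  ⟨Equiv.ofBijective (fun f => f + T.T f) (by
    apply Finite.injective_iff_bijective.mp
    intro f g hfg
    have h0 : (f - g) + T.T (f - g) = 0 := by
      rw [map_sub]
      have : f + T.T f = g + T.T g := hfg
      have e : f - g + (T.T f - T.T g) = (f + T.T f) - (g + T.T g) := by abel
      rw [e, this, sub_self]
    have h1 : ∀ k, FF (3 * B - k) (f - g) := by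
      intro k
      induction k with
      | zero => exact FF_all _
      | succ k ih =>
        by_cases hk : 3 * B ≤ k
        · exact FF_mono (by omega) ih
        · have hd : 3 * B - k = (3 * B - (k + 1)) + 1 := by omega
          rw [hd] at ih
          have h2 := FF_neg (T.low _ _ ih)
          have e : -(T.T (f - g)) = f - g := by
            rw [eq_comm, eq_neg_iff_add_eq_zero]; exact h0
          rwa [e] at h2
    have h2 := h1 (3 * B)
    rw [Nat.sub_self] at h2
    exact sub_eq_zero.mp (FF_zero h2)), by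
    intro d f g h
    have h1 := T.low d _ h
    show FF d (f + T.T f - (g + T.T g) - (f - g))
    have e : f + T.T f - (g + T.T g) - (f - g) = T.T (f - g) := by
      rw [map_sub]; abel
    rw [e]; exact h1⟩

theorem lin_apply (T : Op B) (f : MB B) : (lin T).1 f = f + T.T f := rfl

/-- translations -/
def tra (v : MB B) : PP B :=
  ⟨Equiv.addRight v, by
    intro d f g _
    show FF d (f + v - (g + v) - (f - g))
    have e : f + v - (g + v) - (f - g) = 0 := by abel
    rw [e]
    intro x y z _; rfl⟩

theorem tra_apply (v f : MB B) : (tra v).1 f = f + v := rfl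

theorem tra_mul (v w : MB B) : tra v * tra w = tra (v + w) := by
  apply Subtype.ext
  apply Equiv.ext
  intro f
  show f + w + v = f + (v + w)
  abel

theorem tra_zero : tra (0 : MB B) = 1 := by
  apply Subtype.ext
  apply Equiv.ext
  intro f
  show f + 0 = f
  abel

theorem tra_inv (v : MB B) : (tra v)⁻¹ = tra (-v) := by
  rw [inv_eq_iff_mul_eq_one, tra_mul, add_neg_cancel, tra_zero]

theorem tra_inj {v w : MB B} (h : tra v = tra w) : v = w := by
  have := congrArg (fun σ : PP B => σ.1 0) h
  simpa [tra_apply] using this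

theorem lin_tra (T : Op B) (v : MB B) : lin T * tra v = tra (v + T.T v) * lin T := by
  apply Subtype.ext
  apply Equiv.ext
  intro f
  show f + v + T.T (f + v) = f + T.T f + (v + T.T v)
  rw [map_add]; abel

theorem cj_lin (T : Op B) (v : MB B) : cj (tra v) (lin T)⁻¹ = tra (v + T.T v) := by
  unfold cj
  rw [inv_inv, lin_tra, mul_assoc, mul_inv_cancel, mul_one]

theorem cm_eq {P : Type*} [Group P] (x y : P) : cm x y = x⁻¹ * cj x y := by
  unfold cm cj; group

theorem cm_lin (T : Op B) (v : MB B) : cm (tra v) (lin T)⁻¹ = tra (T.T v) := by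
  rw [cm_eq, cj_lin, tra_inv, tra_mul]
  congr 1; abel

theorem lin_comm {S T : Op B} (h : ∀ f, S.T (T.T f) = T.T (S.T f)) :
    lin S * lin T = lin T * lin S := by
  apply Subtype.ext
  apply Equiv.ext
  intro f
  show f + T.T f + S.T (f + T.T f) = f + S.T f + T.T (f + S.T f)
  rw [map_add, map_add, h]; abel

theorem lin_inv_comm {S T : Op B} (h : ∀ f, S.T (T.T f) = T.T (S.T f)) :
    (lin S)⁻¹ * (lin T)⁻¹ = (lin T)⁻¹ * (lin S)⁻¹ := by
  rw [← mul_inv_rev, ← mul_inv_rev, lin_comm h]

/-- the operator `T + T²` -/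
def Op.sq (T : Op B) : Op B where
  T := T.T + T.T.comp T.T
  low d f h := by
    show FF d (T.T f + T.T (T.T f))
    have h1 := T.low d f h
    refine FF_add h1 (T.low d _ (FF_mono (Nat.le_succ d) h1))

theorem Op.sq_apply (T : Op B) (f : MB B) : T.sq.T f = T.T f + T.T (T.T f) := rfl

/-- conjugation by `g` preserves translations -/
def Nrm (g : PP B) : Prop := ∀ v, ∃ w, cj (tra v) g = tra w

theorem cj_mul {P : Type*} [Group P] (x g h : P) : cj x (g * h) = cj (cj x g) h := by
  unfold cj; group

theorem Nrm.mul {g h : PP B} (hg : Nrm g) (hh : Nrm h) : Nrm (g * h) := by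
  intro v
  obtain ⟨w, hw⟩ := hg v
  obtain ⟨u, hu⟩ := hh w
  exact ⟨u, by rw [cj_mul, hw, hu]⟩

theorem Nrm.one : Nrm (1 : PP B) := fun v => ⟨v, by unfold cj; simp⟩

theorem Nrm.pow {g : PP B} (hg : Nrm g) (n : ℕ) : Nrm (g ^ n) := by
  induction n with
  | zero => rw [pow_zero]; exact Nrm.one
  | succ n ih => rw [pow_succ]; exact ih.mul hg

theorem Nrm.lin (T : Op B) : Nrm (Model_.lin T)⁻¹ := fun v => ⟨_, cj_lin T v⟩

/-! ### The five operators -/

/-- shift of the first coordinate -/
def s0 (f : ℕ → ℕ → ℕ → ZMod 2) : ℕ → ℕ → ℕ → ZMod 2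
  | 0, _, _ => 0
  | x + 1, y, z => f (x + 2) y z

def s1 (f : ℕ → ℕ → ℕ → ZMod 2) : ℕ → ℕ → ℕ → ZMod 2
  | _, 0, _ => 0
  | x, y + 1, z => f x (y + 2) z

def s2 (f : ℕ → ℕ → ℕ → ZMod 2) : ℕ → ℕ → ℕ → ZMod 2
  | x, y, z => f x y (z + 1)

def r0 (f : ℕ → ℕ → ℕ → ZMod 2) : ℕ → ℕ → ℕ → ZMod 2
  | 0, y, z => f 1 y z
  | _ + 1, _, _ => 0

def r1 (f : ℕ → ℕ → ℕ → ZMod 2) : ℕ → ℕ → ℕ → ZMod 2
  | x, 0, z => f x 1 z
  | _, _ + 1, _ => 0

/-- turn a raw operator into an `Op` -/
def mkOp (_hB : 2 ≤ B) (s : (ℕ → ℕ → ℕ → ZMod 2) → (ℕ → ℕ → ℕ → ZMod 2))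
    (h : ∀ x y z, (∀ f, s f x y z = 0) ∨ ∃ x' y' z', x + y + z < x' + y' + z' ∧
      (B ≤ x ∨ B ≤ y ∨ B ≤ z → B ≤ x' ∨ B ≤ y' ∨ B ≤ z') ∧ ∀ f, s f x y z = f x' y' z') :
    Op B where
  T :=
    { toFun := fun f => ⟨s f.1, by
        intro x y z hx
        rcases h x y z with h1 | ⟨x', y', z', _, h2, h3⟩
        · exact h1 _
        · rw [h3]; exact f.2 _ _ _ (h2 hx)⟩
      map_zero' := by
        apply Subtype.ext
        funext x y z
        show s 0 x y z = 0
        rcases h x y z with h1 | ⟨x', y', z', _, h2, h3⟩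
        · exact h1 _
        · rw [h3]; rfl
      map_add' := by
        intro f g
        apply Subtype.ext
        funext x y z
        show s (f.1 + g.1) x y z = s f.1 x y z + s g.1 x y z
        rcases h x y z with h1 | ⟨x', y', z', _, h2, h3⟩
        · rw [h1, h1, h1, add_zero]
        · rw [h3, h3, h3]; rfl }
  low d f hf x y z hx := by
    show s f.1 x y z = 0
    rcases h x y z with h1 | ⟨x', y', z', h0, h2, h3⟩
    · exact h1 _
    · rw [h3]; exact hf _ _ _ (by omega)

variable (hB : 2 ≤ B)

def S0 : Op B := mkOp hB s0 (by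
  intro x y z
  match x with
  | 0 => exact Or.inl fun _ => rfl
  | x + 1 => exact Or.inr ⟨x + 2, y, z, by omega, by omega, fun _ => rfl⟩)

def S1 : Op B := mkOp hB s1 (by
  intro x y z
  match y with
  | 0 => exact Or.inl fun _ => rfl
  | y + 1 => exact Or.inr ⟨x, y + 2, z, by omega, by omega, fun _ => rfl⟩)

def S2 : Op B := mkOp hB s2 (by
  intro x y z
  exact Or.inr ⟨x, y, z + 1, by omega, by omega, fun _ => rfl⟩)

def R0 : Op B := mkOp hB r0 (by
  intro x y z
  match x with
  | 0 => exact Or.inr ⟨1, y, z, by omega, by omega, fun _ => rfl⟩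
  | x + 1 => exact Or.inl fun _ => rfl)

def R1 : Op B := mkOp hB r1 (by
  intro x y z
  match y with
  | 0 => exact Or.inr ⟨x, 1, z, by omega, by omega, fun _ => rfl⟩
  | y + 1 => exact Or.inl fun _ => rfl)

/-- the three shifts -/
def SS (i : Fin 3) : Op B := ![S0 hB, S1 hB, S2 hB] i

def RR (r : Bool) : Op B := bif r then R1 hB else R0 hB

theorem S_comm (i j : Fin 3) (f : MB B) :
    (SS hB i).T ((SS hB j).T f) = (SS hB j).T ((SS hB i).T f) := by
  apply Subtype.ext
  funext x y z
  fin_cases i <;> fin_cases j <;> rcases x with _ | x <;> rcases y with _ | y <;> rfl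

theorem R0_comm (i : Fin 3) (hi : i ≠ 0) (f : MB B) :
    (SS hB i).T ((RR hB false).T f) = (RR hB false).T ((SS hB i).T f) := by
  apply Subtype.ext
  funext x y z
  fin_cases i
  · exact absurd rfl hi
  · rcases x with _ | x <;> rcases y with _ | y <;> rfl
  · rcases x with _ | x <;> rcases y with _ | y <;> rfl

theorem R1_comm (i : Fin 3) (hi : i ≠ 1) (f : MB B) :
    (SS hB i).T ((RR hB true).T f) = (RR hB true).T ((SS hB i).T f) := by
  apply Subtype.ext
  funext x y z
  fin_cases i
  · rcases x with _ | x <;> rcases y with _ | y <;> rfl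
  · exact absurd rfl hi
  · rcases x with _ | x <;> rcases y with _ | y <;> rfl

theorem RR_comm (f : MB B) :
    (RR hB false).T ((RR hB true).T f) = (RR hB true).T ((RR hB false).T f) := by
  apply Subtype.ext
  funext x y z
  rcases x with _ | x <;> rcases y with _ | y <;> rfl

/-! ### The machine -/

theorem run_succ' {n : ℕ} (M : Fin n → Instr n) (c : Fin n × ℕ × ℕ) (k : ℕ) :
    run M c (k + 1) = (step M c).bind (fun c' => run M c' k) := by
  induction k generalizing c with
  | zero =>
    show (some c).bind (step M) = (step M c).bind (fun c' => some c')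
    simp
  | succ k ih =>
    have h1 : run M c (k + 1 + 1) = (run M c (k + 1)).bind (step M) := rfl
    rw [h1, ih]
    rcases hs : step M c with _ | c'
    · rfl
    · rfl

theorem step_le {n : ℕ} (M : Fin n → Instr n) (c c' : Fin n × ℕ × ℕ) (h : step M c = some c') :
    c.2.1 ≤ c'.2.1 + 1 ∧ c.2.2 ≤ c'.2.2 + 1 := by
  unfold step at h
  rcases hM : M c.1 with _ | ⟨r, j⟩ | ⟨r, j, k⟩
  · rw [hM] at h; simp at h
  · rw [hM] at h
    cases r <;> simp at h <;> subst h <;> simp <;> omega
  · rw [hM] at h
    cases r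
    · by_cases h0 : c.2.1 = 0
      · simp [h0] at h; subst h; simp [h0]
      · simp [h0] at h; subst h; simp; omega
    · by_cases h0 : c.2.2 = 0
      · simp [h0] at h; subst h; simp [h0]
      · simp [h0] at h; subst h; simp; omega

theorem run_le {n : ℕ} (M : Fin n → Instr n) (k : ℕ) (c c' : Fin n × ℕ × ℕ)
    (h : run M c k = some c') : c.2.1 ≤ c'.2.1 + k ∧ c.2.2 ≤ c'.2.2 + k := by
  induction k generalizing c with
  | zero =>
    have : c = c' := by simpa [run] using h
    subst this; simp
  | succ k ih =>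
    rw [run_succ'] at h
    rcases hs : step M c with _ | c1
    · rw [hs] at h; simp at h
    · rw [hs] at h
      have h1 := ih c1 h
      have h2 := step_le M c c1 hs
      omega

open Classical in
/-- characteristic function of the computations reaching `cT` at time `T` -/
noncomputable def chi {n : ℕ} (M : Fin n → Instr n) (T : ℕ) (cT : Fin n × ℕ × ℕ)
    (c : Fin n × ℕ × ℕ) (k : ℕ) : ZMod 2 :=
  if k ≤ T ∧ run M c (T - k) = some cT then 1 else 0

theorem chi_step {n : ℕ} (M : Fin n → Instr n) (T : ℕ) (cT : Fin n × ℕ × ℕ)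
    (hT : step M cT = none) (c c' : Fin n × ℕ × ℕ) (h : step M c = some c') (k : ℕ) :
    chi M T cT c k = chi M T cT c' (k + 1) := by
  unfold chi
  by_cases hk : k + 1 ≤ T
  · have e : T - k = (T - (k + 1)) + 1 := by omega
    rw [e, run_succ', h]
    simp only [Option.bind_some]
    have h1 : k ≤ T := by omega
    simp [hk, h1]
  · rw [if_neg (c := k + 1 ≤ T ∧ _) (fun h' => hk h'.1)]
    rw [if_neg]
    rintro ⟨h1, h2⟩
    have e : T - k = 0 := by omega
    rw [e] at h2
    have : c = cT := by simpa [run] using h2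
    subst this
    rw [hT] at h
    cases h

/-- the vectors -/
noncomputable def vec {n : ℕ} (M : Fin n → Instr n) (T : ℕ) (cT : Fin n × ℕ × ℕ) (i : Fin n) :
    ℕ → ℕ → ℕ → ZMod 2
  | 0, _, _ => 0
  | _ + 1, 0, _ => 0
  | x + 1, y + 1, z => chi M T cT (i, x, y) z

/-- the bound -/
def bnd {n : ℕ} (T : ℕ) (cT : Fin n × ℕ × ℕ) : ℕ := cT.2.1 + cT.2.2 + T + 3

theorem vec_mem {n : ℕ} (M : Fin n → Instr n) (T : ℕ) (cT : Fin n × ℕ × ℕ) (i : Fin n) :
    vec M T cT i ∈ MB (bnd T cT) := by
  intro x y z h
  match x, y with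
  | 0, _ => rfl
  | _ + 1, 0 => rfl
  | x + 1, y + 1 =>
    show chi M T cT (i, x, y) z = 0
    unfold chi
    rw [if_neg]
    rintro ⟨h1, h2⟩
    have h3 := run_le M _ _ _ h2
    simp only at h3
    unfold bnd at h
    omega

end Model_

open Model_ in
theorem p_model : T_model := by
  intro n M i0 N hH
  classical
  -- the last configuration
  obtain ⟨T, cT, hrun, hlast⟩ : ∃ T cT, run M (i0, N, 0) T = some cT ∧ step M cT = none := by
    have hk := Nat.find_spec hH
    have hmin := fun m => Nat.find_min hH (m := m)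
    rcases hk0 : Nat.find hH with _ | T
    · rw [hk0] at hk; simp [run] at hk
    · have h1 : run M (i0, N, 0) T ≠ none := hmin T (by rw [hk0]; omega)
      obtain ⟨cT, hcT⟩ := Option.ne_none_iff_exists'.mp h1
      refine ⟨T, cT, hcT, ?_⟩
      rw [hk0] at hk
      have h2 : run M (i0, N, 0) (T + 1) = (run M (i0, N, 0) T).bind (step M) := rfl
      rw [h2, hcT] at hk
      exact hk
  have hB : 2 ≤ bnd T cT := by unfold bnd; omega
  let χ : Fin n → MB (bnd T cT) := fun i => ⟨vec M T cT i, vec_mem M T cT i⟩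
  let q : Fin n → PP (bnd T cT) := fun i => tra (χ i)
  let t : Fin 3 → PP (bnd T cT) := fun i => (lin (SS hB i))⁻¹
  let s : Fin 3 → PP (bnd T cT) := fun i => (lin (SS hB i).sq)⁻¹
  let e : Bool → PP (bnd T cT) := fun r => (lin (RR hB r))⁻¹
  have hst := chi_step M T cT hlast
  refine ⟨PP (bnd T cT), inferInstance, inferInstance, q, t, s, e, isPGroup_PP _, ?_, ?_⟩
  · refine ⟨?_, ?_, ?_, ?_, ?_, ?_, ?_, ?_⟩
    · intro i j
      exact lin_inv_comm (S_comm hB i j)
    · intro i j
      apply lin_inv_comm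
      intro f
      rw [Op.sq_apply, Op.sq_apply, map_add, S_comm hB i j, S_comm hB i j, S_comm hB i j]
    · intro i hi
      exact lin_inv_comm (R0_comm hB i hi)
    · intro i hi
      exact lin_inv_comm (R1_comm hB i hi)
    · exact lin_inv_comm (RR_comm hB)
    · intro i r
      show cj (tra (χ i)) (lin (SS hB r).sq)⁻¹ = tra (χ i) * cj (tra (χ i)) (lin (SS hB r))⁻¹ *
        cj (tra (χ i)) ((lin (SS hB r))⁻¹ ^ 2)
      rw [pow_two, cj_mul, cj_lin, cj_lin, cj_lin, tra_mul, tra_mul, Op.sq_apply, map_add]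
      congr 1
      have h1 := add_self (χ i)
      have h2 := add_self ((SS hB r).T (χ i))
      have e1 : χ i + (χ i + (SS hB r).T (χ i)) + (χ i + (SS hB r).T (χ i) +
        ((SS hB r).T (χ i) + (SS hB r).T ((SS hB r).T (χ i)))) =
        (χ i + χ i) + ((SS hB r).T (χ i) + (SS hB r).T (χ i)) +
          (χ i + ((SS hB r).T (χ i) + (SS hB r).T ((SS hB r).T (χ i)))) := by abel
      rw [e1, h1, h2]; abel
    · intro i j u v
      have hN : ∀ u : Fin 3 → Fin 3, Nrm (mono t u) := fun u =>
        ((((Nrm.lin (SS hB 0)).pow _).mul ((Nrm.lin (SS hB 1)).pow _)).mul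
          ((Nrm.lin (SS hB 2)).pow _))
      obtain ⟨w, hw⟩ := hN u (χ i)
      obtain ⟨w', hw'⟩ := hN v (χ j)
      show cj (tra (χ i)) (mono t u) * cj (tra (χ j)) (mono t v) =
        cj (tra (χ j)) (mono t v) * cj (tra (χ i)) (mono t u)
      rw [hw, hw', tra_mul, tra_mul, add_comm]
    · intro i
      rcases hM : M i with _ | ⟨r, j⟩ | ⟨r, j, k⟩
      · trivial
      · show tra (χ i) = cm (cm (tra (χ j)) (lin (SS hB (dir r)))⁻¹) (lin (SS hB 2))⁻¹
        rw [cm_lin, cm_lin]
        congr 1
        apply Subtype.ext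
        funext x y z
        cases r
        · match x, y with
          | 0, _ => rfl
          | _ + 1, 0 => rfl
          | x + 1, y + 1 =>
            exact hst (i, x, y) (j, x + 1, y) (by simp [step, hM]) z
        · match x, y with
          | 0, 0 => rfl
          | 0, _ + 1 => rfl
          | _ + 1, 0 => rfl
          | x + 1, y + 1 =>
            exact hst (i, x, y) (j, x, y + 1) (by simp [step, hM]) z
      · constructor
        · show cm (tra (χ i)) (lin (SS hB (dir r)))⁻¹ = cm (tra (χ j)) (lin (SS hB 2))⁻¹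
          rw [cm_lin, cm_lin]
          congr 1
          apply Subtype.ext
          funext x y z
          cases r
          · match x, y with
            | 0, _ => rfl
            | _ + 1, 0 => rfl
            | x + 1, y + 1 =>
              exact hst (i, x + 1, y) (j, x, y) (by simp [step, hM]) z
          · match x, y with
            | 0, 0 => rfl
            | 0, _ + 1 => rfl
            | _ + 1, 0 => rfl
            | x + 1, y + 1 =>
              exact hst (i, x, y + 1) (j, x, y) (by simp [step, hM]) z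
        · show ((tra (χ i))⁻¹ * cm (tra (χ k)) (lin (SS hB 2))⁻¹) * (lin (RR hB r))⁻¹ =
            (lin (RR hB r))⁻¹ * ((tra (χ i))⁻¹ * cm (tra (χ k)) (lin (SS hB 2))⁻¹)
          rw [cm_lin, tra_inv, tra_mul]
          set w := -χ i + (SS hB 2).T (χ k) with hw
          have h0 : (RR hB r).T w = 0 := by
            apply Subtype.ext
            funext x y z
            cases r
            · match x, y with
              | _ + 1, _ => rfl
              | 0, 0 =>
                show -(0 : ZMod 2) + 0 = 0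
                simp
              | 0, y + 1 =>
                show -(chi M T cT (i, 0, y) z) + chi M T cT (k, 0, y) (z + 1) = 0
                rw [hst (i, 0, y) (k, 0, y) (by simp [step, hM]) z]
                exact neg_add_cancel _
            · match x, y with
              | 0, _ + 1 => rfl
              | _ + 1, _ + 1 => rfl
              | 0, 0 =>
                show -(0 : ZMod 2) + 0 = 0
                simp
              | x + 1, 0 =>
                show -(chi M T cT (i, x, 0) z) + chi M T cT (k, x, 0) (z + 1) = 0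
                rw [hst (i, x, 0) (k, x, 0) (by simp [step, hM]) z]
                exact neg_add_cancel _
          have h1 := lin_tra (RR hB r) w
          rw [h0, add_zero] at h1
          rw [eq_inv_mul_iff_mul_eq, ← mul_assoc, h1, mul_assoc, mul_inv_cancel, mul_one]
  · -- the test element
    have hsv : ∀ k, ∃ w : MB (bnd T cT), startVec (q i0) (t 0) k = tra w ∧
        ∀ x y z, w.1 (x + 1) y z = vec M T cT i0 (x + k + 1) y z := by
      intro k
      induction k with
      | zero => exact ⟨χ i0, rfl, fun x y z => rfl⟩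
      | succ k ih =>
        obtain ⟨w, hw, hw'⟩ := ih
        refine ⟨(SS hB 0).T w, ?_, ?_⟩
        · show cm (startVec (q i0) (t 0) k) (t 0) = _
          rw [hw]; exact cm_lin _ _
        · intro x y z
          show w.1 (x + 2) y z = _
          rw [hw' (x + 1) y z]
          congr 1; omega
    obtain ⟨w, hw, hw'⟩ := hsv N
    unfold testEl
    rw [hw]
    show cm (cm (tra w) (lin (RR hB false))⁻¹) (lin (RR hB true))⁻¹ ≠ 1
    rw [cm_lin, cm_lin, ← tra_zero]
    intro h
    have h1 := tra_inj h
    have h2 : w.1 1 1 0 = 0 := congrFun (congrFun (congrFun (congrArg Subtype.val h1) 0) 0) 0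
    rw [hw' 0 1 0] at h2
    have h3 : vec M T cT i0 (0 + N + 1) 1 0 = chi M T cT (i0, N, 0) 0 := by
      rw [zero_add]; rfl
    rw [h3] at h2
    unfold chi at h2
    rw [if_pos ⟨Nat.zero_le _, by rw [Nat.sub_zero]; exact hrun⟩] at h2
    exact one_ne_zero h2

end Pool.Agent.Grig
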