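import Mathlib

set_option autoImplicit false

/-!
# The Grigorchuk group and systems of equations over it: definitions for the final statement

The vertices of the rooted binary tree are the words `List Bool` (`false` is the letter `0`, `true`
is the letter `1`).
-/

namespace Pool.Agent.Grig.PermForm

/-- `a(0w) = 1w`, `a(1w) = 0w` -/
def aAct : List Bool → List Bool
  | [] => []
  | false :: w => true :: w
  | true :: w => false :: w

mutual
/-- `b(0w) = 0 a(w)`, `b(1w) = 1 c(w)` -/
def bAct : List Bool → List Bool
  | [] => []
  | false :: w => false :: aAct w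
  | true :: w => true :: cAct w
/-- `c(0w) = 0 a(w)`, `c(1w) = 1 d(w)` -/
def cAct : List Bool → List Bool
  | [] => []
  | false :: w => false :: aAct w
  | true :: w => true :: dAct w
/-- `d(0w) = 0w`, `d(1w) = 1 b(w)` -/
def dAct : List Bool → List Bool
  | [] => []
  | false :: w => false :: w
  | true :: w => true :: bAct w
end

theorem aAct_aAct (w : List Bool) : aAct (aAct w) = w := by
  match w with
  | [] => rfl
  | false :: w => rfl
  | true :: w => rfl

theorem bcdAct (w : List Bool) :
    bAct (bAct w) = w ∧ cAct (cAct w) = w ∧ dAct (dAct w) = w := by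
  induction w with
  | nil => simp [bAct, cAct, dAct]
  | cons x w ih =>
    obtain ⟨h1, h2, h3⟩ := ih
    cases x <;> simp [bAct, cAct, dAct, aAct_aAct, h1, h2, h3]

/-- the generator `a` as a permutation of the vertices -/
def a : Equiv.Perm (List Bool) := Function.Involutive.toPerm aAct aAct_aAct
/-- the generator `b` -/
def b : Equiv.Perm (List Bool) := Function.Involutive.toPerm bAct fun w => (bcdAct w).1
/-- the generator `c` -/
def c : Equiv.Perm (List Bool) := Function.Involutive.toPerm cAct fun w => (bcdAct w).2.1
/-- the generator `d` -/
def d : Equiv.Perm (List Bool) := Function.Involutive.toPerm dAct fun w => (bcdAct w).2.2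

/-- The Grigorchuk group. -/
def Grigorchuk : Subgroup (Equiv.Perm (List Bool)) := Subgroup.closure {a, b, c, d}

/-- The four constants as elements of the group. -/
def const : Fin 4 → Grigorchuk
  | 0 => ⟨a, Subgroup.subset_closure (by simp)⟩
  | 1 => ⟨b, Subgroup.subset_closure (by simp)⟩
  | 2 => ⟨c, Subgroup.subset_closure (by simp)⟩
  | 3 => ⟨d, Subgroup.subset_closure (by simp)⟩

/-- Letters of an equation: `inl (n, false)` is the variable `x_n`, `inl (n, true)` its inverse,
`inr 0, inr 1, inr 2, inr 3` are the constants `a, b, c, d`. -/
abbrev Letter := (ℕ × Bool) ⊕ Fin 4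

/-- Value of a letter under the substitution `x`. -/
def value (x : ℕ → Grigorchuk) : Letter → Grigorchuk
  | .inl (n, false) => x n
  | .inl (n, true) => (x n)⁻¹
  | .inr i => const i

/-- `S` is a finite system of equations `W = 1`, one for each word `W` in the list `S`; it is
solvable if some substitution of elements of the Grigorchuk group turns every word into `1`. -/
def Solvable (S : List (List Letter)) : Prop :=
  ∃ x : ℕ → Grigorchuk, ∀ W ∈ S, (W.map (value x)).prod = 1

end Pool.Agent.Grig.PermForm
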