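import Pool.Agent.Grig.Final
import Pool.Agent.Grig.PermDefs

set_option autoImplicit false

/-!
# From portraits to permutations of the vertices
-/

namespace Pool.Agent.Grig
namespace PermForm

open Aut

theorem toPerm_a : toPerm Grig.a = a := by
  ext w : 1
  change Grig.a.app w = aAct w
  match w with
  | [] => rfl
  | false :: w => simp only [app_cons, sec_a, app_one, aAct]; rfl
  | true :: w => simp only [app_cons, sec_a, app_one, aAct]; rfl

theorem app_a (w : List Bool) : Grig.a.app w = aAct w :=
  congrArg (fun σ : Equiv.Perm (List Bool) => σ w) toPerm_a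

theorem app_bcd (w : List Bool) :
    Grig.b.app w = bAct w ∧ Grig.c.app w = cAct w ∧ Grig.d.app w = dAct w := by
  induction w with
  | nil => simp [bAct, cAct, dAct]
  | cons x w ih =>
    obtain ⟨h1, h2, h3⟩ := ih
    cases x <;> simp [bAct, cAct, dAct, h1, h2, h3, app_a]

theorem toPerm_b : toPerm Grig.b = b := by
  ext w : 1; exact (app_bcd w).1
theorem toPerm_c : toPerm Grig.c = c := by
  ext w : 1; exact (app_bcd w).2.1
theorem toPerm_d : toPerm Grig.d = d := by
  ext w : 1; exact (app_bcd w).2.2

theorem map_G : Grig.G.map toPerm = Grigorchuk := by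
  rw [Grig.G, MonoidHom.map_closure, Grigorchuk]
  congr 1
  simp only [Set.image_insert_eq, Set.image_singleton, toPerm_a, toPerm_b, toPerm_c, toPerm_d]

theorem value_eq {x : ℕ → Grigorchuk} {y : ℕ → Aut} (h : ∀ n, toPerm (y n) = (x n : Equiv.Perm _))
    (l : Letter) : ((value x l : Grigorchuk) : Equiv.Perm (List Bool)) = toPerm (evL y l) := by
  rcases l with ⟨n, s⟩ | i
  · cases s
    · exact (h n).symm
    · simp only [value, evL, map_inv, h n]
      rfl
  · fin_cases i
    · exact toPerm_a.symm
    · exact toPerm_b.symm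
    · exact toPerm_c.symm
    · exact toPerm_d.symm

theorem word_eq {x : ℕ → Grigorchuk} {y : ℕ → Aut} (h : ∀ n, toPerm (y n) = (x n : Equiv.Perm _))
    (W : List Letter) : ((((W.map (value x)).prod : Grigorchuk)) : Equiv.Perm (List Bool)) =
      toPerm (evW y W) := by
  induction W with
  | nil => simp [evW]
  | cons l W ih =>
    have e1 : evW y (l :: W) = evL y l * evW y W := by simp [evW]
    rw [List.map_cons, List.prod_cons, e1, map_mul, ← value_eq h l, ← ih]
    rfl

theorem solvable_iff (S : List (List Letter)) : Solvable S ↔ SolvV S := by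
  constructor
  · rintro ⟨x, hx⟩
    have h1 : ∀ n, ∃ y ∈ Grig.G, toPerm y = (x n : Equiv.Perm (List Bool)) := by
      intro n
      have h2 : (x n : Equiv.Perm (List Bool)) ∈ Grig.G.map toPerm :=
        map_G.symm ▸ (x n).2
      exact h2
    choose y hy hyx using h1
    refine ⟨y, hy, fun W hW => ?_⟩
    apply toPerm_injective
    rw [map_one, ← word_eq hyx W, hx W hW]
    rfl
  · rintro ⟨y, hy, hS⟩
    refine ⟨fun n => ⟨toPerm (y n), ?_⟩, fun W hW => ?_⟩
    · rw [← map_G]
      exact Subgroup.mem_map_of_mem _ (hy n)
    · apply Subtype.ext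
      rw [word_eq (y := y) (fun n => rfl) W, hS W hW, map_one]
      rfl

/-- **Main theorem**, from the targets. -/
theorem undecidable_of (hK : T_K) (hdesc : T_desc) (hinit : T_init) (htr : T_trunc)
    (hprod : T_prod) (hemb : T_embed) (hres : T_resid) (hrun : T_run) (hmodel : T_model)
    (hprog : T_prog) (hcmp : T_comp) :
    ¬ ComputablePred Solvable := by
  have e : Solvable = fun S : List (List Letter) => SolvV S := by
    funext S; exact propext (solvable_iff S)
  rw [e]
  exact main_of hK hdesc hinit htr hprod hemb hres hrun hmodel hprog hcmp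

end PermForm
end Pool.Agent.Grig
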