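import Pool.Agent.Grig.Targets

set_option autoImplicit false

/-!
GRI-6 (MP_cfea17_lc): the error `rho n` is a product of four double commutators around any
nontrivial element.
-/

namespace Pool.Agent.Grig

open Aut

namespace Prod_

theorem app_append' (g : Aut) (v w : List Bool) :
    g.app (v ++ w) = g.app v ++ (g.secs v).app w := by
  induction v generalizing g with
  | nil => rfl
  | cons x v ih => simp [ih]

theorem app_injective (g : Aut) : Function.Injective g.app := by
  intro v w h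
  have h2 := congrArg (g⁻¹).app h
  rwa [← app_mul, ← app_mul, inv_mul_cancel, app_one, app_one] at h2

theorem putAt_app_mul (g : Aut) (v : List Bool) (x : Aut) :
    putAt (g.app v) x * g = g * putAt v ((g.secs v)⁻¹ * x * g.secs v) := by
  induction v generalizing g with
  | nil => simp [mul_assoc]
  | cons y v ih =>
    rw [eq_mk' g]
    cases hg : g.act <;> cases y <;>
      simp [putAt, mk'_mul, ih]

theorem conj_putAt (g : Aut) (v : List Bool) (x : Aut) :
    g⁻¹ * putAt (g.app v) x * g = putAt v ((g.secs v)⁻¹ * x * g.secs v) := by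
  rw [mul_assoc, putAt_app_mul, inv_mul_cancel_left]

theorem comm_putAt (v v' : List Bool) (x y : Aut) (hl : v.length = v'.length) (hne : v ≠ v') :
    putAt v x * putAt v' y = putAt v' y * putAt v x := by
  induction v generalizing v' with
  | nil =>
    cases v' with
    | nil => exact absurd rfl hne
    | cons _ _ => simp at hl
  | cons p v ih =>
    cases v' with
    | nil => simp at hl
    | cons q v' =>
      have hl' : v.length = v'.length := by simpa using hl
      cases p <;> cases q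
      · have hne' : v ≠ v' := fun h => hne (by rw [h])
        simp only [putAt, mk'_false_mul, ih v' hl' hne']
      · simp [putAt, mk'_false_mul]
      · simp [putAt, mk'_false_mul]
      · have hne' : v ≠ v' := fun h => hne (by rw [h])
        simp only [putAt, mk'_false_mul, ih v' hl' hne']

/-! ### `KK` -/

theorem D_inv_eq {g : Aut} (h : D g = (false, false, false)) : D g⁻¹ = (false, false, false) := by
  have h2 : D (g⁻¹ * g) = (false, false, false) := by rw [inv_mul_cancel]; rfl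
  rw [D_mul, h] at h2
  have h3 : ∀ t : Bool × Bool × Bool, Dmul t (false, false, false) = t := by decide
  rwa [h3] at h2

theorem KK_mul {x y : Aut} (hx : x ∈ KK) (hy : y ∈ KK) : x * y ∈ KK := by
  refine ⟨G.mul_mem hx.1 hy.1, ?_, ?_⟩
  · rw [D_mul, hx.2.1, hy.2.1]; rfl
  · rw [lam_mul, hx.2.2, hy.2.2]; rfl

theorem KK_inv {x : Aut} (hx : x ∈ KK) : x⁻¹ ∈ KK :=
  ⟨G.inv_mem hx.1, D_inv_eq hx.2.1, by rw [lam_inv, hx.2.2]⟩

theorem KK_conj {x g : Aut} (hx : x ∈ KK) (hg : g ∈ G) : g⁻¹ * x * g ∈ KK := by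
  refine ⟨G.mul_mem (G.mul_mem (G.inv_mem hg) hx.1) hg, ?_, ?_⟩
  · have h3 : ∀ t : Bool × Bool × Bool, Dmul t (false, false, false) = t := by decide
    rw [D_mul, D_mul, hx.2.1, h3, ← D_mul, inv_mul_cancel]; rfl
  · rw [lam_mul, lam_mul, hx.2.2, lam_inv]
    cases lam 1 g <;> rfl

/-- `f = (ab)²` -/
def f : Aut := a * b * a * b

theorem f_eq : f = mk' false (c * a) (a * c) := by
  apply ext' <;> simp [f, sec_mul]

theorem f_inv : f⁻¹ = b * a * b * a := by
  simp [f, mul_assoc]

theorem f_inv_eq : f⁻¹ = mk' false (a * c) (c * a) := by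
  rw [f_eq, mk'_false_inv]; simp

theorem f_mem : f ∈ G :=
  G.mul_mem (G.mul_mem (G.mul_mem a_mem b_mem) a_mem) b_mem

theorem f_mem_KK : f ∈ KK := by
  refine ⟨f_mem, ?_, ?_⟩
  · rw [f_eq]; rfl
  · rw [f_eq]; rfl

theorem aa (x : Aut) : a * (a * x) = x := by rw [← mul_assoc, a_mul_a, one_mul]
theorem bb (x : Aut) : b * (b * x) = x := by rw [← mul_assoc, b_mul_b, one_mul]
theorem cc (x : Aut) : c * (c * x) = x := by rw [← mul_assoc, c_mul_c, one_mul]
theorem dd (x : Aut) : d * (d * x) = x := by rw [← mul_assoc, d_mul_d, one_mul]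
theorem bc (x : Aut) : b * (c * x) = d * x := by rw [← mul_assoc, b_mul_c]
theorem cb (x : Aut) : c * (b * x) = d * x := by rw [← mul_assoc, c_mul_b]
theorem cd (x : Aut) : c * (d * x) = b * x := by rw [← mul_assoc, c_mul_d]
theorem dc (x : Aut) : d * (c * x) = b * x := by rw [← mul_assoc, d_mul_c]
theorem bd (x : Aut) : b * (d * x) = c * x := by rw [← mul_assoc, b_mul_d]
theorem db (x : Aut) : d * (b * x) = c * x := by rw [← mul_assoc, d_mul_b]

theorem ident1 : cm f (putAt [true] f⁻¹) = putAt [true, true] f⁻¹ := by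
  have h1 : (a * c)⁻¹ * f * (a * c) * f⁻¹ = putAt [true] f⁻¹ := by
    rw [f_inv_eq, f_eq, putAt_true, putAt_nil]
    apply ext'
    · simp
    · simp [sec_mul, mul_assoc, aa]
    · simp [sec_mul, mul_assoc, dc]
      rw [← f_inv_eq, f_inv]
      simp [mul_assoc]
  have h2 : cm f (putAt [true] f⁻¹) = putAt [true] ((a * c)⁻¹ * f * (a * c) * f⁻¹) := by
    simp only [cm, putAt_true, putAt_nil, mk'_false_inv, inv_inv]
    rw [f_inv_eq, f_eq]
    simp only [mk'_false_mul, mk'_inj]
    refine ⟨trivial, by simp [mul_assoc, cc], ?_⟩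
    simp [mul_assoc]
  rw [h2, h1]
  rfl

/-- a conjugate of `f` put at a vertex of level two is a commutator of elements of `KK` -/
theorem comm_f (hs : T_selfrep) (hK : T_K) (v : List Bool) (hv : v.length = 2) (s : Aut)
    (hsG : s ∈ G) : ∃ x ∈ KK, ∃ y ∈ KK, putAt v (s⁻¹ * f * s) = cm x y := by
  obtain ⟨g, hg, hgv, hgs⟩ := hs v [true, true] (by simpa using hv) s hsG
  have h1 : putAt v (s⁻¹ * f * s) = g⁻¹ * putAt [true, true] f * g := by
    rw [← hgv, conj_putAt, hgs]
  have h2 : putAt [true, true] f = cm (putAt [true] f⁻¹) f := by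
    have h := congrArg (·⁻¹) ident1
    simp only [← putAt_inv, inv_inv] at h
    rw [← h]
    simp [cm, mul_assoc]
  refine ⟨g⁻¹ * putAt [true] f⁻¹ * g, KK_conj (hK _ (KK_inv f_mem_KK) _) hg,
    g⁻¹ * f * g, KK_conj f_mem_KK hg, ?_⟩
  rw [h1, h2]
  simp [cm, mul_assoc]

/-- the conjugator -/
def hh : Aut := d * ((a * b)⁻¹ * d * (a * b))

theorem hh_mem : hh ∈ G := by
  have h1 : a * b ∈ G := G.mul_mem a_mem b_mem
  exact G.mul_mem d_mem (G.mul_mem (G.mul_mem (G.inv_mem h1) d_mem) h1)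

theorem hh_eq : hh = mk' false (a * b * a) b := by
  apply ext'
  · simp [hh]
  · simp [hh, sec_mul, mul_assoc]
  · simp [hh, sec_mul, mul_assoc]

theorem pow_ca : (c * a) ^ 4 = a⁻¹ * (a * c) ^ 4 * a := by
  simp [pow_succ, mul_assoc, aa]

theorem pow_ac_sq : (a * c) ^ 2 = mk' false (d * a) (a * d) := by
  apply ext' <;> simp [pow_succ, sec_mul]

theorem ident2 : (a * c) ^ 4 = f * (hh⁻¹ * f * hh) := by
  have h1 : (a * c) ^ 4 = ((a * c) ^ 2) ^ 2 := by rw [← pow_mul]
  rw [h1, pow_ac_sq, mk'_false_pow, hh_eq, f_eq]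
  simp only [mk'_false_mul, mk'_false_inv, mk'_inj]
  refine ⟨trivial, ?_, ?_⟩
  · simp [pow_succ, mul_assoc, aa, cb]
  · simp [pow_succ, mul_assoc, cb, c_mul_b]

theorem pow_ab : (a * b) ^ 8 = mk' false ((c * a) ^ 4) ((a * c) ^ 4) := by
  have h1 : (a * b) ^ 8 = f ^ 4 := by
    have : f = (a * b) ^ 2 := by simp [f, pow_succ, mul_assoc]
    rw [this, ← pow_mul]
  rw [h1, f_eq, mk'_false_pow]

theorem error_eq : mk' false ((a * b) ^ 8) 1 =
    putAt [false, false] (a⁻¹ * f * a) * putAt [false, false] ((hh * a)⁻¹ * f * (hh * a)) *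
    putAt [false, true] (1⁻¹ * f * 1) * putAt [false, true] (hh⁻¹ * f * hh) := by
  rw [← putAt_mul, mul_assoc, ← putAt_mul]
  have h1 : a⁻¹ * f * a * ((hh * a)⁻¹ * f * (hh * a)) = (c * a) ^ 4 := by
    rw [pow_ca, ident2]
    simp only [mul_inv_rev, mul_assoc, mul_inv_cancel_left]
  have h2 : (1⁻¹ * f * 1) * (hh⁻¹ * f * hh) = (a * c) ^ 4 := by
    rw [ident2, inv_one, one_mul, mul_one]
  rw [h1, h2]
  simp only [putAt, mk'_false_mul, one_mul, mul_one]
  rw [pow_ab]

end Prod_

open Prod_ in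
theorem p_prod (hs : T_selfrep) (hK : T_K) : T_prod := by
  intro w hw hw1
  -- a moved vertex
  have hmove : ∃ v0 : List Bool, w.app v0 ≠ v0 := by
    by_contra hcon
    push Not at hcon
    apply hw1
    apply toPerm_injective
    ext v : 1
    rw [toPerm_apply, hcon v, map_one]
    rfl
  obtain ⟨v0, hv0⟩ := hmove
  obtain ⟨x1, hx1, y1, hy1, e1⟩ := comm_f hs hK [false, false] rfl a a_mem
  obtain ⟨x2, hx2, y2, hy2, e2⟩ := comm_f hs hK [false, false] rfl (hh * a) (G.mul_mem hh_mem a_mem)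
  obtain ⟨x3, hx3, y3, hy3, e3⟩ := comm_f hs hK [false, true] rfl 1 G.one_mem
  obtain ⟨x4, hx4, y4, hy4, e4⟩ := comm_f hs hK [false, true] rfl hh hh_mem
  refine ⟨v0.length, fun n hn => ?_⟩
  set u : List Bool := List.replicate (3 * n) true with hu
  set v : List Bool := v0 ++ List.replicate (3 * n - v0.length) false with hv
  have hlen : u.length = v.length := by
    rw [hu, hv, List.length_append, List.length_replicate, List.length_replicate]
    omega
  have hwv : w.app v ≠ v := by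
    rw [hv, app_append']
    intro h
    exact hv0 (List.append_inj_left h (by simp))
  obtain ⟨g, hg, hgu, -⟩ := hs u v hlen 1 G.one_mem
  have hmov : (cj w g).app u ≠ u := by
    intro h
    apply hwv
    have h2 := congrArg g.app h
    rw [cj, app_mul, app_mul, ← app_mul g, mul_inv_cancel, app_one, hgu] at h2
    exact h2
  -- the main computation
  have key : ∀ x y : Aut, cm (cm (putAt u x)⁻¹ (cj w g)) (putAt u y) = cm (putAt u x) (putAt u y) := by
    intro x y
    set w' := cj w g with hw'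
    set u' : List Bool := (w'⁻¹).app u with hu'
    have hu'w : w'.app u' = u := by rw [hu', ← app_mul, mul_inv_cancel, app_one]
    have hne : u ≠ u' := by
      intro h
      apply hmov
      rw [← h] at hu'w
      exact hu'w
    have hl' : u.length = u'.length := by rw [hu', length_app]
    have hconj : w'⁻¹ * (putAt u x)⁻¹ * w' = putAt u' ((w'.secs u')⁻¹ * x⁻¹ * w'.secs u') := by
      rw [← putAt_inv, ← hu'w, conj_putAt]
    set X := putAt u x
    set Y := putAt u y
    set Z := putAt u' ((w'.secs u')⁻¹ * x⁻¹ * w'.secs u') with hZ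
    have hXZ : Commute X Z := comm_putAt _ _ _ _ hl' hne
    have hYZ : Commute Y Z := comm_putAt _ _ _ _ hl' hne
    have e : cm X⁻¹ w' = X * Z := by
      rw [← hconj]
      simp [cm, mul_assoc]
    rw [e]
    simp only [cm, mul_inv_rev]
    -- (Z⁻¹ X⁻¹) Y⁻¹ (X Z) Y = X⁻¹ Y⁻¹ X Y
    calc Z⁻¹ * X⁻¹ * Y⁻¹ * (X * Z) * Y = Z⁻¹ * (X⁻¹ * Y⁻¹ * X) * (Z * Y) := by group
      _ = Z⁻¹ * (X⁻¹ * Y⁻¹ * X) * (Y * Z) := by rw [hYZ.eq]
      _ = Z⁻¹ * (X⁻¹ * Y⁻¹ * X * Y) * Z := by group
      _ = X⁻¹ * Y⁻¹ * X * Y := by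
        have hc : Commute Z (X⁻¹ * Y⁻¹ * X * Y) :=
          (((hXZ.symm.inv_right).mul_right (hYZ.symm.inv_right)).mul_right hXZ.symm).mul_right
            hYZ.symm
        rw [mul_assoc, ← hc.eq, inv_mul_cancel_left]
  refine ⟨g, hg, ![(putAt u x1)⁻¹, (putAt u x2)⁻¹, (putAt u x3)⁻¹, (putAt u x4)⁻¹],
    ![putAt u y1, putAt u y2, putAt u y3, putAt u y4], ?_, ?_⟩
  · intro j
    fin_cases j
    · exact ⟨G.inv_mem (hK _ hx1 u).1, (hK _ hy1 u).1⟩
    · exact ⟨G.inv_mem (hK _ hx2 u).1, (hK _ hy2 u).1⟩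
    · exact ⟨G.inv_mem (hK _ hx3 u).1, (hK _ hy3 u).1⟩
    · exact ⟨G.inv_mem (hK _ hx4 u).1, (hK _ hy4 u).1⟩
  · have hcm : ∀ x y : Aut, cm (putAt u x) (putAt u y) = putAt u (cm x y) := by
      intro x y
      simp only [cm, putAt_mul, putAt_inv]
    simp only [prod4, Matrix.cons_val_zero, Matrix.cons_val_one, Matrix.cons_val]
    rw [key, key, key, key, hcm, hcm, hcm, hcm, ← e1, ← e2, ← e3, ← e4, ← putAt_mul, ← putAt_mul,
      ← putAt_mul, ← error_eq]
    rfl

end Pool.Agent.Grig
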