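import Mathlib
import Pool.Agent.Grig.Targets

set_option autoImplicit false

/-!
# GRI-11: an undecidable while-program

Every primitive recursive function is computed by a while-program which keeps its inputs and
cleans its scratch registers; a search loop around the step counted evaluation of codes gives a
program whose halting problem is undecidable.
-/

namespace Pool.Agent.Grig
namespace ProgComp

open Function

theorem exec_det {P : Prog} {s t : ℕ → ℕ} (h : Exec P s t) : ∀ {t'}, Exec P s t' → t = t' := by
  induction h with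
  | inc r s => intro t' h'; cases h'; rfl
  | dec r s => intro t' h'; cases h'; rfl
  | seq h1 h2 ih1 ih2 =>
    intro t' h'
    cases h' with
    | seq h3 h4 => cases ih1 h3; exact ih2 h4
  | loop0 h =>
    intro t' h'
    cases h' with
    | loop0 _ => rfl
    | loopS h3 _ _ => exact absurd h h3
  | loopS h h1 h2 ih1 ih2 =>
    intro t' h'
    cases h' with
    | loop0 h3 => exact absurd h3 h
    | loopS _ h3 h4 => cases ih1 h3; exact ih2 h4

/-- change the final state by an equality -/
theorem Exec.to {P : Prog} {s t t' : ℕ → ℕ} (h : Exec P s t) (e : t = t') : Exec P s t' := e ▸ h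

/-- a loop along a family of states -/
theorem loop_down {r : ℕ} {P : Prog} (S : ℕ → ℕ → ℕ) (h0 : S 0 r = 0) (k : ℕ)
    (hS : ∀ i < k, S (i + 1) r ≠ 0 ∧ Exec P (S (i + 1)) (S i)) : Exec (.loop r P) (S k) (S 0) := by
  induction k with
  | zero => exact .loop0 h0
  | succ k ih =>
    exact .loopS (hS k (Nat.lt_succ_self k)).1 (hS k (Nat.lt_succ_self k)).2
      (ih fun i hi => hS i (Nat.lt_succ_of_lt hi))

/-- set register `r` to zero -/
def clear (r : ℕ) : Prog := .loop r (.dec r)

theorem exec_clear (r : ℕ) (s : ℕ → ℕ) : Exec (clear r) s (update s r 0) := by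
  have h := loop_down (r := r) (P := .dec r) (fun k => update s r k) (by simp) (s r)
    (fun i _ => ⟨by simp, by
      have := Exec.dec r (update s r (i + 1))
      refine Exec.to this ?_
      simp⟩)
  simpa [clear] using h

/-- add register `r` to register `q` and clear `r` -/
def move (r q : ℕ) : Prog := .loop r (.seq (.dec r) (.inc q))

theorem exec_move {r q : ℕ} (h : r ≠ q) (s : ℕ → ℕ) :
    Exec (move r q) s (update (update s q (s q + s r)) r 0) := by
  have h1 := loop_down (r := r) (P := .seq (.dec r) (.inc q))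
    (fun k => update (update s q (s q + (s r - k))) r k) (by simp) (s r)
    (fun i hi => ⟨by simp, by
      refine .seq (.dec _ _) (Exec.to (.inc _ _) ?_)
      funext x
      simp only [update_apply]
      split_ifs <;> omega⟩)
  simpa [move] using h1

/-- add register `r` to register `q`, keeping `r`; `t` is scratch -/
def copy (r q t : ℕ) : Prog :=
  .seq (.loop r (.seq (.dec r) (.seq (.inc q) (.inc t)))) (move t r)

theorem exec_copy {r q t : ℕ} (h : r ≠ q) (h1 : r ≠ t) (h2 : q ≠ t) (s : ℕ → ℕ) (h3 : s t = 0) :
    Exec (copy r q t) s (update s q (s q + s r)) := by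
  have e1 := loop_down (r := r) (P := .seq (.dec r) (.seq (.inc q) (.inc t)))
    (fun k => update (update (update s q (s q + (s r - k))) t (s r - k)) r k) (by simp) (s r)
    (fun i hi => ⟨by simp, by
      refine .seq (.dec _ _) (.seq (.inc _ _) (Exec.to (.inc _ _) ?_))
      funext x
      simp only [update_apply]
      split_ifs <;> first | omega | rfl⟩)
  have e2 : update (update (update s q (s q + (s r - s r))) t (s r - s r)) r (s r) = s := by
    funext x
    simp only [update_apply]
    split_ifs with hx hy hz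
    · rw [hx]
    · rw [hy]; omega
    · rw [hz]; omega
    · rfl
  rw [e2] at e1
  refine .seq e1 (Exec.to (exec_move (Ne.symm h1) _) ?_)
  funext x
  simp only [update_apply]
  split_ifs <;> first | omega | rfl | (subst_vars; omega)

/-- a program doing nothing when register `b` is zero -/
def skip (b : ℕ) : Prog := .loop b (.dec b)

theorem exec_skip {b : ℕ} {s : ℕ → ℕ} (h : s b = 0) : Exec (skip b) s s := .loop0 h

/-- the vector of the contents of the registers `a i` -/
def vec {n : ℕ} (a : Fin n → ℕ) (s : ℕ → ℕ) : List.Vector ℕ n := List.Vector.ofFn fun i => s (a i)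

theorem vec_congr {n : ℕ} {a : Fin n → ℕ} {s t : ℕ → ℕ} (h : ∀ i, s (a i) = t (a i)) :
    vec a s = vec a t := by
  unfold vec
  congr 1
  funext i
  exact h i

/-- `f` is computed by while-programs, with free placement of the registers -/
def Comp {n : ℕ} (f : List.Vector ℕ n → ℕ) : Prop :=
  ∀ (a : Fin n → ℕ) (o b : ℕ), (∀ i, a i < b) → o < b → (∀ i, a i ≠ o) → ∃ P : Prog,
    ∀ s : ℕ → ℕ, s o = 0 → (∀ r, b ≤ r → s r = 0) → Exec P s (update s o (f (vec a s)))

theorem comp_zero : @Comp 0 fun _ => 0 := by
  intro a o b _ _ _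
  refine ⟨skip b, fun s h1 h2 => Exec.to (exec_skip (h2 b le_rfl)) ?_⟩
  change s = update s o 0
  funext x
  simp only [update_apply]
  split_ifs with h
  · rw [h, h1]
  · rfl

theorem comp_get {n : ℕ} (i : Fin n) : Comp fun v : List.Vector ℕ n => v.get i := by
  intro a o b ha ho hao
  refine ⟨copy (a i) o b, fun s h1 h2 => Exec.to (exec_copy (hao i) (ha i).ne ho.ne s
    (h2 b le_rfl)) ?_⟩
  rw [h1, zero_add]
  simp [vec]

theorem comp_succ : @Comp 1 fun v => Nat.succ v.head := by
  intro a o b ha ho hao
  refine ⟨.seq (copy (a 0) o b) (.inc o), fun s h1 h2 => .seq (exec_copy (hao 0) (ha 0).ne ho.ne s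
    (h2 b le_rfl)) (Exec.to (.inc _ _) ?_)⟩
  funext x
  have : (vec a s).head = s (a 0) := by
    rw [← List.Vector.get_zero]; simp [vec]
  simp only [this, update_apply, h1]
  split_ifs <;> first | omega | rfl

/-- the registers `b, …, b+j-1` filled by `G` -/
def fill (s : ℕ → ℕ) (b j : ℕ) (G : ℕ → ℕ) : ℕ → ℕ :=
  fun r => if b ≤ r ∧ r < b + j then G (r - b) else s r

theorem fill_lt {s : ℕ → ℕ} {b j : ℕ} {G : ℕ → ℕ} {r : ℕ} (h : r < b) : fill s b j G r = s r := by
  simp only [fill]; rw [if_neg]; omega

theorem fill_ge {s : ℕ → ℕ} {b j : ℕ} {G : ℕ → ℕ} {r : ℕ} (h : b + j ≤ r) :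
    fill s b j G r = s r := by
  simp only [fill]; rw [if_neg]; omega

theorem fill_mid {s : ℕ → ℕ} {b j : ℕ} {G : ℕ → ℕ} {i : ℕ} (h : i < j) :
    fill s b j G (b + i) = G i := by
  simp only [fill]; rw [if_pos (by omega)]; congr 1; omega

theorem update_fill (s : ℕ → ℕ) (b j : ℕ) (G : ℕ → ℕ) :
    update (fill s b j G) (b + j) (G j) = fill s b (j + 1) G := by
  funext x
  simp only [fill, update_apply]
  split_ifs with h1 h2 h3 h4 h5 <;> first | (exfalso; omega) | rfl | skip
  · subst h1; congr 1; omega

/-- fill the registers `b, …` by the values of the functions `g i` -/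
theorem exists_fill {m n : ℕ} (g : Fin n → List.Vector ℕ m → ℕ) (hg : ∀ i, Comp (g i))
    (a : Fin m → ℕ) (b : ℕ) (ha : ∀ i, a i < b) (G : (ℕ → ℕ) → ℕ → ℕ)
    (hG : ∀ s (i : Fin n), G s i = g i (vec a s)) : ∀ j ≤ n, ∃ P : Prog, ∀ s : ℕ → ℕ,
    (∀ r, b ≤ r → s r = 0) → Exec P s (fill s b j (G s)) := by
  intro j
  induction j with
  | zero =>
    intro _
    refine ⟨skip b, fun s hs => Exec.to (exec_skip (hs b le_rfl)) ?_⟩
    funext r
    simp only [fill]
    rw [if_neg]; omega
  | succ j ih =>
    intro hj
    obtain ⟨P, hP⟩ := ih (by omega)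
    obtain ⟨Q, hQ⟩ := hg ⟨j, by omega⟩ a (b + j) (b + n) (fun i => by have := ha i; omega)
      (by omega) (fun i => by have := ha i; omega)
    refine ⟨.seq P Q, fun s hs => .seq (hP s hs) (Exec.to (hQ _ ?_ ?_) ?_)⟩
    · rw [fill_ge le_rfl]; exact hs _ (by omega)
    · intro r hr; rw [fill_ge (by omega)]; exact hs _ (by omega)
    · rw [← update_fill]
      congr 1
      have e := hG s ⟨j, by omega⟩
      simp only at e
      rw [e]
      congr 1
      exact vec_congr fun i => fill_lt (ha i)

theorem exists_clear (b : ℕ) : ∀ j, ∃ P : Prog, ∀ s : ℕ → ℕ,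
    s (b + j) = 0 → Exec P s (fill s b j fun _ => 0) := by
  intro j
  induction j with
  | zero =>
    refine ⟨skip b, fun s hs => Exec.to (exec_skip (by simpa using hs)) ?_⟩
    funext r
    simp only [fill]
    rw [if_neg]; omega
  | succ j ih =>
    obtain ⟨P, hP⟩ := ih
    refine ⟨.seq (clear (b + j)) P, fun s _ => .seq (exec_clear _ _) (Exec.to (hP _ (by simp)) ?_)⟩
    funext x
    simp only [fill, update_apply]
    split_ifs <;> first | omega | rfl

theorem comp_comp {m n : ℕ} {f : List.Vector ℕ n → ℕ} (g : Fin n → List.Vector ℕ m → ℕ)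
    (hf : Comp f) (hg : ∀ i, Comp (g i)) :
    Comp fun v => f (List.Vector.ofFn fun i => g i v) := by
  intro a o b ha ho hao
  let G : (ℕ → ℕ) → ℕ → ℕ := fun s i => if h : i < n then g ⟨i, h⟩ (vec a s) else 0
  have hG : ∀ s (i : Fin n), G s i = g i (vec a s) := fun s i => by simp [G, i.2]
  obtain ⟨P, hP⟩ := exists_fill g hg a b ha G hG n le_rfl
  obtain ⟨Q, hQ⟩ := hf (fun i => b + i) o (b + n) (fun i => by have := i.2; omega) (by omega)
    (fun i => by omega)
  obtain ⟨R, hR⟩ := exists_clear b n
  refine ⟨.seq P (.seq Q R), fun s h1 h2 => .seq (hP s h2) (.seq (hQ _ ?_ ?_)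
    (Exec.to (hR _ ?_) ?_))⟩
  · rw [fill_lt ho]; exact h1
  · intro r hr; rw [fill_ge hr]; exact h2 _ (by omega)
  · rw [update_of_ne (by omega), fill_ge le_rfl]; exact h2 _ (by omega)
  · have e : vec (fun i : Fin n => b + (i : ℕ)) (fill s b n (G s)) =
        List.Vector.ofFn fun i => g i (vec a s) := by
      unfold vec
      congr 1
      funext i
      rw [fill_mid i.2]
      exact hG s i
    rw [e]
    funext x
    simp only [fill, update_apply]
    split_ifs with h3 h4 h5 <;> first | (exfalso; omega) | rfl | skip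
    exact (h2 x h3.1).symm

theorem vec_cons {n : ℕ} (a : Fin (n + 1) → ℕ) (s : ℕ → ℕ) :
    vec a s = s (a 0) ::ᵥ vec (fun i : Fin n => a i.succ) s := by
  unfold vec
  rw [List.Vector.ofFn]

theorem comp_prec {n : ℕ} {f : List.Vector ℕ n → ℕ} {g : List.Vector ℕ (n + 2) → ℕ}
    (hf : Comp f) (hg : Comp g) : Comp fun v : List.Vector ℕ (n + 1) =>
      v.head.rec (f v.tail) fun y IH => g (y ::ᵥ IH ::ᵥ v.tail) := by
  intro a o b ha ho hao
  -- registers: b = y, b+1 = remaining, b+2 = value, b+3 = new value
  obtain ⟨F, hF⟩ := hf (fun i => a i.succ) (b + 2) (b + 4) (fun i => by have := ha i.succ; omega)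
    (by omega) (fun i => by have := ha i.succ; omega)
  let a' : Fin (n + 2) → ℕ := fun i => Fin.cases b (fun j => Fin.cases (b + 2)
    (fun k => a k.succ) j) i
  obtain ⟨Q, hQ⟩ := hg a' (b + 3) (b + 4)
    (by
      intro i
      refine Fin.cases ?_ (fun j => ?_) i
      · simp [a']
      · refine Fin.cases ?_ (fun k => ?_) j
        · simp only [a', Fin.cases_succ, Fin.cases_zero]; omega
        · have := ha k.succ
          simp only [a', Fin.cases_succ]; omega)
    (by omega)
    (by
      intro i
      refine Fin.cases ?_ (fun j => ?_) i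
      · simp [a']
      · refine Fin.cases ?_ (fun k => ?_) j
        · simp only [a', Fin.cases_succ, Fin.cases_zero]; omega
        · have := ha k.succ
          simp only [a', Fin.cases_succ]; omega)
  refine ⟨.seq (copy (a 0) (b + 1) (b + 4)) (.seq F (.seq
    (.loop (b + 1) (.seq Q (.seq (clear (b + 2)) (.seq (move (b + 3) (b + 2))
      (.seq (.inc b) (.dec (b + 1)))))))
    (.seq (clear b) (move (b + 2) o)))), ?_⟩
  intro s h1 h2
  have h2a := h2 b le_rfl
  have h2b := h2 (b + 1) (by omega)
  have h2c := h2 (b + 2) (by omega)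
  have h2d := h2 (b + 3) (by omega)
  have h2e := h2 (b + 4) (by omega)
  set N := s (a 0) with hN
  set tl := vec (fun i : Fin n => a i.succ) s with htl
  let R : ℕ → ℕ := fun y => Nat.rec (f tl) (fun y IH => g (y ::ᵥ IH ::ᵥ tl)) y
  -- the states
  let S : ℕ → ℕ → ℕ := fun k x => if x = b then N - k else if x = b + 1 then k else
    if x = b + 2 then R (N - k) else s x
  have haN : ∀ i, a i < b := ha
  have hS0 : Exec (.seq (copy (a 0) (b + 1) (b + 4)) F) s (S N) := by
    refine .seq (exec_copy (by have := ha 0; omega) (by have := ha 0; omega) (by omega) s h2e) ?_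
    refine Exec.to (hF _ ?_ ?_) ?_
    · rw [update_of_ne (by omega)]; exact h2c
    · intro r hr; rw [update_of_ne (by omega)]; exact h2 r (by omega)
    · have e : vec (fun i : Fin n => a i.succ) (update s (b + 1) (s (b + 1) + s (a 0))) = tl :=
        vec_congr fun i => by
          rw [update_of_ne]; have := ha i.succ; omega
      rw [e]
      funext x
      simp only [S, update_apply, h2b, Nat.sub_self]
      split_ifs <;> first | omega | rfl | (subst_vars; omega) | (subst_vars; rfl)
  have hloop : Exec (.loop (b + 1) (.seq Q (.seq (clear (b + 2)) (.seq (move (b + 3) (b + 2))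
      (.seq (.inc b) (.dec (b + 1))))))) (S N) (S 0) := by
    refine loop_down S (by simp [S]) N fun i hi => ⟨by simp [S], ?_⟩
    have e : vec a' (S (i + 1)) = (N - (i + 1)) ::ᵥ R (N - (i + 1)) ::ᵥ tl := by
      rw [vec_cons, vec_cons]
      congr 1
      · simp [S, a']
      · congr 1
        · simp only [a', Fin.cases_succ, Fin.cases_zero]
          simp [S]
        · refine Eq.trans (b := vec (fun i : Fin n => a i.succ) (S (i + 1))) rfl ?_
          refine vec_congr fun j => ?_
          have := ha j.succ
          simp only [S]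
          rw [if_neg (by omega), if_neg (by omega), if_neg (by omega)]
    refine .seq (hQ _ ?_ ?_) ?_
    · simp only [S]; rw [if_neg (by omega), if_neg (by omega), if_neg (by omega)]; exact h2d
    · intro r hr
      simp only [S]; rw [if_neg (by omega), if_neg (by omega), if_neg (by omega)]
      exact h2 r (by omega)
    refine .seq (exec_clear _ _) (.seq (exec_move (by omega) _) (.seq (.inc _ _)
      (Exec.to (.dec _ _) ?_)))
    rw [e]
    have hR : R (N - i) = g ((N - (i + 1)) ::ᵥ R (N - (i + 1)) ::ᵥ tl) := by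
      have : N - i = (N - (i + 1)) + 1 := by omega
      rw [this]
    funext x
    simp only [S, update_apply, hR]
    split_ifs <;> first | omega | rfl | (subst_vars; omega) | (subst_vars; rfl)
  cases hS0 with
  | seq e1 e2 =>
    refine .seq e1 (.seq e2 (.seq hloop (.seq (exec_clear _ _)
      (Exec.to (exec_move (by omega) _) ?_))))
    have hv : vec a s = N ::ᵥ tl := vec_cons a s
    have e3 : (vec a s).head = N := by rw [hv]; rfl
    have e4 : (vec a s).tail = tl := by rw [hv]; rfl
    have hRN : R N = Nat.rec (f tl) (fun y IH => g (y ::ᵥ IH ::ᵥ tl)) N := rfl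
    funext x
    simp only [S, update_apply, Nat.sub_zero, hRN, e3, e4]
    split_ifs <;> first | omega | rfl | (subst_vars; omega) | (subst_vars; rfl)

theorem comp_primrec {n : ℕ} {f : List.Vector ℕ n → ℕ} (h : Nat.Primrec' f) : Comp f := by
  induction h with
  | zero => exact comp_zero
  | succ => exact comp_succ
  | get i => exact comp_get i
  | comp g _ _ hf hg => exact comp_comp g hf hg
  | prec _ _ hf hg => exact comp_prec hf hg

/-! ### The search loop -/

/-- the test function: zero iff the code `x` converges on `0` within `k` steps -/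
def test (k x : ℕ) : ℕ :=
  if (Nat.Partrec.Code.evaln k (Denumerable.ofNat Nat.Partrec.Code x) 0).isSome then 0 else 1

theorem test_prim : Primrec₂ test := by
  have h : Primrec fun p : ℕ × ℕ =>
      Nat.Partrec.Code.evaln p.1 (Denumerable.ofNat Nat.Partrec.Code p.2) 0 :=
    Nat.Partrec.Code.primrec_evaln.comp
      ((Primrec.fst.pair ((Primrec.ofNat Nat.Partrec.Code).comp Primrec.snd)).pair
        (Primrec.const 0))
  have h2 : PrimrecPred fun p : ℕ × ℕ =>
      (Nat.Partrec.Code.evaln p.1 (Denumerable.ofNat Nat.Partrec.Code p.2) 0).isSome = true :=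
    Primrec.eq.comp (Primrec.option_isSome.comp h) (Primrec.const true)
  exact Primrec.ite h2 (Primrec.const 0) (Primrec.const 1)

theorem test_iff (x : ℕ) : (∃ k, test k x = 0) ↔
    (Nat.Partrec.Code.eval (Denumerable.ofNat Nat.Partrec.Code x) 0).Dom := by
  rw [Part.dom_iff_mem]
  constructor
  · rintro ⟨k, hk⟩
    have hs : (Nat.Partrec.Code.evaln k (Denumerable.ofNat Nat.Partrec.Code x) 0).isSome := by
      by_contra hn
      simp only [test] at hk
      rw [if_neg hn] at hk
      exact one_ne_zero hk
    obtain ⟨y, hy⟩ := Option.isSome_iff_exists.1 hs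
    exact ⟨y, Nat.Partrec.Code.evaln_complete.2 ⟨k, hy⟩⟩
  · rintro ⟨y, hy⟩
    obtain ⟨k, hk⟩ := Nat.Partrec.Code.evaln_complete.1 hy
    refine ⟨k, ?_⟩
    simp only [test]
    rw [if_pos]
    exact Option.isSome_iff_exists.2 ⟨y, hk⟩

/-- the state with `x`, `k`, `t` in the registers `0`, `1`, `2` -/
def st3 (x k t : ℕ) : ℕ → ℕ := fun r => if r = 0 then x else if r = 1 then k else
  if r = 2 then t else 0

theorem exists_test : ∃ Q : Prog, ∀ x k, Exec Q (st3 x k 0) (st3 x k (test k x)) := by
  have h : @Comp 2 fun v => test v.head v.tail.head :=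
    comp_primrec (Nat.Primrec'.prim_iff₂.2 test_prim)
  obtain ⟨Q, hQ⟩ := h (fun i => if i = 0 then 1 else 0) 2 3
    (by intro i; split_ifs <;> omega) (by omega)
    (by intro i; split_ifs <;> omega)
  refine ⟨Q, fun x k => Exec.to (hQ (st3 x k 0) rfl ?_) ?_⟩
  · intro r hr
    simp only [st3]
    rw [if_neg (by omega), if_neg (by omega), if_neg (by omega)]
  · have e : vec (fun i : Fin 2 => if i = 0 then 1 else 0) (st3 x k 0) =
        k ::ᵥ x ::ᵥ List.Vector.nil := by
      rw [vec_cons, vec_cons]
      rfl
    rw [e]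
    funext r
    simp only [st3, update_apply, List.Vector.head_cons, List.Vector.tail_cons]
    split_ifs <;> first | omega | rfl

theorem prog_core : ∃ P : Prog, ∀ x : ℕ, P.Halt (st2 x 0) ↔ ∃ k, test k x = 0 := by
  obtain ⟨Q, hQ⟩ := exists_test
  set B : Prog := .seq (clear 2) (.seq (.inc 1) Q) with hB
  have hbody : ∀ x k t, Exec B (st3 x k t) (st3 x (k + 1) (test (k + 1) x)) := by
    intro x k t
    refine .seq (exec_clear _ _) (.seq (.inc _ _) ?_)
    have e : update (update (st3 x k t) 2 0) 1 (update (st3 x k t) 2 0 1 + 1) =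
        st3 x (k + 1) 0 := by
      funext r
      by_cases h1 : r = 1
      · subst h1; simp [st3, update_apply]
      · by_cases h2 : r = 2
        · subst h2; simp [st3, update_apply]
        · simp [st3, update_apply, h1, h2]
    rw [e]
    exact hQ x (k + 1)
  refine ⟨.seq Q (.loop 2 B), fun x => ?_⟩
  have hst : st2 x 0 = st3 x 0 0 := by
    funext r
    simp only [st2, st3]
    split_ifs <;> rfl
  rw [hst]
  constructor
  · rintro ⟨s', hs'⟩
    cases hs' with
    | seq h1 h2 =>
      cases exec_det h1 (hQ x 0)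
      -- induction on the loop
      have key : ∀ (L : Prog) (s s' : ℕ → ℕ), Exec L s s' → ∀ k, L = .loop 2 B →
          s = st3 x k (test k x) → ∃ j, test j x = 0 := by
        intro L s s' h
        induction h with
        | inc r s => intro k h3; cases h3
        | dec r s => intro k h3; cases h3
        | seq _ _ _ _ => intro k h3; cases h3
        | @loop0 r P s h =>
          intro k h3 h4
          cases h3
          subst h4
          exact ⟨k, h⟩
        | @loopS r P s s1 s2 h h5 h6 ih1 ih2 =>
          intro k h3 h4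
          cases h3
          subst h4
          exact ih2 (k + 1) rfl (exec_det h5 (hbody x k _))
      exact key _ _ _ h2 0 rfl rfl
  · rintro ⟨j, hj⟩
    have key : ∀ m k, test (k + m) x = 0 → ∃ s', Exec (.loop 2 B) (st3 x k (test k x)) s' := by
      intro m
      induction m with
      | zero => intro k hk; exact ⟨_, .loop0 hk⟩
      | succ m ih =>
        intro k hk
        by_cases h0 : test k x = 0
        · exact ⟨_, .loop0 h0⟩
        · obtain ⟨s', hs'⟩ := ih (k + 1) (by rw [← hk]; congr 1; omega)
          exact ⟨s', .loopS h0 (hbody x k _) hs'⟩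
    obtain ⟨s', hs'⟩ := key j 0 (by simpa using hj)
    exact ⟨s', .seq (hQ x 0) hs'⟩

end ProgComp

open ProgComp in
theorem p_prog : T_prog := by
  obtain ⟨P, hP⟩ := prog_core
  refine ⟨P, fun h => ComputablePred.halting_problem 0 ?_⟩
  refine ComputablePred.computable_of_manyOneReducible
    (p := fun c => (Nat.Partrec.Code.eval c 0).Dom) ?_ h
  refine ⟨Encodable.encode, Computable.encode, fun c => ?_⟩
  have e : P.Halt (st2 (Encodable.encode c) 0) ↔ (Nat.Partrec.Code.eval c 0).Dom := by
    rw [hP, test_iff, Denumerable.ofNat_encode]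
  exact e.symm

end Pool.Agent.Grig
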