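import Pool.Agent.Grig.Targets

set_option autoImplicit false

/-!
# GRI-8: the automorphism group of the rooted binary tree is residually nilpotent
-/

namespace Pool.Agent.Grig

open Aut

namespace Resid

/-- words of length `l` -/
abbrev Lev (l : ℕ) : Type := {w : List Bool // w.length = l}

instance (l : ℕ) : Finite (Lev l) := inferInstanceAs (Finite (List.Vector Bool l))

/-- the action on level `l` -/
def lev (l : ℕ) : Aut →* Equiv.Perm (Lev l) where
  toFun g := ⟨fun w => ⟨g.app w.1, by simp [w.2]⟩, fun w => ⟨(g⁻¹).app w.1, by simp [w.2]⟩,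
    fun w => by apply Subtype.ext; simp [← app_mul], fun w => by apply Subtype.ext; simp [← app_mul]⟩
  map_one' := by
    ext w : 1
    apply Subtype.ext
    exact app_one w.1
  map_mul' g h := by
    ext w : 1
    apply Subtype.ext
    exact app_mul g h w.1

theorem lev_apply (l : ℕ) (g : Aut) (w : Lev l) : (lev l g w).1 = g.app w.1 := rfl

theorem act_pow_of_act (h : Aut) (h0 : h.act = false) (n : ℕ) :
    (h ^ n).act = false ∧ ∀ x, (h ^ n).sec x = (h.sec x) ^ n := by
  induction n with
  | zero => simp
  | succ n ih =>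
    refine ⟨by simp [pow_succ, ih.1, h0], fun x => ?_⟩
    rw [pow_succ, sec_mul, h0, Bool.xor_false, ih.2, pow_succ]

theorem app_pow (l : ℕ) : ∀ (g : Aut) (w : List Bool), w.length = l → (g ^ (2 ^ l)).app w = w := by
  induction l with
  | zero =>
    intro g w hw
    rw [List.length_eq_zero_iff] at hw
    simp [hw]
  | succ l ih =>
    intro g w hw
    match w with
    | [] => simp
    | x :: w =>
      have h0 : (g ^ 2).act = false := by simp [pow_two]
      have h1 := act_pow_of_act (g ^ 2) h0 (2 ^ l)
      have e : g ^ (2 ^ (l + 1)) = (g ^ 2) ^ (2 ^ l) := by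
        rw [← pow_mul, pow_succ, mul_comm]
      rw [e, app_cons, h1.1, h1.2, ih _ w (by simpa using hw), Bool.xor_false]

theorem isPGroup_range (l : ℕ) : IsPGroup 2 (lev l).range := by
  rintro ⟨_, g, rfl⟩
  refine ⟨l, ?_⟩
  apply Subtype.ext
  change (lev l g) ^ (2 ^ l) = 1
  rw [← map_pow]
  ext w : 1
  apply Subtype.ext
  rw [lev_apply, app_pow l g w.1 w.2]
  rfl

theorem lev_eq_one (g : Aut) (hg : ∀ n, g ∈ (⊤ : Subgroup Aut).lowerCentralSeries n) (l : ℕ) :
    lev l g = 1 := by
  have : Fact (Nat.Prime 2) := ⟨Nat.prime_two⟩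
  have hN : Group.IsNilpotent (lev l).range := (isPGroup_range l).isNilpotent
  obtain ⟨n, hn⟩ := Subgroup.nilpotent_iff_lowerCentralSeries.mp hN
  have h1 : (lev l).rangeRestrict g ∈
      ((⊤ : Subgroup Aut).lowerCentralSeries n).map (lev l).rangeRestrict :=
    Subgroup.mem_map_of_mem _ (hg n)
  rw [Subgroup.map_lowerCentralSeries, ← MonoidHom.range_eq_map,
    MonoidHom.range_eq_top.mpr (lev l).rangeRestrict_surjective, hn, Subgroup.mem_bot] at h1
  exact congrArg Subtype.val h1

end Resid

open Resid in
/-- GRI-8 -/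
theorem p_resid : T_resid := by
  intro g hg
  apply toPerm_injective
  ext w : 1
  rw [map_one]
  change g.app w = w
  have h := lev_eq_one g hg w.length
  have h2 := congrArg (fun σ : Equiv.Perm (Lev w.length) => (σ ⟨w, rfl⟩).1) h
  exact h2

end Pool.Agent.Grig
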