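import Pool.Agent.Grig.Targets

set_option autoImplicit false

/-!
# A running machine kills the test element (GRI-9)
-/

namespace Pool.Agent.Grig.Run

open Pool.Agent.Grig
open scoped commutatorElement

section basic

variable {P : Type*} [Group P]

theorem cj_mul (x y u : P) : cj (x * y) u = cj x u * cj y u := by simp [cj, mul_assoc]
theorem cj_inv (x u : P) : cj x⁻¹ u = (cj x u)⁻¹ := by simp [cj, mul_assoc]
theorem cj_cj (x u v : P) : cj (cj x u) v = cj x (u * v) := by simp [cj, mul_assoc]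
theorem cj_one (x : P) : cj x 1 = x := by simp [cj]
theorem cm_eq (x u : P) : cm x u = x⁻¹ * cj x u := by simp [cm, cj, mul_assoc]

theorem commute_cj {x y : P} (h : Commute x y) (u : P) : Commute (cj x u) (cj y u) := by
  change cj x u * cj y u = cj y u * cj x u
  rw [← cj_mul, ← cj_mul, h.eq]

/-- conjugation by an element commuting with `e` preserves the property of commuting with `e` -/
theorem commute_cj_right {x e u : P} (h : Commute x e) (hu : Commute u e) :
    Commute (cj x u) e := by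
  have h1 := commute_cj h u
  have h2 : cj e u = e := by
    simp only [cj]
    rw [mul_assoc, ← hu.eq, inv_mul_cancel_left]
  rwa [h2] at h1

/-! ### One dimensional Baumslag argument -/

theorem step1 {u w t s : P} (hts : Commute t s)
    (hu : cj u s = u * cj u t * cj u (t ^ 2)) (hw : cj w s = w * cj w t * cj w (t ^ 2))
    {N : ℤ} (hN : 2 ≤ N) (h : ∀ x : ℤ, |x| ≤ N → Commute u (cj w (t ^ x))) :
    Commute u (cj w (t ^ (N + 1))) := by
  have hc : ∀ a b : ℤ, |b - a| ≤ N → Commute (cj u (t ^ a)) (cj w (t ^ b)) := by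
    intro a b hab
    have h1 := commute_cj (h _ hab) (t ^ a)
    rwa [cj_cj, ← zpow_add, sub_add_cancel] at h1
  have hc' : ∀ a b : ℤ, |b - a| ≤ N → Commute (cj w (t ^ b)) (cj u (t ^ a)) :=
    fun a b hab => (hc a b hab).symm
  have h1 := commute_cj (h (N - 1) (by rw [abs_le]; constructor <;> linarith)) s
  have e : cj (cj w (t ^ (N - 1))) s =
      cj w (t ^ (N - 1)) * cj w (t ^ N) * cj w (t ^ (N + 1)) := by
    rw [cj_cj, (hts.zpow_left _).eq, ← cj_cj, hw, cj_mul, cj_mul, cj_cj, cj_cj]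
    congr 2
    · congr 1
      rw [← zpow_one_add]; congr 1; ring
    · rw [← zpow_natCast, ← zpow_add]; congr 1; push_cast; ring
  rw [e, hu] at h1
  set W : P := cj w (t ^ (N - 1)) * cj w (t ^ N) * cj w (t ^ (N + 1)) with hW
  have a1 : Commute (cj u t) W := by
    have := fun b (hb : |b - 1| ≤ N) => hc 1 b hb
    simp only [zpow_one] at this
    refine ((this _ ?_).mul_right (this _ ?_)).mul_right (this _ ?_) <;>
    · rw [abs_le]; constructor <;> linarith
  have a2 : Commute (cj u (t ^ 2)) W := by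
    have := fun b (hb : |b - 2| ≤ N) => hc 2 b hb
    have e2 : (t ^ (2 : ℤ)) = t ^ 2 := by exact_mod_cast zpow_natCast t 2
    simp only [e2] at this
    refine ((this _ ?_).mul_right (this _ ?_)).mul_right (this _ ?_) <;>
    · rw [abs_le]; constructor <;> linarith
  have a0 : Commute u W := by
    have h2 := (h1.mul_left a2.inv_left).mul_left a1.inv_left
    simpa [mul_assoc] using h2
  have b0 : Commute u (cj w (t ^ (N - 1))) := h _ (by rw [abs_le]; constructor <;> linarith)
  have b1 : Commute u (cj w (t ^ N)) := h _ (by rw [abs_le]; constructor <;> linarith)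
  have h3 : Commute u ((cj w (t ^ N))⁻¹ * ((cj w (t ^ (N - 1)))⁻¹ * W)) :=
    b1.inv_right.mul_right (b0.inv_right.mul_right a0)
  rw [hW] at h3
  simpa [mul_assoc] using h3

theorem flip1 {u w t : P} {x : ℤ} (h : Commute u (cj w (t ^ x))) :
    Commute w (cj u (t ^ (-x))) := by
  have h1 := (commute_cj h (t ^ (-x))).symm
  rwa [cj_cj, ← zpow_add, add_neg_cancel, zpow_zero, cj_one] at h1

theorem baum {u w t s : P} (hts : Commute t s)
    (hu : cj u s = u * cj u t * cj u (t ^ 2)) (hw : cj w s = w * cj w t * cj w (t ^ 2))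
    (h : ∀ x : ℤ, |x| ≤ 2 → Commute u (cj w (t ^ x))) (x : ℤ) :
    Commute u (cj w (t ^ x)) := by
  have key : ∀ n : ℕ, ∀ x : ℤ, |x| ≤ (n : ℤ) + 2 → Commute u (cj w (t ^ x)) := by
    intro n
    induction n with
    | zero => intro x hx; exact h x (by simpa using hx)
    | succ n ih =>
      intro x hx
      by_cases hx' : |x| ≤ (n : ℤ) + 2
      · exact ih x hx'
      · push Not at hx'
        push_cast at hx
        rcases abs_cases x with ⟨h1, h2⟩ | ⟨h1, h2⟩
        · have e : x = ((n : ℤ) + 2) + 1 := by linarith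
          rw [e]
          exact step1 hts hu hw (by linarith [Int.natCast_nonneg n]) ih
        · have e : x = -(((n : ℤ) + 2) + 1) := by linarith
          rw [e]
          apply flip1
          apply step1 hts hw hu (by linarith [Int.natCast_nonneg n])
          intro y hy
          have := ih (-y) (by rwa [abs_neg])
          simpa using flip1 this
  exact key x.natAbs x (by
    rw [Int.natCast_natAbs]; linarith)

/-! ### Two lemmas on the test element -/

theorem lemA {x r e : P} (hx : Commute r x) (he : Commute r e) : cm (x * r) e = cm x e := by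
  have h1 : cm (x * r) e = r⁻¹ * (cm x e) * r := by
    have h2 : x * r * e = x * e * r := by rw [mul_assoc, he.eq, ← mul_assoc]
    calc cm (x * r) e = r⁻¹ * x⁻¹ * e⁻¹ * (x * r * e) := by simp [cm, mul_assoc]
      _ = r⁻¹ * (cm x e) * r := by rw [h2]; simp [cm, mul_assoc]
  have h3 : Commute r (cm x e) :=
    ((hx.inv_right.mul_right he.inv_right).mul_right hx).mul_right he
  rw [h1, mul_assoc, ← h3.eq, inv_mul_cancel_left]

theorem lemB {x r e e' : P} (hr : Commute r e') (he : Commute e e') :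
    cm (cm (x * r) e) e' = cj (cm (cm x e) e') (cj r e) := by
  have hR : Commute (cj r e) e' := commute_cj_right hr he
  have h1 : cm (x * r) e = r⁻¹ * cm x e * cj r e := by simp [cm, cj, mul_assoc]
  rw [h1]
  generalize cm x e = g
  generalize cj r e = R at hR ⊢
  have h2 : cm (r⁻¹ * g * R) e' = R⁻¹ * g⁻¹ * (r * e'⁻¹) * (r⁻¹ * g * (R * e')) := by
    simp [cm, mul_assoc]
  rw [h2, hr.inv_right.eq, hR.eq]
  simp [cm, cj, mul_assoc]

end basic

section rel

variable {P : Type*} [Group P] {n : ℕ} {M : Fin n → Instr n} {q : Fin n → P}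
  {t s : Fin 3 → P} {e : Bool → P}

/-- monomials with integer exponents -/
def T (t : Fin 3 → P) (x y z : ℤ) : P := t 0 ^ x * t 1 ^ y * t 2 ^ z

theorem T_mul (R : Rel M q t s e) (x y z x' y' z' : ℤ) :
    T t x y z * T t x' y' z' = T t (x + x') (y + y') (z + z') := by
  have h : ∀ i j, Commute (t i) (t j) := fun i j => R.tt i j
  simp only [T, zpow_add]
  have h1 : t 2 ^ z * t 0 ^ x' = t 0 ^ x' * t 2 ^ z := ((h 2 0).zpow_zpow z x').eq
  have h2 : t 1 ^ y * t 0 ^ x' = t 0 ^ x' * t 1 ^ y := ((h 1 0).zpow_zpow y x').eq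
  have h3 : t 2 ^ z * t 1 ^ y' = t 1 ^ y' * t 2 ^ z := ((h 2 1).zpow_zpow z y').eq
  calc t 0 ^ x * t 1 ^ y * t 2 ^ z * (t 0 ^ x' * t 1 ^ y' * t 2 ^ z')
      = t 0 ^ x * t 1 ^ y * (t 2 ^ z * t 0 ^ x') * t 1 ^ y' * t 2 ^ z' := by simp [mul_assoc]
    _ = t 0 ^ x * (t 1 ^ y * t 0 ^ x') * (t 2 ^ z * t 1 ^ y') * t 2 ^ z' := by
        rw [h1]; simp [mul_assoc]
    _ = _ := by rw [h2, h3]; simp [mul_assoc]

theorem T_zero (t : Fin 3 → P) : T t 0 0 0 = 1 := by simp [T]

theorem T_x (t : Fin 3 → P) (x : ℤ) : T t x 0 0 = t 0 ^ x := by simp [T]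
theorem T_y (t : Fin 3 → P) (x : ℤ) : T t 0 x 0 = t 1 ^ x := by simp [T]
theorem T_z (t : Fin 3 → P) (x : ℤ) : T t 0 0 x = t 2 ^ x := by simp [T]

/-- commutation of the basic conjugates in a range -/
theorem start (R : Rel M q t s e) (i j : Fin n) (x y z : ℤ) (hx : |x| ≤ 2) (hy : |y| ≤ 2)
    (hz : |z| ≤ 2) : Commute (q i) (cj (q j) (T t x y z)) := by
  have aux : ∀ x : ℤ, |x| ≤ 2 → ∃ u v : Fin 3, (v : ℤ) - (u : ℤ) = x := by
    intro x hx
    rw [abs_le] at hx
    obtain ⟨h1, h2⟩ := hx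
    interval_cases x
    · exact ⟨2, 0, rfl⟩
    · exact ⟨1, 0, rfl⟩
    · exact ⟨0, 0, rfl⟩
    · exact ⟨0, 1, rfl⟩
    · exact ⟨0, 2, rfl⟩
  obtain ⟨u0, v0, h0⟩ := aux x hx
  obtain ⟨u1, v1, h1⟩ := aux y hy
  obtain ⟨u2, v2, h2⟩ := aux z hz
  have hm : ∀ u0 u1 u2 : Fin 3, mono t ![u0, u1, u2] = T t (u0 : ℕ) (u1 : ℕ) (u2 : ℕ) := by
    intro u0 u1 u2
    simp [mono, T]
  have key : Commute (cj (q i) (mono t ![u0, u1, u2])) (cj (q j) (mono t ![v0, v1, v2])) :=
    R.qq i j _ _
  rw [hm, hm] at key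
  have k2 := commute_cj key (T t (-(u0 : ℕ)) (-(u1 : ℕ)) (-(u2 : ℕ)))
  rw [cj_cj, cj_cj, T_mul R, T_mul R] at k2
  simp only [add_neg_cancel, T_zero, cj_one] at k2
  have e0 : ((v0 : ℕ) : ℤ) + -((u0 : ℕ) : ℤ) = x := by linarith
  have e1 : ((v1 : ℕ) : ℤ) + -((u1 : ℕ) : ℤ) = y := by linarith
  have e2 : ((v2 : ℕ) : ℤ) + -((u2 : ℕ) : ℤ) = z := by linarith
  rwa [e0, e1, e2] at k2

theorem T_comm (t : Fin 3 → P) (g : P) (h : ∀ i, Commute (t i) g) (x y z : ℤ) :
    Commute (T t x y z) g :=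
  (((h 0).zpow_left x).mul_left ((h 1).zpow_left y)).mul_left ((h 2).zpow_left z)

theorem T_comm_s (R : Rel M q t s e) (r : Fin 3) (x y z : ℤ) : Commute (T t x y z) (s r) :=
  T_comm t _ (fun i => R.ts i r) x y z

theorem T_comm_t (R : Rel M q t s e) (r : Fin 3) (x y z : ℤ) : Commute (T t x y z) (t r) :=
  T_comm t _ (fun i => R.tt i r) x y z

/-- the Baumslag relation for a conjugate -/
theorem bs' (R : Rel M q t s e) (j : Fin n) (r : Fin 3) (x y z : ℤ) :
    cj (cj (q j) (T t x y z)) (s r) = cj (q j) (T t x y z) * cj (cj (q j) (T t x y z)) (t r) *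
      cj (cj (q j) (T t x y z)) (t r ^ 2) := by
  rw [cj_cj, cj_cj, cj_cj, (T_comm_s R r x y z).eq, (T_comm_t R r x y z).eq,
    ((T_comm_t R r x y z).pow_right 2).eq, ← cj_cj, ← cj_cj, ← cj_cj, R.bs j r, cj_mul, cj_mul]

theorem comm_all (R : Rel M q t s e) (i j : Fin n) (x y z : ℤ) :
    Commute (q i) (cj (q j) (T t x y z)) := by
  have r0 : ∀ (x y z : ℤ), |y| ≤ 2 → |z| ≤ 2 → Commute (q i) (cj (q j) (T t x y z)) := by
    intro x y z hy hz
    have h := baum (R.ts 0 0) (R.bs i 0) (bs' R j 0 0 y z) (fun x hx => by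
      rw [cj_cj, ← T_x, T_mul R]
      exact start R i j _ _ _ (by simpa using hx) (by simpa using hy) (by simpa using hz)) x
    rw [cj_cj, ← T_x, T_mul R] at h
    simpa using h
  have r1 : ∀ (x y z : ℤ), |z| ≤ 2 → Commute (q i) (cj (q j) (T t x y z)) := by
    intro x y z hz
    have h := baum (R.ts 1 1) (R.bs i 1) (bs' R j 1 x 0 z) (fun y hy => by
      rw [cj_cj, ← T_y, T_mul R]
      exact r0 _ _ _ (by simpa using hy) (by simpa using hz)) y
    rw [cj_cj, ← T_y, T_mul R] at h
    simpa using h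
  have h := baum (R.ts 2 2) (R.bs i 2) (bs' R j 2 x y 0) (fun z hz => by
      rw [cj_cj, ← T_z, T_mul R]
      exact r1 _ _ _ (by simpa using hz)) z
  rw [cj_cj, ← T_z, T_mul R] at h
  simpa using h

/-! ### The commutative subgroup `M0` -/

/-- all the conjugates -/
def gens (q : Fin n → P) (t : Fin 3 → P) : Set P :=
  {g | ∃ (i : Fin n) (x y z : ℤ), g = cj (q i) (T t x y z)}

/-- the subgroup generated by the conjugates -/
def M0 (q : Fin n → P) (t : Fin 3 → P) : Subgroup P := Subgroup.closure (gens q t)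

theorem gens_comm (R : Rel M q t s e) : ∀ g ∈ gens q t, ∀ h ∈ gens q t, Commute g h := by
  rintro _ ⟨i, x, y, z, rfl⟩ _ ⟨j, x', y', z', rfl⟩
  have h := commute_cj (comm_all R i j (x' - x) (y' - y) (z' - z)) (T t x y z)
  rw [cj_cj, T_mul R] at h
  simpa using h

theorem M0_comm (R : Rel M q t s e) {g h : P} (hg : g ∈ M0 q t) (hh : h ∈ M0 q t) :
    Commute g h := by
  unfold M0 at hg hh
  induction hg using Subgroup.closure_induction with
  | mem x hx =>
    induction hh using Subgroup.closure_induction with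
    | mem y hy => exact gens_comm R x hx y hy
    | one => exact Commute.one_right _
    | mul y z _ _ h1 h2 => exact h1.mul_right h2
    | inv y _ h1 => exact h1.inv_right
  | one => exact Commute.one_left _
  | mul y z _ _ h1 h2 => exact h1.mul_left h2
  | inv y _ h1 => exact h1.inv_left

theorem M0_cj (R : Rel M q t s e) (r : Fin 3) {g : P} (hg : g ∈ M0 q t) :
    cj g (t r) ∈ M0 q t := by
  have ht : ∃ x y z : ℤ, t r = T t x y z := by
    fin_cases r
    · exact ⟨1, 0, 0, by simp [T]⟩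
    · exact ⟨0, 1, 0, by simp [T]⟩
    · exact ⟨0, 0, 1, by simp [T]⟩
  obtain ⟨x', y', z', ht⟩ := ht
  unfold M0 at hg
  induction hg using Subgroup.closure_induction with
  | mem x hx =>
    obtain ⟨i, x, y, z, rfl⟩ := hx
    refine Subgroup.subset_closure ⟨i, x + x', y + y', z + z', ?_⟩
    rw [cj_cj, ht, T_mul R]
  | one => simp [cj]
  | mul y z _ _ h1 h2 => rw [cj_mul]; exact (M0 q t).mul_mem h1 h2
  | inv y _ h1 => rw [cj_inv]; exact (M0 q t).inv_mem h1

theorem M0_q (i : Fin n) : q i ∈ M0 q t :=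
  Subgroup.subset_closure ⟨i, 0, 0, 0, by simp [T, cj]⟩

theorem M0_cm (R : Rel M q t s e) (r : Fin 3) {g : P} (hg : g ∈ M0 q t) :
    cm g (t r) ∈ M0 q t := by
  rw [cm_eq]
  exact (M0 q t).mul_mem ((M0 q t).inv_mem hg) (M0_cj R r hg)

theorem cm_comm (R : Rel M q t s e) (r r' : Fin 3) {g : P} (hg : g ∈ M0 q t) :
    cm (cm g (t r)) (t r') = cm (cm g (t r')) (t r) := by
  have hr := M0_cj R r hg
  have hr' := M0_cj R r' hg
  have hrr : cj g (t r * t r') ∈ M0 q t := by rw [← cj_cj]; exact M0_cj R r' hr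
  have e1 : cj g (t r * t r') = cj g (t r' * t r) := by rw [R.tt r r']
  have k1 : cm (cm g (t r)) (t r') =
      (cj g (t r))⁻¹ * g * ((cj g (t r'))⁻¹ * cj g (t r * t r')) := by
    rw [cm_eq, cm_eq, cj_mul, cj_inv, cj_cj]; simp [mul_assoc]
  have k2 : cm (cm g (t r')) (t r) =
      (cj g (t r'))⁻¹ * g * ((cj g (t r))⁻¹ * cj g (t r * t r')) := by
    rw [cm_eq, cm_eq, cj_mul, cj_inv, cj_cj, e1]; simp [mul_assoc]
  rw [k1, k2, ← mul_assoc, ← mul_assoc]
  congr 1
  have c1 : Commute (cj g (t r))⁻¹ (g * (cj g (t r'))⁻¹) :=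
    ((M0_comm R hr hg).mul_right (M0_comm R hr hr').inv_right).inv_left
  rw [mul_assoc, c1.eq]
  have c2 : Commute g (cj g (t r'))⁻¹ := (M0_comm R hg hr').inv_right
  rw [c2.eq]

theorem cm_mul_left (R : Rel M q t s e) (r : Fin 3) {g h : P} (hg : g ∈ M0 q t)
    (hh : h ∈ M0 q t) : cm (g * h) (t r) = cm g (t r) * cm h (t r) := by
  have c1 : Commute h⁻¹ (cm g (t r)) := (M0_comm R hh (M0_cm R r hg)).inv_left
  calc cm (g * h) (t r) = h⁻¹ * cm g (t r) * cj h (t r) := by simp [cm, cj, mul_assoc]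
    _ = cm g (t r) * cm h (t r) := by rw [c1.eq, cm_eq h, mul_assoc]

theorem cm_inv_left (R : Rel M q t s e) (r : Fin 3) {g : P} (hg : g ∈ M0 q t) :
    cm g⁻¹ (t r) = (cm g (t r))⁻¹ := by
  have h := cm_mul_left R r hg ((M0 q t).inv_mem hg)
  rw [mul_inv_cancel] at h
  have h1 : cm (1 : P) (t r) = 1 := by simp [cm]
  rw [h1] at h
  exact (inv_eq_of_mul_eq_one_right h.symm).symm

/-- the map `g ↦ cm g (t r)` on `M0` -/
def dl (R : Rel M q t s e) (r : Fin 3) : Monoid.End (M0 q t) where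
  toFun g := ⟨cm g.1 (t r), M0_cm R r g.2⟩
  map_one' := by ext; simp [cm]
  map_mul' g h := by ext; exact cm_mul_left R r g.2 h.2

theorem dl_val (R : Rel M q t s e) (r : Fin 3) (g : M0 q t) :
    ((dl R r g : M0 q t) : P) = cm g.1 (t r) := rfl

theorem dl_comm (R : Rel M q t s e) (r r' : Fin 3) : Commute (dl R r) (dl R r') := by
  change dl R r * dl R r' = dl R r' * dl R r
  ext g
  exact cm_comm R r' r g.2

/-- the generator `q i` in `M0` -/
def Q (q : Fin n → P) (t : Fin 3 → P) (i : Fin n) : M0 q t := ⟨q i, M0_q i⟩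

/-- the operator of a configuration -/
def O (R : Rel M q t s e) (a b c : ℕ) : Monoid.End (M0 q t) :=
  dl R 0 ^ a * dl R 1 ^ b * dl R 2 ^ c

/-- the vector of a configuration -/
def X (R : Rel M q t s e) (i : Fin n) (a b c : ℕ) : M0 q t := O R a b c (Q q t i)

theorem O_0 (R : Rel M q t s e) (a b c : ℕ) : O R a b c * dl R 0 = O R (a + 1) b c := by
  have h1 : Commute (dl R 2 ^ c) (dl R 0) := (dl_comm R 2 0).pow_left c
  have h2 : Commute (dl R 1 ^ b) (dl R 0) := (dl_comm R 1 0).pow_left b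
  simp only [O]
  rw [mul_assoc, h1.eq, ← mul_assoc, mul_assoc (dl R 0 ^ a), h2.eq, ← mul_assoc, pow_succ]

theorem O_1 (R : Rel M q t s e) (a b c : ℕ) : O R a b c * dl R 1 = O R a (b + 1) c := by
  have h1 : Commute (dl R 2 ^ c) (dl R 1) := (dl_comm R 2 1).pow_left c
  simp only [O]
  rw [mul_assoc, h1.eq, ← mul_assoc, mul_assoc (dl R 0 ^ a), pow_succ]

theorem O_2 (R : Rel M q t s e) (a b c : ℕ) : O R a b c * dl R 2 = O R a b (c + 1) := by
  simp only [O]
  rw [mul_assoc, pow_succ]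

theorem O_2' (R : Rel M q t s e) (a b c : ℕ) : dl R 2 * O R a b c = O R a b (c + 1) := by
  rw [← O_2]
  have h1 : Commute (dl R 2) (dl R 0 ^ a) := (dl_comm R 2 0).pow_right a
  have h2 : Commute (dl R 2) (dl R 1 ^ b) := (dl_comm R 2 1).pow_right b
  have h3 : Commute (dl R 2) (dl R 2 ^ c) := (Commute.refl _).pow_right c
  exact ((h1.mul_right h2).mul_right h3).eq

/-- the test element of a configuration -/
def vv (R : Rel M q t s e) (i : Fin n) (a b c : ℕ) : P :=
  cm (cm (X R i a b c : P) (e false)) (e true)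

theorem comm_dl (R : Rel M q t s e) {u : P} {r : Fin 3} (hu : Commute (t r) u) (g : M0 q t)
    (hg : Commute (g : P) u) : Commute ((dl R r g : M0 q t) : P) u := by
  rw [dl_val, cm_eq]
  exact hg.inv_left.mul_left (commute_cj_right hg hu)

theorem comm_dl_pow (R : Rel M q t s e) {u : P} {r : Fin 3} (hu : Commute (t r) u) (k : ℕ)
    (g : M0 q t) (hg : Commute (g : P) u) : Commute (((dl R r ^ k) g : M0 q t) : P) u := by
  induction k with
  | zero => simpa using hg
  | succ k ih =>
    rw [pow_succ']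
    exact comm_dl R hu _ ih

theorem X_zero_case (R : Rel M q t s e) (i k : Fin n) (a b c : ℕ) :
    (X R k a b (c + 1) : P) = (X R i a b c : P) *
      ((O R a b c ((Q q t i)⁻¹ * dl R 2 (Q q t k)) : M0 q t) : P) := by
  rw [map_mul, map_inv]
  have h : O R a b c (dl R 2 (Q q t k)) = X R k a b (c + 1) := by
    rw [X, ← O_2]; rfl
  rw [h]
  change _ = ((X R i a b c * ((X R i a b c)⁻¹ * X R k a b (c + 1)) : M0 q t) : P)
  rw [mul_inv_cancel_left]

theorem step_vv (R : Rel M q t s e) (i i' : Fin n) (a b a' b' c : ℕ)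
    (h : step M (i, a, b) = some (i', a', b')) :
    ∃ g, vv R i a b c = cj (vv R i' a' b' (c + 1)) g := by
  have hi := R.ins i
  have hX : ∀ (f : Monoid.End (M0 q t)) (x y : M0 q t), x = y → f x = f y :=
    fun f x y h => by rw [h]
  unfold step at h
  simp only at h
  cases hM : M i with
  | halt => rw [hM] at h; simp at h
  | inc r j =>
    rw [hM] at h hi
    have hq : q i = cm (cm (q j) (t (dir r))) (t 2) := hi
    cases r with
    | false =>
      simp only [Option.some.injEq, Prod.mk.injEq] at h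
      obtain ⟨rfl, rfl, rfl⟩ := h
      refine ⟨1, ?_⟩
      rw [cj_one, vv, vv]
      have hQ : Q q t i = dl R 2 (dl R 0 (Q q t j)) := Subtype.ext hq
      have : X R i a b c = X R j (a + 1) b (c + 1) := by
        rw [X, hQ, X, ← O_2, ← O_0, mul_assoc]
        have := dl_comm R 0 2
        rw [this.eq]; rfl
      rw [this]
    | true =>
      simp only [Option.some.injEq, Prod.mk.injEq] at h
      obtain ⟨rfl, rfl, rfl⟩ := h
      refine ⟨1, ?_⟩
      rw [cj_one, vv, vv]
      have hQ : Q q t i = dl R 2 (dl R 1 (Q q t j)) := Subtype.ext hq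
      have : X R i a b c = X R j a (b + 1) (c + 1) := by
        rw [X, hQ, X, ← O_2, ← O_1, mul_assoc]
        have := dl_comm R 1 2
        rw [this.eq]; rfl
      rw [this]
  | dec r j k =>
    rw [hM] at h hi
    obtain ⟨hq, hz⟩ : cm (q i) (t (dir r)) = cm (q j) (t 2) ∧
      ((q i)⁻¹ * cm (q k) (t 2)) * e r = e r * ((q i)⁻¹ * cm (q k) (t 2)) := hi
    have hz' : Commute (((Q q t i)⁻¹ * dl R 2 (Q q t k) : M0 q t) : P) (e r) := hz
    cases r with
    | false =>
      by_cases ha : a = 0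
      · simp only [ha, if_true, Option.some.injEq, Prod.mk.injEq] at h
        obtain ⟨rfl, rfl, rfl⟩ := h
        subst ha
        refine ⟨1, ?_⟩
        rw [cj_one, vv, vv, X_zero_case R i k, lemA]
        · exact M0_comm R (Subtype.mem _) (Subtype.mem _)
        · simp only [O, pow_zero, one_mul]
          exact comm_dl_pow R (R.e0 1 (by decide)) _ _ (comm_dl_pow R (R.e0 2 (by decide)) _ _ hz')
      · simp only [ha, if_false, Option.some.injEq, Prod.mk.injEq] at h
        obtain ⟨rfl, rfl, rfl⟩ := h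
        obtain ⟨a, rfl⟩ := Nat.exists_eq_succ_of_ne_zero ha
        refine ⟨1, ?_⟩
        rw [cj_one, vv, vv]
        have hQ : dl R 0 (Q q t i) = dl R 2 (Q q t j) := Subtype.ext hq
        have : X R i (a + 1) b c = X R j a b (c + 1) := by
          rw [X, X, ← O_2, ← O_0]
          change O R a b c (dl R 0 (Q q t i)) = O R a b c (dl R 2 (Q q t j))
          rw [hQ]
        rw [Nat.succ_eq_add_one, this, Nat.add_sub_cancel]
    | true =>
      by_cases hb : b = 0
      · simp only [hb, if_true, Option.some.injEq, Prod.mk.injEq] at h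
        obtain ⟨rfl, rfl, rfl⟩ := h
        subst hb
        rw [vv, vv, X_zero_case R i k]
        set r : P := ((O R a 0 c ((Q q t i)⁻¹ * dl R 2 (Q q t k)) : M0 q t) : P) with hr
        have hr' : Commute r (e true) := by
          simp only [hr, O, pow_zero, mul_one]
          exact comm_dl_pow R (R.e1 0 (by decide)) _ _ (comm_dl_pow R (R.e1 2 (by decide)) _ _ hz')
        refine ⟨(cj r (e false))⁻¹, ?_⟩
        rw [lemB hr' R.ee, cj_cj, mul_inv_cancel, cj_one]
      · simp only [hb, if_false, Option.some.injEq, Prod.mk.injEq] at h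
        obtain ⟨rfl, rfl, rfl⟩ := h
        obtain ⟨b, rfl⟩ := Nat.exists_eq_succ_of_ne_zero hb
        refine ⟨1, ?_⟩
        rw [cj_one, vv, vv]
        have hQ : dl R 1 (Q q t i) = dl R 2 (Q q t j) := Subtype.ext hq
        have : X R i a (b + 1) c = X R j a b (c + 1) := by
          rw [X, X, ← O_2, ← O_1]
          change O R a b c (dl R 1 (Q q t i)) = O R a b c (dl R 2 (Q q t j))
          rw [hQ]
        rw [Nat.succ_eq_add_one, this, Nat.add_sub_cancel]

theorem start_eq (R : Rel M q t s e) (i : Fin n) (N : ℕ) :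
    startVec (q i) (t 0) N = (X R i N 0 0 : P) := by
  have h : ∀ N, startVec (q i) (t 0) N = (((dl R 0 ^ N) (Q q t i) : M0 q t) : P) := by
    intro N
    induction N with
    | zero => simp [startVec, Q]
    | succ N ih =>
      rw [startVec, ih, pow_succ']
      rfl
  rw [h, X, O]
  simp

/-! ### Lower central series -/

theorem cm_mem {k : ℕ} {x : P} (hx : x ∈ (⊤ : Subgroup P).lowerCentralSeries k) (y : P) :
    cm x y ∈ (⊤ : Subgroup P).lowerCentralSeries (k + 1) := by
  have h : cm x y = ⁅x⁻¹, y⁻¹⁆ := by simp [cm, commutatorElement_def]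
  rw [h, Subgroup.lowerCentralSeries_succ]
  exact Subgroup.commutator_mem_commutator (inv_mem hx) (Subgroup.mem_top _)

theorem cm_mem' {k : ℕ} {x : P} (hx : x ∈ (⊤ : Subgroup P).lowerCentralSeries k) (y : P) :
    cm x y ∈ (⊤ : Subgroup P).lowerCentralSeries k :=
  (⊤ : Subgroup P).lowerCentralSeries_antitone (Nat.le_succ k) (cm_mem hx y)

theorem cj_mem {k : ℕ} {x : P} (hx : x ∈ (⊤ : Subgroup P).lowerCentralSeries k) (y : P) :
    cj x y ∈ (⊤ : Subgroup P).lowerCentralSeries k := by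
  have h := (inferInstance : ((⊤ : Subgroup P).lowerCentralSeries k).Normal).conj_mem x hx y⁻¹
  simpa [cj] using h

theorem X_mem (R : Rel M q t s e) (i : Fin n) (a b c : ℕ) :
    (X R i a b c : P) ∈ (⊤ : Subgroup P).lowerCentralSeries c := by
  induction c with
  | zero => exact Subgroup.mem_top _
  | succ c ih =>
    rw [X, ← O_2']
    exact cm_mem ih _

theorem vv_mem (R : Rel M q t s e) (i : Fin n) (a b c : ℕ) :
    vv R i a b c ∈ (⊤ : Subgroup P).lowerCentralSeries c :=
  cm_mem' (cm_mem' (X_mem R i a b c) _) _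

theorem run_vv (R : Rel M q t s e) (i0 : Fin n) (N : ℕ) (h : ¬ Halts M (i0, N, 0)) (k : ℕ) :
    ∃ (i : Fin n) (a b : ℕ) (g : P), run M (i0, N, 0) k = some (i, a, b) ∧
      testEl (q i0) (t 0) e N = cj (vv R i a b k) g := by
  induction k with
  | zero =>
    refine ⟨i0, N, 0, 1, rfl, ?_⟩
    rw [cj_one, testEl, vv, start_eq R]
  | succ k ih =>
    obtain ⟨i, a, b, g, h1, h2⟩ := ih
    cases h3 : step M (i, a, b) with
    | none =>
      exact absurd ⟨k + 1, by rw [run, h1]; exact h3⟩ h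
    | some x =>
      obtain ⟨i', a', b'⟩ := x
      obtain ⟨g', h4⟩ := step_vv R i i' a b a' b' k h3
      refine ⟨i', a', b', g' * g, by rw [run, h1]; exact h3, ?_⟩
      rw [h2, h4, cj_cj]

end rel

end Pool.Agent.Grig.Run

namespace Pool.Agent.Grig

theorem p_run : T_run := by
  intro n M P _ q t s e R i0 N h k
  obtain ⟨i, a, b, g, _, h2⟩ := Run.run_vv R i0 N h k
  rw [h2]
  exact Run.cj_mem (Run.vv_mem R i a b k) g

end Pool.Agent.Grig
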