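import Pool.Agent.Grig.Targets

set_option autoImplicit false

/-! # The truncated solutions and the initial condition -/

namespace Pool.Agent.Grig
namespace TruncAux

open Aut

/-! ### Action of `putAt` -/

theorem app_append' (g : Aut) (v w : List Bool) :
    g.app (v ++ w) = g.app v ++ (g.secs v).app w := by
  induction v generalizing g with
  | nil => rfl
  | cons x v ih => simp only [List.cons_append, app_cons, ih, secs_cons]

theorem putAt_app_self (u : List Bool) (h : Aut) (w : List Bool) :
    (putAt u h).app (u ++ w) = u ++ h.app w := by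
  induction u with
  | nil => rfl
  | cons x u ih =>
    cases x
    · rw [putAt_false, List.cons_append, app_cons, act_mk', sec_mk'_false, ih]
      rfl
    · rw [putAt_true, List.cons_append, app_cons, act_mk', sec_mk'_true, ih]
      rfl

theorem putAt_app_other (u u' : List Bool) (h : Aut) (w : List Bool)
    (hl : u'.length = u.length) (hne : u' ≠ u) :
    (putAt u h).app (u' ++ w) = u' ++ w := by
  induction u generalizing u' with
  | nil =>
    exfalso
    exact hne (List.length_eq_zero_iff.1 (by simpa using hl))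
  | cons x u ih =>
    cases u' with
    | nil => simp at hl
    | cons y u' =>
      have hl' : u'.length = u.length := by simpa using hl
      cases x <;> cases y
      · have hne' : u' ≠ u := fun h' => hne (by rw [h'])
        rw [putAt_false, List.cons_append, app_cons, act_mk', sec_mk'_false, ih u' hl' hne']
        rfl
      · rw [putAt_false, List.cons_append, app_cons, act_mk', sec_mk'_true, app_one]
        rfl
      · rw [putAt_true, List.cons_append, app_cons, act_mk', sec_mk'_false, app_one]
        rfl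
      · have hne' : u' ≠ u := fun h' => hne (by rw [h'])
        rw [putAt_true, List.cons_append, app_cons, act_mk', sec_mk'_true, ih u' hl' hne']
        rfl

theorem app_inj (g : Aut) {v w : List Bool} (h : g.app v = g.app w) : v = w := by
  have := congrArg g.appInv h
  rwa [appInv_app, appInv_app] at this

theorem kap_move : (a * b * a * b).app [false, false] = [false, true] := by decide

theorem fix_of_comm (g : Aut) (u : List Bool) (h : g * kap u = kap u * g) : g.app u = u := by
  by_contra hne
  have h1 : (g * kap u).app (u ++ [false, false]) = (kap u * g).app (u ++ [false, false]) := by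
    rw [h]
  rw [app_mul, app_mul, kap, putAt_app_self, kap_move, app_append' g u [false, false],
    putAt_app_other u (g.app u) _ _ (length_app g u) hne, ← app_append' g u [false, false]] at h1
  have h2 := app_inj g h1
  simp at h2

theorem fix_four (g : Aut) (h : ∀ u : List Bool, u.length = 4 → u ≠ [true, true, true, true] →
    g * kap u = kap u * g) : ∀ u : List Bool, u.length = 4 → g.app u = u := by
  intro u hu
  by_cases h1 : u = [true, true, true, true]
  · by_contra hne
    have hl : (g.app u).length = 4 := by rw [length_app, hu]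
    have h2 : g.app (g.app u) = g.app u :=
      fix_of_comm g (g.app u) (h (g.app u) hl (by rw [← h1]; exact hne))
    exact hne (app_inj g h2)
  · exact fix_of_comm g u (h u hu h1)

theorem port_zero (g : Aut) (h : ∀ u : List Bool, u.length = 4 → g.app u = u) (v : List Bool)
    (hv : v.length ≤ 3) : g.p v = false := by
  have h1 := h (v ++ false :: List.replicate (3 - v.length) false) (by
    simp only [List.length_append, List.length_cons, List.length_replicate]; omega)
  rw [app_append'] at h1
  have h2 := (List.append_inj h1 (length_app g v)).2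
  rw [app_cons, secs_act] at h2
  have h3 := (List.cons.inj h2).1
  simpa using h3

end TruncAux

open Aut TruncAux

theorem p_init : T_init := by
  intro h X hI v hv
  have h1 := fix_four (X * h⁻¹) hI
  have h2 : X = (X * h⁻¹) * h := by group
  have h3 : X.p v = ((X * h⁻¹) * h).p v := by rw [← h2]
  rw [h3, p_mul, port_zero _ h1 (h.app v) (by rw [length_app]; exact hv)]
  simp

namespace TruncAux

/-! ### Numerical facts -/

theorem num (m : ℕ) : ∀ p : Bool,
    (D (tr m p).1 = (false, true, p) ∧ lam 1 (tr m p).1 = false ∧ lam 2 (tr m p).1 = !p) ∧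
    (D (tr m p).2.1 = (false, false, false) ∧ lam 1 (tr m p).2.1 = p ∧ lam 2 (tr m p).2.1 = p) ∧
    (D (tr m p).2.2 = (false, false, p) ∧ lam 1 (tr m p).2.2 = p ∧ lam 2 (tr m p).2.2 = false) := by
  induction m with
  | zero =>
    intro p
    cases p
    · exact ⟨⟨rfl, rfl, rfl⟩, ⟨rfl, rfl, rfl⟩, ⟨rfl, rfl, rfl⟩⟩
    · exact ⟨⟨rfl, rfl, rfl⟩, ⟨rfl, rfl, rfl⟩, ⟨rfl, rfl, rfl⟩⟩
  | succ m ih =>
    intro p
    obtain ⟨⟨a1, a2, a3⟩, ⟨b1, b2, b3⟩, ⟨c1, c2, c3⟩⟩ := ih p
    obtain ⟨⟨d1, d2, d3⟩, -, -⟩ := ih (!p)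
    have bact : (tr m p).2.1.act = false := congrArg Prod.fst b1
    have cact : (tr m p).2.2.act = false := congrArg Prod.fst c1
    have dact : (tr m (!p)).1.act = false := congrArg Prod.fst d1
    have lb1 : lam 1 b = true := rfl
    have lb2 : lam 2 b = true := rfl
    have lp1 : lam 1 (apow p) = false := by cases p <;> rfl
    have lp2 : lam 2 (apow p) = false := by cases p <;> rfl
    have pact : (apow p).act = p := by cases p <;> rfl
    have lz1 : lam 1 (apow p * z) = false := by cases p <;> rfl
    have lz2 : lam 2 (apow p * z) = false := by cases p <;> rfl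
    have zact : (apow p * z).act = p := by cases p <;> rfl
    refine ⟨⟨?_, ?_, ?_⟩, ⟨?_, ?_, ?_⟩, ⟨?_, ?_, ?_⟩⟩
    · change (false, lam 2 b, lam 2 (tr m p).2.1) = _
      rw [lb2, b3]
    · change xor b.act (tr m p).2.1.act = _
      rw [bact]; rfl
    · change xor (lam 1 b) (lam 1 (tr m p).2.1) = _
      rw [lb1, b2]; cases p <;> rfl
    · change (false, lam 2 (apow p), lam 2 (tr m p).2.2) = _
      rw [lp2, c3]
    · change xor (apow p).act (tr m p).2.2.act = _
      rw [pact, cact]; cases p <;> rfl
    · change xor (lam 1 (apow p)) (lam 1 (tr m p).2.2) = _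
      rw [lp1, c2]; cases p <;> rfl
    · change (false, lam 2 (apow p * z), lam 2 (tr m (!p)).1) = _
      rw [lz2, d3]; cases p <;> rfl
    · change xor (apow p * z).act (tr m (!p)).1.act = _
      rw [zact, dact]; cases p <;> rfl
    · change xor (lam 1 (apow p * z)) (lam 1 (tr m (!p)).1) = _
      rw [lz1, d2]; cases p <;> rfl

theorem apow_mem (p : Bool) : apow p ∈ G := by
  cases p
  · exact G.one_mem
  · exact a_mem

theorem mem (h : T_mk) (m : ℕ) : ∀ p : Bool,
    (tr m p).1 ∈ G ∧ (tr m p).2.1 ∈ G ∧ (tr m p).2.2 ∈ G := by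
  induction m with
  | zero =>
    intro p
    cases p
    · exact ⟨G.mul_mem d_mem z_mem, G.one_mem, G.one_mem⟩
    · exact ⟨z_mem, b_mem, c_mem⟩
  | succ m ih =>
    intro p
    refine ⟨h b b_mem _ (ih p).2.1 ?_, h _ (apow_mem p) _ (ih p).2.2 ?_,
      h _ (G.mul_mem (apow_mem p) z_mem) _ (ih (!p)).1 ?_⟩
    · rw [(num m p).2.1.1]; rfl
    · rw [(num m p).2.2.1]; cases p <;> rfl
    · rw [(num m (!p)).1.1]; cases p <;> rfl

theorem mk_comm {x x' y y' : Aut} (h : x * y = y * x) (h' : x' * y' = y' * x') :
    mk' false x x' * mk' false y y' = mk' false y y' * mk' false x x' := by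
  rw [mk'_false_mul, mk'_false_mul, h, h']

theorem apow_comm (p : Bool) : apow p * a = a * apow p := by cases p <;> simp [apow]

theorem apz_comm (p : Bool) : apow p * z * a = a * (apow p * z) := by
  rw [mul_assoc, ← a_mul_z, ← mul_assoc, apow_comm, mul_assoc]

theorem comm (m : ℕ) : ∀ p : Bool,
    (tr m p).1 * d = d * (tr m p).1 ∧ (tr m p).2.1 * b = b * (tr m p).2.1 ∧
    (tr m p).2.2 * c = c * (tr m p).2.2 := by
  induction m with
  | zero =>
    intro p
    cases p
    · refine ⟨?_, ?_, ?_⟩
      · change d * z * d = d * (d * z)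
        rw [mul_assoc, ← d_mul_z]
      · change 1 * b = b * 1
        simp
      · change 1 * c = c * 1
        simp
    · exact ⟨d_mul_z.symm, rfl, rfl⟩
  | succ m ih =>
    intro p
    refine ⟨?_, ?_, ?_⟩
    · change mk' false b (tr m p).2.1 * d = d * mk' false b (tr m p).2.1
      rw [d_eq]
      exact mk_comm (by simp) (ih p).2.1
    · change mk' false (apow p) (tr m p).2.2 * b = b * mk' false (apow p) (tr m p).2.2
      rw [b_eq]
      exact mk_comm (apow_comm p) (ih p).2.2
    · change mk' false (apow p * z) (tr m (!p)).1 * c = c * mk' false (apow p * z) (tr m (!p)).1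
      rw [c_eq]
      exact mk_comm (apz_comm p) (ih (!p)).1

/-! ### The equations -/

/-- the three equations with errors -/
def Eq3 (F V W r1 r2 r3 : Aut) : Prop :=
  (W * V * F * c * F) ^ 4 = r1 * (W * V * c) ^ 4 ∧
  (V * F * W * b * W) ^ 4 = r2 * (V * F * b) ^ 4 ∧
  (F * W * V * d * V) ^ 4 = r3 * (F * W * d) ^ 4

theorem z_pow : z ^ 4 = 1 := by
  rw [show (4 : ℕ) = 2 * 2 from rfl, pow_mul, pow_two z, z_mul_z, one_pow]

theorem da_pow : (d * a) ^ 4 = 1 := by
  have e : (d * a) ^ 4 = d * (z * z) * d := by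
    simp only [z, pow_succ, pow_zero, one_mul, mul_assoc, d_mul_d, mul_one]
  rw [e, z_mul_z, mul_one, d_mul_d]

theorem bac_pow : (b * a * c) ^ 4 = 1 := by
  have hcb : ∀ X : Aut, c * (b * X) = d * X := fun X => by rw [← mul_assoc, c_mul_b]
  have e2 : a * d * a = z * d := by simp only [z, mul_assoc, d_mul_d, mul_one]
  have e3 : (b * a * c) ^ 4 = b * (z * (a * d * a)) * c := by
    simp only [z, pow_succ, pow_zero, one_mul, mul_assoc, hcb]
  rw [e3, e2, ← mul_assoc z z d, z_mul_z, one_mul, b_mul_d, c_mul_c]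

theorem zabab : z * a * b * a * b = mk' false (d * a) (b * a * c) := by
  apply ext'
  · rfl
  · simp [sec_mul, mul_assoc]
    rw [← mul_assoc, b_mul_c]
  · simp [sec_mul, mul_assoc]

/-- `(z a b a b)^4 = 1`. -/
theorem zero1 (p : Bool) : (apow p * z * apow (!p) * b * a * b) ^ 4 = 1 := by
  have e : apow p * z * apow (!p) * b * a * b = z * a * b * a * b := by
    cases p
    · change 1 * z * a * b * a * b = _
      rw [one_mul]
    · change a * z * 1 * b * a * b = _
      rw [mul_one, a_mul_z]
  rw [e, zabab, mk'_false_pow, da_pow, bac_pow, mk'_one]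

theorem zero1' (p : Bool) : (apow p * z * apow (!p) * a) ^ 4 = 1 := by
  have e : apow p * z * apow (!p) * a = z := by
    cases p
    · change 1 * z * a * a = _
      rw [one_mul, mul_assoc, a_mul_a, mul_one]
    · change a * z * 1 * a = _
      rw [mul_one, a_mul_z, mul_assoc, a_mul_a, mul_one]
  rw [e, z_pow]

theorem zero2 (p : Bool) : apow p * z * a * (apow p * z) = a := by
  have h1 : apow p * z * (apow p * z) = 1 := by
    cases p
    · change 1 * z * (1 * z) = 1
      simp
    · change a * z * (a * z) = 1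
      rw [a_mul_z, mul_assoc, ← mul_assoc a z a, a_mul_z, mul_assoc z a a, a_mul_a, mul_one,
        z_mul_z]
  rw [apz_comm, mul_assoc, h1, mul_one]

theorem apow_sq (p : Bool) : apow p * apow p = 1 := by cases p <;> simp [apow]

/-- one level down -/
theorem eq_step (p : Bool) (F' V' W' r1 r2 r3 : Aut) (h : Eq3 W' F' V' r1 r2 r3) :
    Eq3 (mk' false b F') (mk' false (apow (!p)) V') (mk' false (apow p * z) W')
      (mk' false 1 r3) (mk' false 1 r1) (mk' false 1 r2) := by
  obtain ⟨h1, h2, h3⟩ := h
  refine ⟨?_, ?_, ?_⟩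
  · rw [c_eq]
    simp only [mk'_false_mul, mk'_false_pow]
    rw [zero1, zero1', h3]
    simp
  · rw [b_eq]
    simp only [mk'_false_mul, mk'_false_pow]
    rw [h1, one_mul]
    congr 2
    rw [mul_assoc, mul_assoc, ← mul_assoc (apow p * z) a, zero2]
  · rw [d_eq]
    simp only [mk'_false_mul, mk'_false_pow]
    rw [h2, one_mul, mul_one, mul_assoc, apow_sq]

theorem eq_step' (m : ℕ) (p : Bool) (r1 r2 r3 : Aut)
    (h : Eq3 (tr m (!p)).1 (tr m p).2.1 (tr m (!p)).2.2 r1 r2 r3) :
    Eq3 (tr (m + 1) p).1 (tr (m + 1) (!p)).2.1 (tr (m + 1) p).2.2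
      (mk' false 1 r3) (mk' false 1 r1) (mk' false 1 r2) :=
  eq_step p _ _ _ r1 r2 r3 h

theorem eq_step3 (m : ℕ) (p : Bool) (r1 r2 r3 : Aut)
    (h : Eq3 (tr m (!p)).1 (tr m p).2.1 (tr m (!p)).2.2 r1 r2 r3) :
    Eq3 (tr (m + 3) p).1 (tr (m + 3) (!p)).2.1 (tr (m + 3) p).2.2
      (putAt [true, true, true] r1) (putAt [true, true, true] r2)
      (putAt [true, true, true] r3) := by
  have h1 := eq_step' m p r1 r2 r3 h
  have h2 : Eq3 (tr (m + 1) (! !p)).1 (tr (m + 1) (!p)).2.1 (tr (m + 1) (! !p)).2.2
      (mk' false 1 r3) (mk' false 1 r1) (mk' false 1 r2) := by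
    rw [Bool.not_not]
    exact h1
  have h3 := eq_step' (m + 1) (!p) _ _ _ h2
  rw [Bool.not_not] at h3
  exact eq_step' (m + 2) p _ _ _ h3

/-- the error on level zero -/
def rho0 : Aut := mk' false ((a * b) ^ 8) 1

theorem abab_pow : (a * b * a * b) ^ 4 = (a * b) ^ 8 := by
  have e : a * b * a * b = (a * b) ^ 2 := by rw [pow_two, mul_assoc (a * b) a b]
  rw [e, ← pow_mul]

theorem eq_base (p : Bool) : Eq3 (tr 0 p).1 (tr 0 (!p)).2.1 (tr 0 p).2.2 rho0 1 1 := by
  cases p
  · change Eq3 (d * z) b 1 rho0 1 1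
    refine ⟨?_, ?_, ?_⟩
    · rw [one_mul, b_mul_c]
      have e : b * (d * z) * c * (d * z) = mk' false (a * b * a * b) b := by
        apply ext'
        · rfl
        · simp [sec_mul, mul_assoc]
        · simp [sec_mul, mul_assoc]
          rw [← mul_assoc b b d, b_mul_b, one_mul, c_mul_d]
      have hb : b ^ 4 = 1 := by
        rw [show (4 : ℕ) = 2 * 2 from rfl, pow_mul, pow_two b, b_mul_b, one_pow]
      have hd : d ^ 4 = 1 := by
        rw [show (4 : ℕ) = 2 * 2 from rfl, pow_mul, pow_two d, d_mul_d, one_pow]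
      rw [e, mk'_false_pow, abab_pow, hb, hd, mul_one]
      rfl
    · simp
    · simp [mul_assoc, b_mul_d, c_mul_b]
  · change Eq3 z 1 c rho0 1 1
    refine ⟨?_, ?_, ?_⟩
    · have e : c * 1 * z * c * z = mk' false (a * b * a * b) 1 := by
        apply ext'
        · rfl
        · simp [sec_mul, mul_assoc]
        · simp [sec_mul, mul_assoc]
          rw [d_mul_b, ← mul_assoc, d_mul_b, c_mul_c]
      rw [e, mk'_false_pow, abab_pow, one_pow, mul_one, c_mul_c, one_pow, mul_one]
      rfl
    · simp [mul_assoc]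
      rw [b_mul_c, c_mul_d]
    · simp

theorem eq_all (n : ℕ) : ∀ p : Bool, Eq3 (tr (3 * n) p).1 (tr (3 * n) (!p)).2.1 (tr (3 * n) p).2.2
    (putAt (List.replicate (3 * n) true) rho0) 1 1 := by
  induction n with
  | zero => exact eq_base
  | succ n ih =>
    intro p
    have h := ih (!p)
    rw [Bool.not_not] at h
    have h1 := eq_step3 (3 * n) p _ _ _ h
    rw [putAt_one] at h1
    exact h1

/-! ### The initial condition -/

/-- equal up to an element supported below `1^k` -/
def Rk (k : ℕ) (X h : Aut) : Prop := ∃ Y, X = putAt (List.replicate k true) Y * h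

theorem Rk_step {k : ℕ} {X h : Aut} (x : Aut) (H : Rk k X h) :
    Rk (k + 1) (mk' false x X) (mk' false x h) := by
  obtain ⟨Y, rfl⟩ := H
  refine ⟨Y, ?_⟩
  rw [List.replicate_succ, putAt_true, mk'_false_mul, one_mul]

theorem Rk_tr (m k : ℕ) : ∀ p : Bool, Rk k (tr (m + k) p).1 (tr k p).1 ∧
    Rk k (tr (m + k) p).2.1 (tr k p).2.1 ∧ Rk k (tr (m + k) p).2.2 (tr k p).2.2 := by
  induction k with
  | zero =>
    intro p
    have e : ∀ X h : Aut, Rk 0 X h := fun X h => ⟨X * h⁻¹, by
      rw [List.replicate_zero, putAt_nil]; group⟩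
    exact ⟨e _ _, e _ _, e _ _⟩
  | succ k ih =>
    intro p
    exact ⟨Rk_step b (ih p).2.1, Rk_step (apow p) (ih p).2.2, Rk_step (apow p * z) (ih (!p)).1⟩

theorem put_comm (k : ℕ) (u : List Bool) (Y h : Aut) (hu : u.length ≤ k)
    (hne : u ≠ List.replicate u.length true) :
    putAt (List.replicate k true) Y * putAt u h = putAt u h * putAt (List.replicate k true) Y := by
  induction k generalizing u with
  | zero =>
    exfalso
    have : u = [] := List.length_eq_zero_iff.1 (Nat.le_zero.1 hu)
    subst this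
    exact hne rfl
  | succ k ih =>
    cases u with
    | nil => exact absurd rfl hne
    | cons x u =>
      rw [List.replicate_succ, putAt_true]
      cases x
      · rw [putAt_false, mk'_false_mul, mk'_false_mul, one_mul, mul_one, one_mul, mul_one]
      · rw [putAt_true, mk'_false_mul, mk'_false_mul, one_mul]
        rw [ih u (by simpa using hu) (fun h' => hne (by
          rw [List.length_cons, List.replicate_succ, ← h']))]

theorem init_of {k : ℕ} {X h : Aut} (hk : 4 ≤ k) (H : Rk k X h) : Init h X := by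
  obtain ⟨Y, rfl⟩ := H
  intro u hu hne
  rw [mul_inv_cancel_right]
  exact put_comm k u Y _ (by omega) (by rw [hu]; exact hne)

end TruncAux

open TruncAux in
theorem p_trunc (h : T_mk) : T_trunc := by
  refine ⟨⟨⟨rfl, rfl, rfl⟩, ⟨rfl, rfl⟩, rfl, rfl⟩, fun n => ⟨(mem h _ _).1, (mem h _ _).2.1,
    (mem h _ _).2.2⟩, fun n => ⟨(comm _ _).2.1, (comm _ _).2.2, (comm _ _).1⟩, fun n => ?_,
    fun n hn => ?_⟩
  · obtain ⟨h1, h2, h3⟩ := eq_all n false
    rw [one_mul] at h2 h3
    exact ⟨h1, h2, h3⟩
  · have e : 3 * n = (3 * n - 6) + 6 := by omega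
    have hf := Rk_tr (3 * n - 6) 6 false
    have ht := Rk_tr (3 * n - 6) 6 true
    rw [← e] at hf ht
    exact ⟨init_of (by norm_num) hf.1, init_of (by norm_num) ht.2.1, init_of (by norm_num) hf.2.2⟩

end Pool.Agent.Grig
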