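import Pool.Agent.Grig.Core

set_option autoImplicit false

/-!
# Words and systems of equations

The symbolic form of the system, and the computability of the reduction.
-/

namespace Pool.Agent.Grig

open Aut

/-- the four constants -/
def gens : Fin 4 → Aut := ![a, b, c, d]

/-- letters: variables, their inverses, constants -/
abbrev Letter (V : Type) := (V × Bool) ⊕ Fin 4

/-- value of a letter; `(x, true)` is the inverse of the variable `x` -/
def evL {V : Type} (x : V → Aut) : Letter V → Aut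
  | .inl (v, false) => x v
  | .inl (v, true) => (x v)⁻¹
  | .inr i => gens i

/-- value of a word -/
def evW {V : Type} (x : V → Aut) (w : List (Letter V)) : Aut := (w.map (evL x)).prod

theorem evW_append {V : Type} (x : V → Aut) (w w' : List (Letter V)) :
    evW x (w ++ w') = evW x w * evW x w' := by simp [evW]

/-- inverse letter -/
def invL {V : Type} : Letter V → Letter V
  | .inl (v, s) => .inl (v, !s)
  | .inr i => .inr i

theorem gens_inv (i : Fin 4) : (gens i)⁻¹ = gens i := by
  fin_cases i <;> simp [gens]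

theorem evL_invL {V : Type} (x : V → Aut) (l : Letter V) : evL x (invL l) = (evL x l)⁻¹ := by
  rcases l with ⟨v, s⟩ | i
  · cases s <;> simp [invL, evL]
  · simp [invL, evL, gens_inv]

def invW {V : Type} (w : List (Letter V)) : List (Letter V) := (w.map invL).reverse

theorem evW_invW {V : Type} (x : V → Aut) (w : List (Letter V)) :
    evW x (invW w) = (evW x w)⁻¹ := by
  induction w with
  | nil => simp [invW, evW]
  | cons l w ih =>
    have e1 : invW (l :: w) = invW w ++ [invL l] := by simp [invW]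
    have e2 : evW x (l :: w) = evL x l * evW x w := by simp [evW]
    rw [e1, evW_append, ih, e2, mul_inv_rev]
    congr 1
    simp [evW, evL_invL]

/-- expressions -/
inductive Ex (V : Type) where
  | var (v : V) : Ex V
  | cst (w : List (Fin 4)) : Ex V
  | mul (p q : Ex V) : Ex V
  | inv (p : Ex V) : Ex V

namespace Ex
variable {V : Type}

instance : Mul (Ex V) := ⟨Ex.mul⟩
instance : Inv (Ex V) := ⟨Ex.inv⟩
instance : One (Ex V) := ⟨Ex.cst []⟩

def ev (x : V → Aut) : Ex V → Aut
  | .var v => x v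
  | .cst w => (w.map gens).prod
  | .mul p q => ev x p * ev x q
  | .inv p => (ev x p)⁻¹

def word : Ex V → List (Letter V)
  | .var v => [.inl (v, false)]
  | .cst w => w.map Sum.inr
  | .mul p q => word p ++ word q
  | .inv p => invW (word p)

theorem evW_word (x : V → Aut) (p : Ex V) : evW x p.word = p.ev x := by
  induction p with
  | var v => simp [word, evW, evL, ev]
  | cst w =>
    simp only [word, evW, List.map_map, ev]
    rfl
  | mul p q hp hq => rw [word, evW_append, hp, hq, ev]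
  | inv p hp => rw [word, evW_invW, hp, ev]

@[simp] theorem ev_var (x : V → Aut) (v : V) : (Ex.var v).ev x = x v := rfl
@[simp] theorem ev_mul (x : V → Aut) (p q : Ex V) : (p * q).ev x = p.ev x * q.ev x := rfl
@[simp] theorem ev_inv (x : V → Aut) (p : Ex V) : (p⁻¹).ev x = (p.ev x)⁻¹ := rfl
@[simp] theorem ev_one (x : V → Aut) : (1 : Ex V).ev x = 1 := rfl

/-- power -/
def pw (p : Ex V) : ℕ → Ex V
  | 0 => 1
  | n + 1 => pw p n * p

@[simp] theorem ev_pw (x : V → Aut) (p : Ex V) (n : ℕ) : (p.pw n).ev x = p.ev x ^ n := by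
  induction n with
  | zero => simp [pw]
  | succ n ih => simp [pw, ih, pow_succ]

def ecm (p q : Ex V) : Ex V := p⁻¹ * q⁻¹ * p * q
def ecj (p u : Ex V) : Ex V := u⁻¹ * p * u

@[simp] theorem ev_ecm (x : V → Aut) (p q : Ex V) : (ecm p q).ev x = cm (p.ev x) (q.ev x) := rfl
@[simp] theorem ev_ecj (x : V → Aut) (p q : Ex V) : (ecj p q).ev x = cj (p.ev x) (q.ev x) := rfl

/-- the equation `p = q` as a word -/
def eq (p q : Ex V) : List (Letter V) := (p * q⁻¹).word

theorem evW_eq (x : V → Aut) (p q : Ex V) : evW x (eq p q) = 1 ↔ p.ev x = q.ev x := by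
  rw [eq, evW_word, ev_mul, ev_inv, mul_inv_eq_one]

/-- the equation saying that `p` and `q` commute -/
def com (p q : Ex V) : List (Letter V) := eq (p * q) (q * p)

theorem evW_com (x : V → Aut) (p q : Ex V) :
    evW x (com p q) = 1 ↔ p.ev x * q.ev x = q.ev x * p.ev x := by
  rw [com, evW_eq]; rfl

end Ex

/-- every element of `G` is a product of constants -/
theorem exists_cst {g : Aut} (hg : g ∈ G) : ∃ w : List (Fin 4), (w.map gens).prod = g := by
  revert g
  apply G_induction
  · exact ⟨[], rfl⟩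
  · intro s hs g _ ⟨w, hw⟩
    simp only [Set.mem_insert_iff, Set.mem_singleton_iff] at hs
    rcases hs with rfl | rfl | rfl | rfl
    · exact ⟨0 :: w, by rw [List.map_cons, List.prod_cons, hw]; rfl⟩
    · exact ⟨1 :: w, by rw [List.map_cons, List.prod_cons, hw]; rfl⟩
    · exact ⟨2 :: w, by rw [List.map_cons, List.prod_cons, hw]; rfl⟩
    · exact ⟨3 :: w, by rw [List.map_cons, List.prod_cons, hw]; rfl⟩

/-- names of the unknowns other than the chain -/
inductive Nm (n : ℕ) where
  | q (i : Fin n) | t (i : Fin 3) | s (i : Fin 3) | e (r : Bool)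
  | F | V | W | g | x (j : Fin 4) | y (j : Fin 4) | v

open Ex

/-- all equations of a finite family -/
noncomputable def fam {ι α : Type} [Fintype ι] (f : ι → α) : List α :=
  (Finset.univ : Finset ι).toList.map f

theorem forall_fam {ι α : Type} [Fintype ι] (f : ι → α) (p : α → Prop) :
    (∀ w ∈ fam f, p w) ↔ ∀ i, p (f i) := by
  simp [fam]

section System

variable {n : ℕ} (M : Fin n → Instr n) (i0 : Fin n)

/-- variables of the symbolic system: names and the chain -/
abbrev Vr (n : ℕ) := Nm n ⊕ ℕ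

abbrev nm {n : ℕ} (o : Nm n) : Ex (Vr n) := Ex.var (Sum.inl o)
abbrev ch {n : ℕ} (k : ℕ) : Ex (Vr n) := Ex.var (Sum.inr k)

def emono (u : Fin 3 → Fin 3) : Ex (Vr n) :=
  (nm (.t 0)).pw (u 0 : ℕ) * (nm (.t 1)).pw (u 1 : ℕ) * (nm (.t 2)).pw (u 2 : ℕ)

/-- symbolic equations of one instruction -/
def eInstr (i : Fin n) : Instr n → List (List (Letter (Vr n)))
  | .halt => []
  | .inc r j => [Ex.eq (nm (.q i)) (ecm (ecm (nm (.q j)) (nm (.t (dir r)))) (nm (.t 2)))]
  | .dec r j k => [Ex.eq (ecm (nm (.q i)) (nm (.t (dir r)))) (ecm (nm (.q j)) (nm (.t 2))),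
      Ex.com ((nm (.q i))⁻¹ * ecm (nm (.q k)) (nm (.t 2))) (nm (.e r))]

/-- equations of `Rel` -/
noncomputable def eRel : List (List (Letter (Vr n))) :=
  fam (fun ij : Fin 3 × Fin 3 => Ex.com (nm (.t ij.1)) (nm (.t ij.2))) ++
  fam (fun ij : Fin 3 × Fin 3 => Ex.com (nm (.t ij.1)) (nm (.s ij.2))) ++
  fam (fun i : {i : Fin 3 // i ≠ 0} => Ex.com (nm (.t i.1)) (nm (.e false))) ++
  fam (fun i : {i : Fin 3 // i ≠ 1} => Ex.com (nm (.t i.1)) (nm (.e true))) ++
  [Ex.com (nm (.e false)) (nm (.e true))] ++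
  fam (fun ir : Fin n × Fin 3 => Ex.eq (ecj (nm (.q ir.1)) (nm (.s ir.2)))
    (nm (.q ir.1) * ecj (nm (.q ir.1)) (nm (.t ir.2)) *
      ecj (nm (.q ir.1)) ((nm (.t ir.2)).pw 2))) ++
  fam (fun p : (Fin n × Fin n) × ((Fin 3 → Fin 3) × (Fin 3 → Fin 3)) =>
    Ex.com (ecj (nm (.q p.1.1)) (emono p.2.1)) (ecj (nm (.q p.1.2)) (emono p.2.2))) ++
  (fam (fun i : Fin n => eInstr i (M i))).flatten

/-- the product of four double commutators -/
def eprod4 : Ex (Vr n) :=
  ecm (ecm (nm (.x 0)) (ecj (nm .v) (nm .g))) (nm (.y 0)) *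
  ecm (ecm (nm (.x 1)) (ecj (nm .v) (nm .g))) (nm (.y 1)) *
  ecm (ecm (nm (.x 2)) (ecj (nm .v) (nm .g))) (nm (.y 2)) *
  ecm (ecm (nm (.x 3)) (ecj (nm .v) (nm .g))) (nm (.y 3))

/-- equations of the ray system; `hF hV hW` are words for the constants, `kp u` words for `kap u` -/
noncomputable def eRay (hF hV hW : List (Fin 4)) (kp : List Bool → List (Fin 4)) :
    List (List (Letter (Vr n))) :=
  let B : Ex (Vr n) := .cst [1]
  let C : Ex (Vr n) := .cst [2]
  let Dd : Ex (Vr n) := .cst [3]
  let F : Ex (Vr n) := nm .F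
  let V : Ex (Vr n) := nm .V
  let W : Ex (Vr n) := nm .W
  [Ex.com V B, Ex.com W C, Ex.com F Dd,
    Ex.eq ((W * V * F * C * F).pw 4) (eprod4 * (W * V * C).pw 4),
    Ex.eq ((V * F * W * B * W).pw 4) ((V * F * B).pw 4),
    Ex.eq ((F * W * V * Dd * V).pw 4) ((F * W * Dd).pw 4)] ++
  fam (fun u : {u : List.Vector Bool 4 // u.toList ≠ [true, true, true, true]} =>
    Ex.com (F * (Ex.cst hF)⁻¹) (Ex.cst (kp u.1.toList))) ++
  fam (fun u : {u : List.Vector Bool 4 // u.toList ≠ [true, true, true, true]} =>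
    Ex.com (V * (Ex.cst hV)⁻¹) (Ex.cst (kp u.1.toList))) ++
  fam (fun u : {u : List.Vector Bool 4 // u.toList ≠ [true, true, true, true]} =>
    Ex.com (W * (Ex.cst hW)⁻¹) (Ex.cst (kp u.1.toList)))

/-- equations of the chain -/
def eChain (N : ℕ) : List (List (Letter (Vr n))) :=
  Ex.eq (ch 0) (nm (.q i0)) ::
  ((List.range N).map (fun k => Ex.eq (ch (k + 1)) (ecm (ch k) (nm (.t 0)))) ++
  [Ex.eq (nm .v) (ecm (ecm (ch N) (nm (.e false))) (nm (.e true)))])

/-- the whole symbolic system -/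
noncomputable def eSys (hF hV hW : List (Fin 4)) (kp : List Bool → List (Fin 4)) (N : ℕ) :
    List (List (Letter (Vr n))) :=
  (eRel M ++ eRay hF hV hW kp) ++ eChain i0 N

end System

/-- solvability in `G` over any set of variables -/
def SolvV {V : Type} (S : List (List (Letter V))) : Prop :=
  ∃ x : V → Aut, (∀ v, x v ∈ G) ∧ ∀ w ∈ S, evW x w = 1

theorem ev_cst {V : Type} (x : V → Aut) (w : List (Fin 4)) :
    (Ex.cst w : Ex V).ev x = (w.map gens).prod := rfl

theorem eRel_iff {n : ℕ} (M : Fin n → Instr n) (X : Vr n → Aut) :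
    (∀ w ∈ eRel M, evW X w = 1) ↔
      Rel M (fun i => X (.inl (.q i))) (fun i => X (.inl (.t i))) (fun i => X (.inl (.s i)))
        (fun r => X (.inl (.e r))) := by
  have hins : (∀ w ∈ (fam (fun i : Fin n => eInstr i (M i))).flatten, evW X w = 1) ↔
      ∀ i, InstrRel (fun i => X (.inl (.q i))) (fun i => X (.inl (.t i)))
        (fun r => X (.inl (.e r))) i (M i) := by
    rw [List.forall_mem_flatten, forall_fam]
    refine forall_congr' fun i => ?_
    cases M i with
    | halt => simp [eInstr, InstrRel]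
    | inc r j => simp [eInstr, InstrRel, evW_eq]
    | dec r j k => simp [eInstr, InstrRel, evW_eq, evW_com]
  unfold eRel
  simp only [List.forall_mem_append, hins, forall_fam, evW_com, evW_eq, List.forall_mem_singleton,
    Prod.forall, Subtype.forall]
  constructor
  · rintro ⟨⟨⟨⟨⟨⟨⟨h1, h2⟩, h3⟩, h4⟩, h5⟩, h6⟩, h7⟩, h8⟩
    exact ⟨h1, h2, h3, h4, h5, fun i r => by simpa using h6 i r,
      fun i j u v => by simpa [emono, mono] using h7 i j u v, h8⟩
  · rintro ⟨h1, h2, h3, h4, h5, h6, h7, h8⟩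
    exact ⟨⟨⟨⟨⟨⟨⟨h1, h2⟩, h3⟩, h4⟩, h5⟩, fun i r => by simpa using h6 i r⟩,
      fun i j u v => by simpa [emono, mono] using h7 i j u v⟩, h8⟩

theorem forall_nil {α : Type} (p : α → Prop) : (∀ w ∈ ([] : List α), p w) ↔ True := by simp

theorem chain_iff {n : ℕ} (i0 : Fin n) (N : ℕ) (X : Vr n → Aut) :
    (∀ w ∈ eChain i0 N, evW X w = 1) ↔
      (∀ k ≤ N, X (.inr k) = startVec (X (.inl (.q i0))) (X (.inl (.t 0))) k) ∧
      X (.inl .v) = testEl (X (.inl (.q i0))) (X (.inl (.t 0))) (fun r => X (.inl (.e r))) N := by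
  unfold eChain
  simp only [List.forall_mem_cons, List.forall_mem_append, forall_nil, and_true, evW_eq,
    List.mem_map, List.mem_range, forall_exists_index, and_imp, forall_apply_eq_imp_iff₂,
    ev_var, ev_ecm]
  constructor
  · rintro ⟨h0, h1, h2⟩
    have h3 : ∀ k ≤ N, X (.inr k) = startVec (X (.inl (.q i0))) (X (.inl (.t 0))) k := by
      intro k
      induction k with
      | zero => intro _; exact h0
      | succ k ih =>
        intro hk
        rw [h1 k (by omega), ih (by omega)]; rfl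
    refine ⟨h3, ?_⟩
    rw [h2, h3 N le_rfl]; rfl
  · rintro ⟨h1, h2⟩
    refine ⟨h1 0 (by omega), ?_, ?_⟩
    · intro k hk
      rw [h1 (k + 1) (by omega), h1 k (by omega)]; rfl
    · rw [h2, h1 N le_rfl]; rfl

theorem init_iff {n : ℕ} (X : Vr n → Aut) (o : Nm n) (h : Aut) (hw : List (Fin 4))
    (hh : (hw.map gens).prod = h) (kp : List Bool → List (Fin 4))
    (hk : ∀ u : List Bool, u.length = 4 → ((kp u).map gens).prod = kap u) :
    (∀ w ∈ fam (fun u : {u : List.Vector Bool 4 // u.toList ≠ [true, true, true, true]} =>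
      Ex.com (nm o * (Ex.cst hw)⁻¹) (Ex.cst (kp u.1.toList))), evW X w = 1) ↔
      Init h (X (.inl o)) := by
  rw [forall_fam]
  simp only [evW_com, ev_mul, ev_inv, ev_cst, ev_var, hh, Subtype.forall]
  constructor
  · intro H u hu hne
    have := H ⟨u, hu⟩ hne
    simp only [List.Vector.toList] at this
    rw [hk u hu] at this
    exact this
  · intro H u hne
    rw [hk u.toList u.2]
    exact H u.toList u.2 hne

theorem eSys_iff {n : ℕ} (M : Fin n → Instr n) (i0 : Fin n) (N : ℕ)
    {hF hV hW : Aut} {wF wV wW : List (Fin 4)} (eF : (wF.map gens).prod = hF)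
    (eV : (wV.map gens).prod = hV) (eW : (wW.map gens).prod = hW)
    {kp : List Bool → List (Fin 4)}
    (hk : ∀ u : List Bool, u.length = 4 → ((kp u).map gens).prod = kap u) :
    SolvV (eSys M i0 wF wV wW kp N) ↔
      ∃ (q : Fin n → Aut) (t s : Fin 3 → Aut) (e : Bool → Aut) (F V W g : Aut)
        (x y : Fin 4 → Aut), GSol M i0 N hF hV hW q t s e F V W g x y ∧
        InG q t s e F V W g x y := by
  have key : ∀ X : Vr n → Aut, (∀ w ∈ eSys M i0 wF wV wW kp N, evW X w = 1) ↔
      (GSol M i0 N hF hV hW (fun i => X (.inl (.q i))) (fun i => X (.inl (.t i)))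
        (fun i => X (.inl (.s i))) (fun r => X (.inl (.e r))) (X (.inl .F)) (X (.inl .V))
        (X (.inl .W)) (X (.inl .g)) (fun j => X (.inl (.x j))) (fun j => X (.inl (.y j)))) ∧
      (∀ k ≤ N, X (.inr k) = startVec (X (.inl (.q i0))) (X (.inl (.t 0))) k) ∧
      X (.inl .v) = testEl (X (.inl (.q i0))) (X (.inl (.t 0))) (fun r => X (.inl (.e r))) N := by
    intro X
    unfold eSys eRay
    simp only [List.forall_mem_append, eRel_iff, chain_iff, init_iff X .F hF wF eF kp hk,
      init_iff X .V hV wV eV kp hk, init_iff X .W hW wW eW kp hk, List.forall_mem_cons,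
      evW_com, evW_eq, forall_nil, ev_var, ev_mul, ev_pw, ev_cst, and_true]
    have cB : ((([1] : List (Fin 4)).map gens).prod) = b := by simp [gens]
    have cC : ((([2] : List (Fin 4)).map gens).prod) = c := by simp [gens]
    have cD : ((([3] : List (Fin 4)).map gens).prod) = d := by simp [gens]
    rw [cB, cC, cD]
    have hp : (eprod4 : Ex (Vr n)).ev X = prod4 (X (.inl .v)) (X (.inl .g))
        (fun j => X (.inl (.x j))) (fun j => X (.inl (.y j))) := rfl
    rw [hp]
    constructor
    · rintro ⟨⟨h1, ⟨⟨⟨h2, h3, h4, h5, h6, h7⟩, h8⟩, h9⟩, h10⟩, h11, h12⟩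
      refine ⟨⟨h1, h2, h3, h4, ?_, h6, h7, h8, h9, h10⟩, h11, h12⟩
      rw [h5, h12]
    · rintro ⟨⟨h1, h2, h3, h4, h5, h6, h7, h8, h9, h10⟩, h11, h12⟩
      refine ⟨⟨h1, ⟨⟨⟨h2, h3, h4, ?_, h6, h7⟩, h8⟩, h9⟩, h10⟩, h11, h12⟩
      rw [h5, h12]
  constructor
  · rintro ⟨X, hX, hS⟩
    obtain ⟨h1, -, -⟩ := (key X).1 hS
    exact ⟨_, _, _, _, _, _, _, _, _, _, h1, fun _ => hX _, fun _ => hX _, fun _ => hX _,
      fun _ => hX _, hX _, hX _, hX _, hX _, fun _ => hX _, fun _ => hX _⟩
  · rintro ⟨q, t, s, e, F, V, W, g, x, y, hS, hq, ht, hs, he, hF', hV', hW', hg, hx, hy⟩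
    have hst : ∀ k, startVec (q i0) (t 0) k ∈ G := by
      intro k
      induction k with
      | zero => exact hq _
      | succ k ih =>
        exact G.mul_mem (G.mul_mem (G.mul_mem (G.inv_mem ih) (G.inv_mem (ht 0))) ih) (ht 0)
    have hcm : ∀ u ∈ G, ∀ v ∈ G, cm u v ∈ G := fun u hu v hv =>
      G.mul_mem (G.mul_mem (G.mul_mem (G.inv_mem hu) (G.inv_mem hv)) hu) hv
    let val : Nm n → Aut := fun o => match o with
      | .q i => q i
      | .t i => t i
      | .s i => s i
      | .e r => e r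
      | .F => F
      | .V => V
      | .W => W
      | .g => g
      | .x j => x j
      | .y j => y j
      | .v => testEl (q i0) (t 0) e N
    refine ⟨Sum.elim val (fun k => startVec (q i0) (t 0) k), ?_, ?_⟩
    · rintro (o | k)
      · cases o with
        | q i => exact hq i
        | t i => exact ht i
        | s i => exact hs i
        | e r => exact he r
        | F => exact hF'
        | V => exact hV'
        | W => exact hW'
        | g => exact hg
        | x j => exact hx j
        | y j => exact hy j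
        | v => exact hcm _ (hcm _ (hst N) _ (he _)) _ (he _)
      · exact hst k
    · rw [key]
      exact ⟨hS, fun k _ => rfl, rfl⟩

end Pool.Agent.Grig
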